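import Pool.Agent.PLN.Rst
import Pool.Agent.TIW.Defs

/-!
# PLAX: the two-point function `PG` by words from vertex to vertex (helper62)

`PG_eq : PG r = xc (F (1, -1) (r, r) + F (1, -1) (-r, -r))`, F e y = mass of the self-avoiding words with the end y and the
last direction e.
-/

set_option autoImplicit false

namespace HexObs

namespace PLN

open Finset TS SDN NTW NTA TPC

open scoped ENNReal

/-- self-avoiding words with the end y and the last direction e -/
def FS (e y : Pt) : Set (List Bool) := {s | s ∈ SA ∧ TIW.en s = y ∧ TIW.de s = e}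

lemma dx_eq_sub (t : List Bool) (i : ℕ) : dx up t i = vx oo up t (i + 1) - vx oo up t i := by
  rw [vx_succ]
  abel

/-- a word of `PP r` with the first turn to the right -/
theorem PP_fr (r : ℕ) (s : List Bool) : false :: s ∈ PP r ↔ s ∈ FS (1, -1) (-(r : ℤ), -(r : ℤ)) := by
  have hl : (false :: s).length = s.length + 1 := List.length_cons
  have hv : ∀ i, vx oo up (false :: s) (i + 1) = up + ((vx oo up s i).1 + (vx oo up s i).2, -(vx oo up s i).1) :=
    fun i => vx_fr s i
  have hd : dx up (false :: s) (false :: s).length =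
      ((dx up s s.length).1 + (dx up s s.length).2, -(dx up s s.length).1) := by
    rw [dx_eq_sub, hl, hv, hv, dx_eq_sub s]
    refine Prod.ext ?_ ?_ <;> simp only [Prod.fst_add, Prod.snd_add, Prod.fst_sub, Prod.snd_sub] <;> ring
  constructor
  · rintro ⟨h1, h2, h3, h4⟩
    refine ⟨⟨fun i _ _ => Set.mem_univ _, fun i j hij hj he => ?_⟩, ?_, ?_⟩
    · refine h2 (i + 1) (j + 1) (by omega) (by omega) (by omega) ?_
      rw [hv, hv, he]
    · rw [hl, hv] at h3
      have h5 := add_left_cancel h3
      have h6 := congrArg Prod.fst h5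
      have h7 := congrArg Prod.snd h5
      simp only at h6 h7
      refine Prod.ext ?_ ?_ <;> simp only [TIW.en] <;> omega
    · rw [hd, show (-up : Pt) = (0, -1) from rfl] at h4
      have h6 := congrArg Prod.fst h4
      have h7 := congrArg Prod.snd h4
      simp only at h6 h7
      refine Prod.ext ?_ ?_ <;> simp only [TIW.de] <;> omega
  · rintro ⟨⟨-, h2⟩, h3, h4⟩
    refine ⟨by omega, fun i j hi hij hj he => ?_, ?_, ?_⟩
    · obtain ⟨i, rfl⟩ := Nat.exists_eq_add_of_le' hi
      obtain ⟨j, rfl⟩ : ∃ j', j = j' + 1 := ⟨j - 1, by omega⟩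
      rw [hv, hv] at he
      have h5 := add_left_cancel he
      have h6 := congrArg Prod.fst h5
      have h7 := congrArg Prod.snd h5
      simp only at h6 h7
      refine h2 i j (by omega) (by omega) (Prod.ext ?_ ?_) <;> omega
    · rw [hl, hv]
      have h5 : vx oo up s s.length = (-(r : ℤ), -(r : ℤ)) := h3
      rw [h5]
      refine congrArg _ (Prod.ext ?_ ?_) <;> simp only <;> ring
    · rw [hd]
      have h5 : dx up s s.length = (1, -1) := h4
      rw [h5]
      rfl

/-- a word of `PP r` with the first turn to the left -/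
theorem PP_fl (r : ℕ) (s : List Bool) : true :: s.map not ∈ PP r ↔ s ∈ FS (1, -1) ((r : ℤ), (r : ℤ)) := by
  have hl : (true :: s.map not).length = s.length + 1 := by rw [List.length_cons, List.length_map]
  have hv : ∀ i, i ≤ s.length + 1 → vx oo up (true :: s.map not) (i + 1) =
      up + (-((vx oo up s i).1 + (vx oo up s i).2), (vx oo up s i).2) := by
    intro i hi
    have h := vx_fl (s.map not) (i := i) (by rw [List.length_map]; exact hi)
    rw [map_not_not] at h
    exact h
  have hd : dx up (true :: s.map not) (true :: s.map not).length =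
      (-((dx up s s.length).1 + (dx up s s.length).2), (dx up s s.length).2) := by
    rw [dx_eq_sub, hl, hv _ le_rfl, hv _ (by omega), dx_eq_sub s]
    refine Prod.ext ?_ ?_ <;> simp only [Prod.fst_add, Prod.snd_add, Prod.fst_sub, Prod.snd_sub] <;> ring
  constructor
  · rintro ⟨h1, h2, h3, h4⟩
    refine ⟨⟨fun i _ _ => Set.mem_univ _, fun i j hij hj he => ?_⟩, ?_, ?_⟩
    · refine h2 (i + 1) (j + 1) (by omega) (by omega) (by omega) ?_
      rw [hv i (by omega), hv j (by omega), he]
    · rw [hl, hv _ (by omega)] at h3
      have h5 := add_left_cancel h3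
      have h6 := congrArg Prod.fst h5
      have h7 := congrArg Prod.snd h5
      simp only at h6 h7
      refine Prod.ext ?_ ?_ <;> simp only [TIW.en] <;> omega
    · rw [hd, show (-up : Pt) = (0, -1) from rfl] at h4
      have h6 := congrArg Prod.fst h4
      have h7 := congrArg Prod.snd h4
      simp only at h6 h7
      refine Prod.ext ?_ ?_ <;> simp only [TIW.de] <;> omega
  · rintro ⟨⟨-, h2⟩, h3, h4⟩
    refine ⟨by omega, fun i j hi hij hj he => ?_, ?_, ?_⟩
    · obtain ⟨i, rfl⟩ := Nat.exists_eq_add_of_le' hi
      obtain ⟨j, rfl⟩ : ∃ j', j = j' + 1 := ⟨j - 1, by omega⟩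
      rw [hl] at hj
      rw [hv i (by omega), hv j (by omega)] at he
      have h5 := add_left_cancel he
      have h6 := congrArg Prod.fst h5
      have h7 := congrArg Prod.snd h5
      simp only at h6 h7
      refine h2 i j (by omega) (by omega) (Prod.ext ?_ ?_) <;> omega
    · rw [hl, hv _ (by omega)]
      have h5 : vx oo up s s.length = ((r : ℤ), (r : ℤ)) := h3
      rw [h5]
      refine congrArg _ (Prod.ext ?_ ?_) <;> simp only <;> ring
    · rw [hd]
      have h5 : dx up s s.length = (1, -1) := h4
      rw [h5]
      rfl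

/-- an injective image -/
lemma gf_im {P : Set (List Bool)} (f : List Bool → List Bool) (hf : Function.Injective f) {x : ℝ≥0∞}
    (hw : ∀ t, wE (f t) = x * wE t) : gf (f '' P) = x * gf P := by
  unfold gf
  rw [← ENNReal.tsum_mul_left, ← (Equiv.Set.image f P hf).tsum_eq (fun t : ↥(f '' P) => wE (t : List Bool))]
  refine tsum_congr fun t => ?_
  exact hw t.1

/-- **the two-point function by words from vertex to vertex** -/
theorem PG_eq (r : ℕ) : PG r = ENNReal.ofReal xc *
    (gf (FS (1, -1) ((r : ℤ), (r : ℤ))) + gf (FS (1, -1) (-(r : ℤ), -(r : ℤ)))) := by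
  have hw1 : ∀ t : List Bool, wE (false :: t) = ENNReal.ofReal xc * wE t := by
    intro t
    unfold wE
    rw [← ENNReal.ofReal_mul xc_pos.le, List.length_cons, pow_succ, mul_comm]
  have hw2 : ∀ t : List Bool, wE (true :: t.map not) = ENNReal.ofReal xc * wE t := by
    intro t
    unfold wE
    rw [← ENNReal.ofReal_mul xc_pos.le, List.length_cons, List.length_map, pow_succ, mul_comm]
  have hi1 : Function.Injective fun t : List Bool => false :: t := fun a b h => (List.cons.inj h).2
  have hi2 : Function.Injective fun t : List Bool => true :: t.map not := by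
    intro a b h
    have e' := congrArg (List.map not) (List.cons.inj h).2
    rw [map_not_not, map_not_not] at e'
    exact e'
  have hP : PP r = (fun t : List Bool => true :: t.map not) '' FS (1, -1) ((r : ℤ), (r : ℤ)) ∪
      (fun t : List Bool => false :: t) '' FS (1, -1) (-(r : ℤ), -(r : ℤ)) := by
    ext t
    constructor
    · intro ht
      rcases t with _ | ⟨b, s⟩
      · have := ht.1
        simp at this
      · cases b
        · exact Or.inr ⟨s, (PP_fr r s).1 ht, rfl⟩
        · refine Or.inl ⟨s.map not, (PP_fl r _).1 ?_, ?_⟩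
          · rw [map_not_not]
            exact ht
          · show true :: (s.map not).map not = true :: s
            rw [map_not_not]
    · rintro (⟨s, hs, rfl⟩ | ⟨s, hs, rfl⟩)
      · exact (PP_fl r s).2 hs
      · exact (PP_fr r s).2 hs
  have hdis : Disjoint ((fun t : List Bool => true :: t.map not) '' FS (1, -1) ((r : ℤ), (r : ℤ)))
      ((fun t : List Bool => false :: t) '' FS (1, -1) (-(r : ℤ), -(r : ℤ))) := by
    rw [Set.disjoint_left]
    rintro _ ⟨s, -, rfl⟩ ⟨s', -, h⟩
    have := (List.cons.inj h).1
    exact absurd this (by decide)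
  unfold PG
  rw [hP, mul_add, ← gf_im _ hi2 hw2, ← gf_im _ hi1 hw1]
  unfold gf
  exact ENNReal.summable.tsum_union_disjoint hdis ENNReal.summable

end PLN

end HexObs
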