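import Pool.Agent.GLD.PC
import Pool.Agent.TPC.CylSum
import Pool.Agent.TPF.UpC
import Pool.Agent.TPF.URZ
import Pool.Agent.TPC.XUp
import Pool.Agent.TPC.SDZ

/-!
# PLAX (doc nu34/PLANE_62): the two-point function of the plane along a lattice axis, sharp. Literals (helper62)

Frame of `GLD.PC`: the words start with a step up across a mid-edge and end with the direction down at a mid-edge of the
same level, `r` steps of the axis `(-2, 1)` apart.

* `PCr k r`: words that are self-avoiding modulo `2 k (-2, 1)`, the ends `r` apart modulo `2 k` (`r = k`: `GLD.PC k`);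
  `CG k r`: their mass = the critical two-point function of the honeycomb cylinder with `2 k` rows;
* `PP r`: the same in the plane; `PG r`: their mass.
-/

set_option autoImplicit false

namespace HexObs

namespace PLN

open Finset TS SDN NTW NTA

open scoped ENNReal

/-- words of the plane, self-avoiding modulo 2 k (-2, 1), between two mid-edges of one level, r apart modulo 2 k -/
def PCr (k r : ℕ) : Set (List Bool) := {t | 1 ≤ t.length ∧
  (∀ i j, 1 ≤ i → i < j → j ≤ t.length → ∀ z : ℤ, vx oo up t i ≠ vx oo up t j + (-2 * (2 * k * z), 2 * k * z)) ∧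
  (∃ z : ℤ, vx oo up t t.length = up + (-2 * (r + 2 * k * z), r + 2 * k * z)) ∧ dx up t t.length = -up}

/-- the antipodal case -/
theorem PCr_self (k : ℕ) : PCr k k = Pool.Agent.GLD.PC k := by
  have e : ∀ z : ℤ, ((k : ℤ) + 2 * k * z) = (2 * z + 1) * k := fun z => by ring
  unfold PCr Pool.Agent.GLD.PC
  simp only [e]

/-- the critical two-point function of the cylinder with 2 k rows, the ends r rows apart -/
noncomputable def CG (k r : ℕ) : ℝ≥0∞ := gf (PCr k r)

/-- words of the plane between two mid-edges of one level, r apart -/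
def PP (r : ℕ) : Set (List Bool) := {t | 1 ≤ t.length ∧
  (∀ i j, 1 ≤ i → i < j → j ≤ t.length → vx oo up t i ≠ vx oo up t j) ∧
  vx oo up t t.length = up + (-2 * (r : ℤ), (r : ℤ)) ∧ dx up t t.length = -up}

/-- the critical two-point function of the plane, the ends r rows apart -/
noncomputable def PG (r : ℕ) : ℝ≥0∞ := gf (PP r)

/-- **the soft side**: cylinder against plane -/
def SoftC : Prop := ∃ (C : ℝ) (k0 : ℕ), 0 < C ∧ ∀ k r : ℕ, k0 ≤ k → 1 ≤ r → r ≤ k →
  CG k r ≤ PG r + ENNReal.ofReal (C * (k : ℝ) ^ (-(5 / 24) : ℝ)) ∧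
  PG r ≤ CG k r + ENNReal.ofReal (C * (k : ℝ) ^ (-(5 / 24) : ℝ))

/-- the order of the two-point function of the plane from below -/
def LowP : Prop := ∃ (c : ℝ) (r0 : ℕ), 0 < c ∧ ∀ r : ℕ, r0 ≤ r → ENNReal.ofReal (c * (r : ℝ) ^ (-(5 / 24) : ℝ)) ≤ PG r

/-- **the goal** -/
def Plax : Prop := ∃ A : ℝ, 0 < A ∧
  Filter.Tendsto (fun r : ℕ => (PG r).toReal * (r : ℝ) ^ (5 / 24 : ℝ)) Filter.atTop (nhds A)

end PLN

end HexObs
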