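import Pool.Agent.PLN.DirW

/-!
# PLN, every direction: all the translations (helper62)

The frame of a word is reflected (`map not`) or changed by dropping the first letter (`rst`): every translation becomes one
with nonnegative coordinates.
-/

set_option autoImplicit false

namespace HexObs

namespace DirT

open Finset TS SDN NTW NTA TPC PLN

open scoped ENNReal

/-! ### the maps of the frames -/

/-- the frame of the rest of a word -/
def ph (b : Bool) (p : Pt) : Pt := if b then (-(p.1 + p.2), p.2) else (p.1 + p.2, -p.1)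

/-- its inverse -/
def ps (b : Bool) (p : Pt) : Pt := if b then (-(p.1 + p.2), p.2) else (-p.2, p.1 + p.2)

lemma ps_ph (b : Bool) (p : Pt) : ps b (ph b p) = p := by
  obtain ⟨x, y⟩ := p
  cases b
  · refine Prod.ext ?_ ?_ <;> simp only [ps, ph, Bool.false_eq_true, if_false] <;> ring
  · refine Prod.ext ?_ ?_ <;> simp [ps, ph]

lemma ps_add (b : Bool) (p q : Pt) : ps b (p + q) = ps b p + ps b q := by
  cases b
  · refine Prod.ext ?_ ?_ <;> simp only [ps, Bool.false_eq_true, if_false, Prod.fst_add, Prod.snd_add] <;> ring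
  · refine Prod.ext ?_ ?_
    · simp only [ps, if_true, Prod.fst_add, Prod.snd_add]
      ring
    · simp only [ps, if_true, Prod.snd_add]

lemma ps_ml (b : Bool) (z : ℤ) (T : Pt) : ps b (ml z T) = ml z (ps b T) := by
  cases b
  · refine Prod.ext ?_ ?_ <;> simp only [ps, ml, Bool.false_eq_true, if_false] <;> ring
  · refine Prod.ext ?_ ?_
    · simp only [ps, ml, if_true]
      ring
    · simp only [ps, ml, if_true]

lemma hn_ps (b : Bool) (p : Pt) : hn (ps b p) = hn p := by
  obtain ⟨x, y⟩ := p
  cases b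
  · simp only [hn, ps, Bool.false_eq_true, if_false]
    omega
  · simp only [hn, ps, if_true]
    omega

lemma lm_add' (p q : Pt) : lm (p + q) = lm p + lm q := by
  obtain ⟨x, y⟩ := p
  obtain ⟨x', y'⟩ := q
  simp only [lm, Prod.mk_add_mk, Prod.mk.injEq]
  constructor <;> ring

lemma lm_ml (z : ℤ) (T : Pt) : lm (ml z T) = ml z (lm T) := by
  obtain ⟨x, y⟩ := T
  simp only [lm, ml, Prod.mk.injEq]
  constructor <;> ring

lemma hn_lm (p : Pt) : hn (lm p) = hn p := by
  obtain ⟨x, y⟩ := p
  simp only [hn, lm]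
  omega

lemma ml_neg (z : ℤ) (T : Pt) : ml z (-T) = ml (-z) T := by
  obtain ⟨x, y⟩ := T
  simp only [ml, Prod.neg_mk, Prod.mk.injEq]
  constructor <;> ring

/-! ### the opposite translation -/

lemma DsT_neg {T : Pt} {t : List Bool} (h : DsT T t) : DsT (-T) t := by
  intro i j hi hj m hm he
  refine h i j hi hj (-m) (by omega) ?_
  rw [he]
  obtain ⟨x, y⟩ := T
  simp only [Prod.neg_mk]
  refine Prod.ext ?_ ?_ <;> simp only [Prod.fst_add, Prod.snd_add] <;> ring

lemma WR_neg (c : ℕ) (T w : Pt) : WR c T w ⊆ WR c (-T) w := by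
  rintro s ⟨h1, h2, z, h3, h4⟩
  refine ⟨h1, DsT_neg h2, -z, ?_, ?_⟩
  · rw [ml_neg, neg_neg, h3]
  · rw [ml_neg, neg_neg, hn_neg]
    exact h4

/-! ### the rest of a word -/

/-- the vertices of the word and of its rest -/
theorem rst_two {t : List Bool} (ht : 1 ≤ t.length) : ∃ b : Bool, t.length = (rst t).length + 1 ∧
    ∀ i, i ≤ (rst t).length → vx oo up t (i + 1) = up + ph b (vx oo up (rst t) i) := by
  obtain ⟨b, s, rfl⟩ : ∃ b s, t = b :: s := by
    rcases t with _ | ⟨b, s⟩
    · simp at ht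
    · exact ⟨b, s, rfl⟩
  cases b
  · have e0 : rst (false :: s) = s := by simp [rst]
    refine ⟨false, ?_, fun i _ => ?_⟩
    · rw [e0, List.length_cons]
    · rw [e0]
      exact vx_fr s i
  · have e0 : rst (true :: s) = s.map not := by simp [rst]
    refine ⟨true, ?_, fun i hi => ?_⟩
    · rw [e0, List.length_map, List.length_cons]
    · rw [e0] at hi ⊢
      rw [List.length_map] at hi
      exact vx_fl s (by omega)

/-- the rest of a word without double points modulo T -/
theorem rst_DsT {T w : Pt} {t : List Bool} (ht : 1 ≤ t.length) {z : ℤ} (hT : 1 ≤ hn T)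
    (h2 : ∀ i j, 1 ≤ i → i < j → j ≤ t.length → ∀ z : ℤ, vx oo up t i ≠ vx oo up t j + ml z T)
    (h3 : vx oo up t t.length = w + ml z T) : ∃ b : Bool, rst t ∈ SA ∧ DsT (ps b T) (rst t) ∧
      vx oo up (rst t) (rst t).length = ps b (w + -up) + ml z (ps b T) := by
  obtain ⟨b, e1, e2⟩ := rst_two ht
  have e3 : ∀ i, i ≤ (rst t).length → vx oo up (rst t) i = ps b (vx oo up t (i + 1) + -up) := by
    intro i hi
    rw [e2 i hi, add_neg_cancel_comm, ps_ph]
  have key : ∀ i j, i < j → j ≤ (rst t).length → ∀ z : ℤ, vx oo up (rst t) i ≠ vx oo up (rst t) j + ml z (ps b T) := by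
    intro i j hij hj z he
    refine h2 (i + 1) (j + 1) (by omega) (by omega) (by omega) z ?_
    rw [e2 i (by omega), e2 j hj, he, add_assoc]
    congr 1
    obtain ⟨p, q⟩ := vx oo up (rst t) j
    obtain ⟨x, y⟩ := T
    cases b
    · simp only [ph, ps, ml, Bool.false_eq_true, if_false, Prod.mk_add_mk, Prod.mk.injEq]
      constructor <;> ring
    · simp only [ph, ps, ml, if_true, Prod.mk_add_mk, Prod.mk.injEq, and_true]
      ring
  have hT' : 1 ≤ hn (ps b T) := by rw [hn_ps]; exact hT
  refine ⟨b, ?_, ?_, ?_⟩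
  · refine ⟨fun i _ _ => Set.mem_univ _, fun i j hij hj he => ?_⟩
    refine key i j hij hj 0 ?_
    rw [he]
    refine Prod.ext ?_ ?_ <;> simp [ml]
  · intro i j hi hj m hm he
    rcases lt_trichotomy i j with hij | hij | hij
    · exact key i j hij hj m he
    · subst hij
      have h4 : ml m (ps b T) = 0 := by
        have h5 : vx oo up (rst t) i + ml m (ps b T) = vx oo up (rst t) i + 0 := by
          rw [add_zero]
          exact he.symm
        exact add_left_cancel h5
      have h5 := hn_ml m (ps b T)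
      rw [h4] at h5
      have h6 : hn (0 : Pt) = 0 := by decide
      rw [h6] at h5
      have h7 : 0 < m.natAbs * hn (ps b T) := Nat.mul_pos (by omega) hT'
      omega
    · refine key j i hij hi (-m) ?_
      rw [he]
      refine Prod.ext ?_ ?_ <;> simp only [ml, Prod.fst_add, Prod.snd_add] <;> ring
  · rw [e3 _ le_rfl, ← e1, h3, ← ps_ml, ← ps_add]
    congr 1
    rw [add_assoc, add_assoc, add_comm (ml z T)]

/-- the distance of the end of the rest -/
lemma hn_end {T w : Pt} {b : Bool} {z : ℤ} {c : ℕ} (hc : 1 ≤ c) (hT : 2 * c ≤ hn T)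
    (h : hn T ≤ c * hn (w + ml z T)) : hn (ps b T) ≤ 2 * c * hn (ps b (w + -up) + ml z (ps b T)) := by
  have e1 : ps b (w + -up) + ml z (ps b T) = ps b ((w + ml z T) + -up) := by
    rw [← ps_ml, ← ps_add]
    congr 1
    rw [add_assoc, add_assoc, add_comm (-up)]
  rw [e1, hn_ps, hn_ps]
  have h1 : hn (w + ml z T) ≤ hn ((w + ml z T) + -up) + 1 := by
    have h2 := hn_add_le ((w + ml z T) + -up) up
    rw [neg_add_cancel_right] at h2
    have h3 : hn up = 1 := by decide
    omega
  have h2 : c * hn (w + ml z T) ≤ c * (hn ((w + ml z T) + -up) + 1) := Nat.mul_le_mul_left _ h1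
  rw [mul_add, mul_one] at h2
  rw [mul_assoc]
  omega

/-! ### all the translations -/

/-- the reflection -/
lemma WR_lm (c : ℕ) (T w : Pt) : WR c T w ⊆ {s | s.map not ∈ WR c (lm T) (lm w)} := by
  rintro s ⟨h1, h2, z, h3, h4⟩
  have e1 : ∀ i, i ≤ s.length → vx oo up (s.map not) i = lm (vx oo up s i) := fun i hi => TPC.vx_not s (by omega)
  refine ⟨⟨fun i _ _ => Set.mem_univ _, fun i j hij hj he => ?_⟩, ?_, z, ?_, ?_⟩
  · rw [List.length_map] at hj
    rw [e1 i (by omega), e1 j hj] at he
    refine h1.2 i j hij hj ?_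
    have h5 := congrArg lm he
    rwa [lm_lm, lm_lm] at h5
  · intro i j hi hj m hm he
    rw [List.length_map] at hi hj
    rw [e1 i hi, e1 j hj] at he
    refine h2 i j hi hj m hm ?_
    have h5 := congrArg lm he
    have h6 : ((m * (lm T).1, m * (lm T).2) : Pt) = lm (ml m T) := (lm_ml m T).symm
    rw [h6, ← lm_add', lm_lm, lm_lm] at h5
    exact h5
  · rw [List.length_map, e1 _ le_rfl, h3, ← lm_ml, ← lm_add']
  · rw [← lm_ml, ← lm_add', hn_lm, hn_lm]
    exact h4

end DirT

end HexObs
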