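import Pool.Agent.PLN.Tail

/-!
# PLAX: the soft side (helper62)

`softC : SoftC`: the two-point function of the cylinder with 2 k rows and the one of the plane, the ends r <= k rows apart,
differ by at most C k ^ (-5 / 24).
-/

set_option autoImplicit false

namespace HexObs

namespace PLN

open Finset TS SDN NTW NTA TPC

open scoped ENNReal

/-- the scale as a power of k -/
lemma log_rpow {k : ℕ} (hk : 1 ≤ k) : (2 : ℝ) ^ (-(5 / 24) * (Nat.log 2 k : ℝ)) ≤
    (2 : ℝ) ^ (5 / 24 : ℝ) * (k : ℝ) ^ (-(5 / 24) : ℝ) := by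
  have h1 : k < 2 ^ (Nat.log 2 k + 1) := Nat.lt_pow_succ_log_self (by norm_num) k
  have h2 : (k : ℝ) ≤ (2 : ℝ) ^ ((Nat.log 2 k : ℝ) + 1) := by
    have h3 : (k : ℝ) < ((2 ^ (Nat.log 2 k + 1) : ℕ) : ℝ) := by exact_mod_cast h1
    have h4 : ((2 ^ (Nat.log 2 k + 1) : ℕ) : ℝ) = (2 : ℝ) ^ ((Nat.log 2 k : ℝ) + 1) := by
      rw [show ((Nat.log 2 k : ℝ) + 1) = ((Nat.log 2 k + 1 : ℕ) : ℝ) by push_cast; ring, Real.rpow_natCast]
      push_cast
      ring
    linarith
  have hk0 : (0 : ℝ) < k := by exact_mod_cast hk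
  have h5 : ((2 : ℝ) ^ ((Nat.log 2 k : ℝ) + 1)) ^ (-(5 / 24) : ℝ) ≤ (k : ℝ) ^ (-(5 / 24) : ℝ) :=
    Real.rpow_le_rpow_of_nonpos hk0 h2 (by norm_num)
  have h6 : (2 : ℝ) ^ (-(5 / 24) * (Nat.log 2 k : ℝ)) =
      (2 : ℝ) ^ (5 / 24 : ℝ) * ((2 : ℝ) ^ ((Nat.log 2 k : ℝ) + 1)) ^ (-(5 / 24) : ℝ) := by
    rw [← Real.rpow_mul (by norm_num), ← Real.rpow_add (by norm_num)]
    congr 1
    ring
  rw [h6]
  exact mul_le_mul_of_nonneg_left h5 (by positivity)

/-- the rest of a word of the cylinder is disjoint from its translates -/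
lemma rst_Dsj {k : ℕ} (hk : 1 ≤ k) {t : List Bool} (ht : 1 ≤ t.length)
    (h : ∀ i j, 1 ≤ i → i < j → j ≤ t.length → ∀ z : ℤ, vx oo up t i ≠ vx oo up t j + (-2 * (2 * k * z), 2 * k * z)) :
    Dsj k (rst t) := by
  obtain ⟨σ, hσ, e⟩ := rst_tr ht
  have hlen := rst_len ht
  have hlt : ∀ i j, i < j → j ≤ (rst t).length → ∀ m : ℤ,
      vx oo up (rst t) i ≠ vx oo up (rst t) j + (2 * (k : ℤ) * m, 2 * (k : ℤ) * m) := by
    intro i j hij hj m h3
    refine h (i + 1) (j + 1) (by omega) (by omega) (by omega) (σ * m) ?_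
    have h4 := (e i j (by omega) hj (2 * (k : ℤ) * m)).2 h3
    rw [h4]
    refine Prod.ext ?_ ?_ <;> simp only [Prod.fst_add, Prod.snd_add] <;> ring
  intro i j hi hj m hm h3
  rcases lt_trichotomy i j with hij | hij | hij
  · exact hlt i j hij hj m h3
  · subst hij
    have h4 := congrArg Prod.fst h3
    simp only [Prod.fst_add] at h4
    have h5 : 2 * (k : ℤ) * m ≠ 0 := mul_ne_zero (by omega) hm
    omega
  · refine hlt j i hij hi (-m) ?_
    rw [h3]
    refine Prod.ext ?_ ?_ <;> simp only [Prod.fst_add, Prod.snd_add] <;> ring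

/-- **the soft side** -/
theorem softC : SoftC := by
  obtain ⟨C1, L0, hC1, hT⟩ := tail_mass
  obtain ⟨C2, k0, hC2, hW⟩ := wrap_mass
  refine ⟨4 * (C1 + C2) * (2 : ℝ) ^ (5 / 24 : ℝ), max k0 (2 ^ L0 + 1), by positivity, fun k r hk hr1 hrk => ?_⟩
  have hk0 : k0 ≤ k := (le_max_left _ _).trans hk
  have hk2 : 2 ^ L0 + 1 ≤ k := (le_max_right _ _).trans hk
  have hk1 : 1 ≤ k := by omega
  obtain ⟨L, hL⟩ : ∃ L, L = Nat.log 2 k := ⟨_, rfl⟩
  have hL0 : L0 ≤ L := by
    rw [hL]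
    exact (Nat.le_log_iff_pow_le (by norm_num) (by omega)).2 (by omega)
  have hL1 : 2 ^ L ≤ k := by
    rw [hL]
    exact Nat.pow_log_le_self 2 (by omega)
  have hkr := log_rpow hk1
  rw [← hL] at hkr
  have hfin : ∀ D : ℝ, 0 ≤ D → D ≤ C1 + C2 → 2 * (ENNReal.ofReal (D * (2 : ℝ) ^ (-(5 / 24) * (L : ℝ))) +
      ENNReal.ofReal (D * (2 : ℝ) ^ (-(5 / 24) * (L : ℝ)))) ≤
      ENNReal.ofReal (4 * (C1 + C2) * (2 : ℝ) ^ (5 / 24 : ℝ) * (k : ℝ) ^ (-(5 / 24) : ℝ)) := by
    intro D hD hDC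
    have e2 : (2 : ℝ≥0∞) = ENNReal.ofReal 2 := by norm_num
    rw [← ENNReal.ofReal_add (by positivity) (by positivity), e2, ← ENNReal.ofReal_mul (by norm_num)]
    apply ENNReal.ofReal_le_ofReal
    have h1 : D * (2 : ℝ) ^ (-(5 / 24) * (L : ℝ)) ≤ (C1 + C2) * ((2 : ℝ) ^ (5 / 24 : ℝ) * (k : ℝ) ^ (-(5 / 24) : ℝ)) :=
      mul_le_mul hDC hkr (by positivity) (by positivity)
    nlinarith
  constructor
  · -- cylinder <= plane + error
    obtain ⟨Q, hQ⟩ : ∃ Q : ℤ → Set (List Bool), Q = fun σ => ⋃ z : ℤ, {s | z ≠ 0 ∧ s ∈ SA ∧ Dsj k s ∧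
      vx oo up s s.length = (σ * (r + 2 * k * z), σ * (r + 2 * k * z))} := ⟨_, rfl⟩
    have hsub : PCr k r ⊆ PP r ∪ {t | t ∈ PCr k r ∧ rst t ∈ Q 1 ∪ Q (-1)} := by
      intro t ht
      obtain ⟨h1, h2, ⟨z, h3⟩, h4⟩ := id ht
      have h20 : ∀ i j, 1 ≤ i → i < j → j ≤ t.length → vx oo up t i ≠ vx oo up t j := by
        intro i j hi hij hj he
        refine h2 i j hi hij hj 0 ?_
        rw [he]
        refine Prod.ext ?_ ?_ <;> simp
      by_cases hz : z = 0
      · left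
        refine ⟨h1, h20, ?_, h4⟩
        rw [h3, hz]
        refine Prod.ext ?_ ?_ <;> simp
      · right
        refine ⟨ht, ?_⟩
        obtain ⟨σ, hσ, h5⟩ := rst_end h1 h3
        have h6 : rst t ∈ Q σ := by
          rw [hQ]
          exact Set.mem_iUnion.2 ⟨z, hz, rst_SA h1 h20, rst_Dsj hk1 h1 h2, h5⟩
        rcases hσ with rfl | rfl
        · exact Or.inl h6
        · exact Or.inr h6
    refine (gf_mono hsub).trans ((gf_union_le _ _).trans (add_le_add le_rfl ?_))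
    refine (gf_rst (Q := Q 1 ∪ Q (-1)) (fun t ht => ht.1.1) (fun t ht => ht.2)).trans ?_
    refine (mul_le_mul' le_rfl ((gf_union_le _ _).trans (add_le_add ?_ ?_))).trans (hfin C2 hC2.le (by linarith))
    · rw [hQ, hL]
      exact hW k r 1 hk0 hr1 hrk (Or.inl rfl)
    · rw [hQ, hL]
      exact hW k r (-1) hk0 hr1 hrk (Or.inr rfl)
  · -- plane <= cylinder + error
    obtain ⟨Q, hQ⟩ : ∃ Q : ℤ → Set (List Bool), Q = fun σ : ℤ => {s | s ∈ SA ∧ vx oo up s s.length = (σ * (r : ℤ), σ * (r : ℤ)) ∧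
      ∃ i, i ≤ s.length ∧ (2 : ℤ) ^ L ≤ |row false (vx oo up s i)|} := ⟨_, rfl⟩
    have hsub : PP r ⊆ PCr k r ∪ {t | t ∈ PP r ∧ rst t ∈ Q 1 ∪ Q (-1)} := by
      intro t ht
      obtain ⟨h1, h2, h3, h4⟩ := id ht
      by_cases hc : t ∈ PCr k r
      · exact Or.inl hc
      right
      refine ⟨ht, ?_⟩
      have h5 : ¬ ∀ i j, 1 ≤ i → i < j → j ≤ t.length → ∀ z : ℤ,
          vx oo up t i ≠ vx oo up t j + (-2 * (2 * k * z), 2 * k * z) := by
        intro h5
        refine hc ⟨h1, h5, ⟨0, ?_⟩, h4⟩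
        rw [h3]
        refine Prod.ext ?_ ?_ <;> simp
      push Not at h5
      obtain ⟨i, j, hi, hij, hj, z, h6⟩ := h5
      have hz : z ≠ 0 := by
        rintro rfl
        refine h2 i j hi hij hj ?_
        rw [h6]
        refine Prod.ext ?_ ?_ <;> simp
      have hlen := rst_len h1
      obtain ⟨τ, hτ, h7⟩ := rst_tr h1
      obtain ⟨σ, hσ, h8⟩ := rst_end h1 h3
      have h9 := (h7 (i - 1) (j - 1) (by omega) (by omega) (τ * (2 * k * z))).1 (by
        rw [Nat.sub_add_cancel hi, Nat.sub_add_cancel (by omega), h6]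
        rcases hτ with rfl | rfl <;> refine Prod.ext ?_ ?_ <;> simp only [Prod.fst_add, Prod.snd_add] <;> ring)
      have h10 := congrArg (row false) h9
      rw [row_add] at h10
      have h11 : 2 * (k : ℤ) ≤ |τ * (2 * k * z)| := by
        have h12 : 1 ≤ |z| := Int.one_le_abs hz
        have hk' : (0 : ℤ) ≤ 2 * k := by positivity
        have h13 : |τ * (2 * (k : ℤ) * z)| = 2 * k * |z| := by
          rw [abs_mul, abs_mul, abs_of_nonneg hk']
          rcases hτ with rfl | rfl <;> simp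
        rw [h13]
        nlinarith
      have h12 : (k : ℤ) ≤ |row false (vx oo up (rst t) (i - 1))| ∨ (k : ℤ) ≤ |row false (vx oo up (rst t) (j - 1))| := by
        by_contra hcon
        push Not at hcon
        obtain ⟨h13, h14⟩ := hcon
        have h15 : τ * (2 * (k : ℤ) * z) =
            row false (vx oo up (rst t) (i - 1)) - row false (vx oo up (rst t) (j - 1)) := by linarith
        rw [h15] at h11
        have h16 := abs_sub (row false (vx oo up (rst t) (i - 1))) (row false (vx oo up (rst t) (j - 1)))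
        linarith
      have hL1' : (2 : ℤ) ^ L ≤ k := by exact_mod_cast hL1
      have h13 : rst t ∈ Q σ := by
        rw [hQ]
        refine ⟨rst_SA h1 h2, h8, ?_⟩
        rcases h12 with h12 | h12
        · exact ⟨i - 1, by omega, hL1'.trans h12⟩
        · exact ⟨j - 1, by omega, hL1'.trans h12⟩
      rcases hσ with rfl | rfl
      · exact Or.inl h13
      · exact Or.inr h13
    refine (gf_mono hsub).trans ((gf_union_le _ _).trans (add_le_add le_rfl ?_))
    refine (gf_rst (Q := Q 1 ∪ Q (-1)) (fun t ht => ht.1.1) (fun t ht => ht.2)).trans ?_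
    refine (mul_le_mul' le_rfl ((gf_union_le _ _).trans (add_le_add ?_ ?_))).trans (hfin C1 hC1.le (by linarith))
    · rw [hQ]
      exact hT L _ hL0
    · rw [hQ]
      exact hT L _ hL0

end PLN

end HexObs
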