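import Pool.Agent.PLN.DirE
import Pool.Agent.PLN.Soft

/-!
# PLN, every direction: **the soft side for every cylinder** (helper62)

* `PX w d`: self-avoiding walks of the plane from the mid-edge (oo, up) to the mid-edge behind the vertex w with the
  direction d; `CX T w d`: the same modulo the translation T;
* `wrapT`: `wrapA` for every translation;
* `soft_T`: the two masses differ by at most C |T| ^ (-5 / 24), uniformly in the cylinder, in its direction and in the end.
-/

set_option autoImplicit false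

namespace HexObs

namespace DirT

open Finset TS SDN NTW NTA TPC PLN

open scoped ENNReal

/-! ### all the translations, self-avoiding words -/

/-- a translation with nonnegative coordinates -/
lemma wrapS : ∃ (C : ℝ) (k0 : ℕ), 0 < C ∧ ∀ T w : Pt, 0 ≤ T.1 → 0 ≤ T.2 → 3 ∣ T.1 - T.2 → k0 ≤ hn T →
    gf (WR 16 T w) ≤ ENNReal.ofReal (C * (2 : ℝ) ^ (-(5 / 24) * (Nat.log 2 (hn T) : ℝ))) := by
  obtain ⟨C, k0, hC, h⟩ := wrapA
  refine ⟨C, k0, hC, fun T w h1 h2 h3 hk => ?_⟩
  obtain ⟨a, ha⟩ := Int.eq_ofNat_of_zero_le h1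
  obtain ⟨b, hb⟩ := Int.eq_ofNat_of_zero_le h2
  obtain ⟨x, y⟩ := T
  dsimp only at ha hb
  subst ha
  subst hb
  rw [hn_nat] at hk ⊢
  exact h a b w (by simp only at h3; omega) hk

/-- **self-avoiding words disjoint from their translates with a far end** -/
theorem wrapT : ∃ (C : ℝ) (k0 : ℕ), 0 < C ∧ ∀ T w : Pt, 3 ∣ T.1 - T.2 → k0 ≤ hn T →
    gf (WR 8 T w) ≤ ENNReal.ofReal (C * (2 : ℝ) ^ (-(5 / 24) * (Nat.log 2 (hn T) : ℝ))) := by
  obtain ⟨C, k0, hC, h⟩ := wrapS
  have h816 : ∀ T w : Pt, WR 8 T w ⊆ WR 16 T w := by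
    rintro T w s ⟨h1, h2, z, h3, h4⟩
    exact ⟨h1, h2, z, h3, by omega⟩
  have hup : ∀ T : Pt, 3 ∣ T.1 - T.2 → 3 ∣ (-T).1 - (-T).2 := by
    intro T h3
    rw [Prod.fst_neg, Prod.snd_neg]
    omega
  -- T or - T
  have hS : ∀ T w : Pt, (0 ≤ T.1 ∧ 0 ≤ T.2) ∨ (T.1 ≤ 0 ∧ T.2 ≤ 0) → 3 ∣ T.1 - T.2 → k0 ≤ hn T →
      gf (WR 16 T w) ≤ ENNReal.ofReal (C * (2 : ℝ) ^ (-(5 / 24) * (Nat.log 2 (hn T) : ℝ))) := by
    intro T w h1 h3 hk
    rcases h1 with ⟨h1, h2⟩ | ⟨h1, h2⟩
    · exact h T w h1 h2 h3 hk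
    · refine (gf_mono (WR_neg 16 T w)).trans ?_
      have h4 := h (-T) w (by rw [Prod.fst_neg]; omega) (by rw [Prod.snd_neg]; omega) (hup T h3)
        (by rw [hn_neg]; exact hk)
      rwa [hn_neg] at h4
  refine ⟨4 * C, max k0 16, by positivity, fun T w h3 hk => ?_⟩
  have hk0 : k0 ≤ hn T := (le_max_left _ _).trans hk
  have hk1 : 16 ≤ hn T := (le_max_right _ _).trans hk
  obtain ⟨r, hr⟩ : ∃ r : ℝ, r = (2 : ℝ) ^ (-(5 / 24) * (Nat.log 2 (hn T) : ℝ)) := ⟨_, rfl⟩
  have hr0 : 0 < r := by rw [hr]; positivity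
  rw [← hr]
  have hC4 : C * r ≤ 4 * C * r := by nlinarith
  by_cases hA : (0 ≤ T.1 ∧ 0 ≤ T.2) ∨ (T.1 ≤ 0 ∧ T.2 ≤ 0)
  · refine (gf_mono (h816 T w)).trans ((hS T w hA h3 hk0).trans (ENNReal.ofReal_le_ofReal ?_))
    rw [← hr]
    exact hC4
  by_cases hB : (T.1 ≤ 0 ∧ 0 ≤ T.1 + T.2) ∨ (0 ≤ T.1 ∧ T.1 + T.2 ≤ 0)
  · refine (gf_mono (WR_lm 8 T w)).trans ?_
    rw [TPC.PatA.gf_not]
    refine (gf_mono (h816 _ _)).trans ?_
    refine (hS (lm T) (lm w) ?_ ?_ (by rw [hn_lm]; exact hk0)).trans ?_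
    · simp only [lm]
      omega
    · simp only [lm]
      omega
    · rw [hn_lm, ← hr]
      exact ENNReal.ofReal_le_ofReal hC4
  · -- the first letter is dropped
    have hsub : ∀ s ∈ WR 8 T w, 1 ≤ s.length ∧ rst s ∈ WR 16 (ps false T) (ps false (w + -up)) ∪
        WR 16 (ps true T) (ps true (w + -up)) := by
      rintro s ⟨h1, h2, z, h4, h5⟩
      have hl : 1 ≤ s.length := by
        by_contra hcon
        have h6 : s.length = 0 := by omega
        rw [h6] at h4
        rw [← h4] at h5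
        have h7 : hn (vx oo up s 0) = 0 := by
          show hn oo = 0
          decide
        omega
      obtain ⟨b, b1, b2, b3⟩ := rst_DsT (T := T) (w := w) (z := z) hl (by omega) (fun i j hi hij hj z' he => by
        by_cases hz : z' = 0
        · refine h1.2 i j hij hj ?_
          rw [he, hz]
          refine Prod.ext ?_ ?_ <;> simp [ml]
        · exact h2 i j (by omega) hj z' hz he) h4
      refine ⟨hl, ?_⟩
      have h6 : rst s ∈ WR 16 (ps b T) (ps b (w + -up)) :=
        ⟨b1, b2, z, b3, hn_end (c := 8) (by norm_num) (by omega) h5⟩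
      cases b
      · exact Or.inl h6
      · exact Or.inr h6
    refine (gf_rst (fun t ht => (hsub t ht).1) (fun t ht => (hsub t ht).2)).trans ?_
    have hq : ∀ b, gf (WR 16 (ps b T) (ps b (w + -up))) ≤ ENNReal.ofReal (C * r) := by
      intro b
      refine (hS (ps b T) (ps b (w + -up)) ?_ ?_ (by rw [hn_ps]; exact hk0)).trans ?_
      · cases b
        · simp only [ps, Bool.false_eq_true, if_false]
          omega
        · simp only [ps, if_true]
          omega
      · cases b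
        · simp only [ps, Bool.false_eq_true, if_false]
          omega
        · simp only [ps, if_true]
          omega
      · rw [hn_ps, ← hr]
    refine (mul_le_mul' le_rfl ((gf_union_le _ _).trans (add_le_add (hq false) (hq true)))).trans (le_of_eq ?_)
    rw [← ENNReal.ofReal_add (by positivity) (by positivity), show (2 : ℝ≥0∞) = ENNReal.ofReal 2 by norm_num,
      ← ENNReal.ofReal_mul (by norm_num)]
    congr 1
    ring

/-! ### the walks between two mid-edges -/

/-- self-avoiding walks of the plane from the mid-edge (oo, up) to the mid-edge behind the vertex w, direction d -/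
def PX (w d : Pt) : Set (List Bool) := {t | 1 ≤ t.length ∧
  (∀ i j, 1 ≤ i → i < j → j ≤ t.length → vx oo up t i ≠ vx oo up t j) ∧
  vx oo up t t.length = w ∧ dx up t t.length = d}

/-- the same modulo the translation T: the walks of the cylinder, lifted to the plane -/
def CX (T w d : Pt) : Set (List Bool) := {t | 1 ≤ t.length ∧
  (∀ i j, 1 ≤ i → i < j → j ≤ t.length → ∀ z : ℤ, vx oo up t i ≠ vx oo up t j + ml z T) ∧
  (∃ z : ℤ, vx oo up t t.length = w + ml z T) ∧ dx up t t.length = d}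

lemma log_hn {n : ℕ} (hk : 1 ≤ n) (C : ℝ) (hC : 0 ≤ C) : C * (2 : ℝ) ^ (-(5 / 24) * (Nat.log 2 n : ℝ)) ≤
    C * (2 : ℝ) ^ (5 / 24 : ℝ) * (n : ℝ) ^ (-(5 / 24) : ℝ) := by
  have h := mul_le_mul_of_nonneg_left (log_rpow hk) hC
  rw [← mul_assoc] at h
  exact h

/-- **the soft side for every cylinder** -/
theorem soft_T : ∃ (C : ℝ) (k0 : ℕ), 0 < C ∧ ∀ T w d : Pt, 3 ∣ T.1 - T.2 → k0 ≤ hn T →
    (∀ z : ℤ, hn w ≤ hn (w + ml z T)) →
    gf (CX T w d) ≤ gf (PX w d) + ENNReal.ofReal (C * (hn T : ℝ) ^ (-(5 / 24) : ℝ)) ∧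
    gf (PX w d) ≤ gf (CX T w d) + ENNReal.ofReal (C * (hn T : ℝ) ^ (-(5 / 24) : ℝ)) := by
  obtain ⟨C1, L0, hC1, hT⟩ := tail_T
  obtain ⟨C2, k0, hC2, hW⟩ := wrapT
  refine ⟨4 * (C1 + C2) * (2 : ℝ) ^ (5 / 24 : ℝ), max k0 (2 ^ L0 + 16), by positivity, fun T w d h3 hk hw => ?_⟩
  have hk0 : k0 ≤ hn T := (le_max_left _ _).trans hk
  have hk2 : 2 ^ L0 + 16 ≤ hn T := (le_max_right _ _).trans hk
  have hk16 : 16 ≤ hn T := le_trans (Nat.le_add_left _ _) hk2
  have hk1 : 1 ≤ hn T := by omega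
  obtain ⟨L, hL⟩ : ∃ L, L = Nat.log 2 (hn T) := ⟨_, rfl⟩
  have hL0 : L0 ≤ L := by
    rw [hL]
    exact (Nat.le_log_iff_pow_le (by norm_num) (by omega)).2 (by omega)
  have hL1 : 2 ^ L ≤ hn T := by
    rw [hL]
    exact Nat.pow_log_le_self 2 (by omega)
  have hfin : ∀ D : ℝ, 0 ≤ D → D ≤ C1 + C2 → 2 * (ENNReal.ofReal (D * (2 : ℝ) ^ (-(5 / 24) * (L : ℝ))) +
      ENNReal.ofReal (D * (2 : ℝ) ^ (-(5 / 24) * (L : ℝ)))) ≤
      ENNReal.ofReal (4 * (C1 + C2) * (2 : ℝ) ^ (5 / 24 : ℝ) * (hn T : ℝ) ^ (-(5 / 24) : ℝ)) := by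
    intro D hD hDC
    have e2 : (2 : ℝ≥0∞) = ENNReal.ofReal 2 := by norm_num
    rw [← ENNReal.ofReal_add (by positivity) (by positivity), e2, ← ENNReal.ofReal_mul (by norm_num)]
    apply ENNReal.ofReal_le_ofReal
    have h1 := log_hn hk1 (C1 + C2) (by positivity)
    rw [← hL] at h1
    have h2 : D * (2 : ℝ) ^ (-(5 / 24) * (L : ℝ)) ≤ (C1 + C2) * (2 : ℝ) ^ (-(5 / 24) * (L : ℝ)) :=
      mul_le_mul_of_nonneg_right hDC (by positivity)
    linarith
  -- the far ends
  have hfar : ∀ z : ℤ, z ≠ 0 → hn T ≤ 4 * hn (w + ml z T) := by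
    intro z hz
    have e1 : (w + ml z T) + -w = ml z T := by
      rw [add_assoc, add_comm (ml z T), ← add_assoc, add_neg_cancel, zero_add]
    have h1 := hn_add_le (w + ml z T) (-w)
    rw [e1, hn_neg, hn_ml] at h1
    have h2 := hw z
    have hz1 : 1 ≤ z.natAbs := by omega
    have h4 : 1 * hn T ≤ z.natAbs * hn T := Nat.mul_le_mul_right _ hz1
    omega
  constructor
  · -- cylinder <= plane + error
    have hsub : CX T w d ⊆ PX w d ∪ {t | t ∈ CX T w d ∧ rst t ∈ WR 8 (ps false T) (ps false (w + -up)) ∪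
        WR 8 (ps true T) (ps true (w + -up))} := by
      intro t ht
      obtain ⟨h1, h2, ⟨z, h4⟩, h5⟩ := id ht
      by_cases hz : z = 0
      · left
        refine ⟨h1, fun i j hi hij hj he => h2 i j hi hij hj 0 ?_, ?_, h5⟩
        · rw [he]
          refine Prod.ext ?_ ?_ <;> simp [ml]
        · rw [h4, hz]
          refine Prod.ext ?_ ?_ <;> simp [ml]
      · right
        refine ⟨ht, ?_⟩
        obtain ⟨b, b1, b2, b3⟩ := rst_DsT (T := T) (w := w) (z := z) h1 (by omega) h2 h4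
        have h6 : rst t ∈ WR 8 (ps b T) (ps b (w + -up)) :=
          ⟨b1, b2, z, b3, hn_end (c := 4) (by norm_num) (by omega) (hfar z hz)⟩
        cases b
        · exact Or.inl h6
        · exact Or.inr h6
    refine (gf_mono hsub).trans ((gf_union_le _ _).trans (add_le_add le_rfl ?_))
    refine (gf_rst (fun t ht => ht.1.1) (fun t ht => ht.2)).trans ?_
    have hq : ∀ b, gf (WR 8 (ps b T) (ps b (w + -up))) ≤
        ENNReal.ofReal (C2 * (2 : ℝ) ^ (-(5 / 24) * (L : ℝ))) := by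
      intro b
      have h4 := hW (ps b T) (ps b (w + -up)) (by
        cases b
        · simp only [ps, Bool.false_eq_true, if_false]
          omega
        · simp only [ps, if_true]
          omega) (by rw [hn_ps]; exact hk0)
      rw [hn_ps, ← hL] at h4
      exact h4
    exact (mul_le_mul' le_rfl ((gf_union_le _ _).trans (add_le_add (hq false) (hq true)))).trans
      (hfin C2 hC2.le (by linarith))
  · -- plane <= cylinder + error
    obtain ⟨Q, hQ⟩ : ∃ Q : Bool → Set (List Bool), Q = fun b => {s | s ∈ SA ∧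
      vx oo up s s.length = ps b (w + -up) ∧ ∃ i, i ≤ s.length ∧ 2 ^ L ≤ 16 * hn (vx oo up s i)} := ⟨_, rfl⟩
    have hsub : PX w d ⊆ CX T w d ∪ {t | t ∈ PX w d ∧ rst t ∈ Q false ∪ Q true} := by
      intro t ht
      obtain ⟨h1, h2, h4, h5⟩ := id ht
      by_cases hc : t ∈ CX T w d
      · exact Or.inl hc
      right
      refine ⟨ht, ?_⟩
      have h6 : ¬ ∀ i j, 1 ≤ i → i < j → j ≤ t.length → ∀ z : ℤ, vx oo up t i ≠ vx oo up t j + ml z T := by
        intro h6
        refine hc ⟨h1, h6, ⟨0, ?_⟩, h5⟩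
        rw [h4]
        refine Prod.ext ?_ ?_ <;> simp [ml]
      push Not at h6
      obtain ⟨i, j, hi, hij, hj, z, h6⟩ := h6
      have hz : z ≠ 0 := by
        rintro rfl
        refine h2 i j hi hij hj ?_
        rw [h6]
        refine Prod.ext ?_ ?_ <;> simp [ml]
      obtain ⟨b, e1, e2⟩ := rst_two h1
      have e3 : ∀ i, i ≤ (rst t).length → vx oo up (rst t) i = ps b (vx oo up t (i + 1) + -up) := by
        intro i hi
        rw [e2 i hi, add_neg_cancel_comm, ps_ph]
      have h7 : vx oo up (rst t) (i - 1) = vx oo up (rst t) (j - 1) + ml z (ps b T) := by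
        rw [e3 _ (by omega), e3 _ (by omega), Nat.sub_add_cancel hi, Nat.sub_add_cancel (by omega), h6, ← ps_ml,
          ← ps_add]
        congr 1
        rw [add_assoc, add_assoc, add_comm (ml z T)]
      have h8 : hn (vx oo up (rst t) (i - 1) + -vx oo up (rst t) (j - 1)) = z.natAbs * hn T := by
        rw [h7, add_comm (vx oo up (rst t) (j - 1)), add_neg_cancel_right, hn_ml, hn_ps]
      have h9 := hn_add_le (vx oo up (rst t) (i - 1)) (-vx oo up (rst t) (j - 1))
      rw [h8, hn_neg] at h9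
      have hz1 : 1 ≤ z.natAbs := by omega
      have h10 : 1 * hn T ≤ z.natAbs * hn T := Nat.mul_le_mul_right _ hz1
      have h11 : rst t ∈ Q b := by
        rw [hQ]
        refine ⟨?_, ?_, ?_⟩
        · refine ⟨fun i _ _ => Set.mem_univ _, fun i j hij hj he => ?_⟩
          refine h2 (i + 1) (j + 1) (by omega) (by omega) (by omega) ?_
          rw [e2 i (by omega), e2 j hj, he]
        · rw [e3 _ le_rfl, ← e1, h4]
        · rcases Nat.lt_or_ge (hn (vx oo up (rst t) (i - 1))) (hn (vx oo up (rst t) (j - 1))) with h12 | h12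
          · exact ⟨j - 1, by omega, by omega⟩
          · exact ⟨i - 1, by omega, by omega⟩
      cases b
      · exact Or.inl h11
      · exact Or.inr h11
    refine (gf_mono hsub).trans ((gf_union_le _ _).trans (add_le_add le_rfl ?_))
    refine (gf_rst (fun t ht => ht.1.1) (fun t ht => ht.2)).trans ?_
    refine (mul_le_mul' le_rfl ((gf_union_le _ _).trans (add_le_add ?_ ?_))).trans (hfin C1 hC1.le (by linarith))
    · rw [hQ]
      exact hT L _ hL0
    · rw [hQ]
      exact hT L _ hL0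

end DirT

end HexObs
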