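import Pool.Agent.TPC.PatN

/-!
# PLN, every direction: the pattern of the size ρ (helper62)

A narrow bridge of height at least ρ + 2, a bridge with the lateral displacement in [-5 ρ, -4 ρ], a bridge with the lateral
displacement at least 10 ρ, the last two of height together at most ρ - 2.

* `cat_mass`: the second moment of the concatenations of two classes of bridges;
* `pc_mass`: **the mass of the pattern**; `rare_pc`, `pc_norm`.
-/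

set_option autoImplicit false

namespace HexObs

namespace DirT

open Finset TS SDN RP NTW NTA TPC TPC.PatA

open scoped ENNReal

/-! ### the pattern -/

/-- two sweeps: to the left, then to the right -/
def PcB (ρ : ℕ) : Set (List Bool) := {G | ∃ t, t + 2 ≤ ρ ∧ G ∈ Brd t ∧ ∃ B C, B ∈ BU ∧ C ∈ BU ∧ G = B ++ C ∧
  -(5 * (ρ : ℤ)) ≤ latE B ∧ latE B ≤ -(4 * (ρ : ℤ)) ∧ 10 * (ρ : ℤ) ≤ latE C}

/-- the pattern -/
def Pc (ρ : ℕ) : Set (List Bool) := {G | ∃ A B, A ∈ PaA ρ ∧ B ∈ PcB ρ ∧ G = A ++ B}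

/-- words without the pattern behind a bridge -/
def NoPc (ρ : ℕ) : Set (List Bool) := {g | ∀ X G Y : List Bool, X ∈ BU → G ∈ Pc ρ → g ≠ X ++ (G ++ Y)}

theorem mid_NoPc {ρ : ℕ} {a Z b : List Bool} (ha : a ∈ BU) (h : a ++ (Z ++ b) ∈ NoPc ρ) : Z ∈ NoPc ρ := by
  intro X G Y hX hG hZ
  obtain ⟨n, hn⟩ := ha
  obtain ⟨n', hn'⟩ := hX
  refine h (a ++ X) G (Y ++ b) ⟨n + n', Brd_append hn hn'⟩ hG ?_
  rw [hZ]
  simp only [List.append_assoc]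

/-! ### concatenations of two classes -/

/-- a bridge of PA of height h, a bridge of PB of height t - h -/
def FQ (PA PB : Set (List Bool)) (t h : ℕ) : Set (List Bool) := {G | ∃ A B, (A ∈ Brd h ∧ A ∈ PA) ∧
  (B ∈ Brd (t - h) ∧ B ∈ PB) ∧ G = A ++ B}

lemma FQ_low (PA PB : Set (List Bool)) (t h : ℕ) :
    gf {A | A ∈ Brd h ∧ A ∈ PA} * gf {B | B ∈ Brd (t - h) ∧ B ∈ PB} ≤ gf (FQ PA PB t h) :=
  mul_le_gf (fun A hA B hB => ⟨A, B, hA, hB, rfl⟩) fun _ hA _ hB _ hA' _ hB' he =>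
    (cut_unique hA.1 hA'.1 hB.1 hB'.1 he).1

lemma FQ_two (PA PB : Set (List Bool)) {t h h' : ℕ} (hh : h ≤ h') :
    gf (FQ PA PB t h ∩ FQ PA PB t h') ≤ gf (Brd h) * (gf (Brd (h' - h)) * gf (Brd (t - h'))) := by
  refine (gf_le_mul (R := {V | ∃ C B, C ∈ Brd (h' - h) ∧ B ∈ Brd (t - h') ∧ V = C ++ B}) ?_).trans
    (mul_le_mul' le_rfl (gf_le_mul ?_))
  · rintro G ⟨⟨A, B, hA, hB, rfl⟩, A', B', hA', hB', he⟩
    obtain ⟨v, hv, h1, h2⟩ := cut_nested hA.1 hA'.1 hB.1 hB'.1 hh he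
    exact ⟨A, hA.1, B, ⟨v, B', hv, hB'.1, h2⟩, rfl⟩
  · rintro V ⟨C, B, hC, hB, rfl⟩
    exact ⟨C, hC, B, hB, rfl⟩

/-- **the mass of the concatenations** -/
theorem cat_mass {cA cB : ℝ} (hcA : 0 < cA) (hcB : 0 < cB) {D : ℕ} (hD1 : 1 ≤ D) : ∃ c : ℝ, 0 < c ∧
    ∀ (t : ℕ) (W : Finset ℕ) (PA PB : Set (List Bool)), 1 ≤ t →
      (∀ h ∈ W, h ≤ t ∧ t ≤ D * h ∧ t ≤ D * (t - h)) → t ≤ D * W.card →
      (∀ h ∈ W, ENNReal.ofReal (cA * uu h) ≤ gf {A | A ∈ Brd h ∧ A ∈ PA}) →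
      (∀ h ∈ W, ENNReal.ofReal (cB * uu (t - h)) ≤ gf {B | B ∈ Brd (t - h) ∧ B ∈ PB}) →
      ENNReal.ofReal (c * uu t) ≤ gf {G | G ∈ Brd t ∧ ∃ A B, A ∈ PA ∧ B ∈ PB ∧ G = A ++ B} := by
  have hCW : 0 < 6 + CW := SIM.RareA.CW0
  have hDR : (1 : ℝ) ≤ D := by exact_mod_cast hD1
  have hD0 : (0 : ℝ) < D := by linarith
  obtain ⟨c3, hc3⟩ : ∃ c3 : ℝ, c3 = cA * cB / (D * (6 + CW) ^ 2) := ⟨_, rfl⟩
  have hc30 : 0 < c3 := by rw [hc3]; positivity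
  refine ⟨c3 ^ 2 / (4 * D ^ 2), by positivity, fun t W PA PB ht hWm hWc hA hB => ?_⟩
  have ht0 : (0 : ℝ) < t := by exact_mod_cast ht
  obtain ⟨U, hU⟩ : ∃ U : ℝ, U = UU t := ⟨_, rfl⟩
  have hU0 : 0 < U := by rw [hU]; exact Num2Aux.UU_pos t
  have hut : uu t ≤ U / t := by
    rw [le_div_iff₀ ht0]
    have h3 := Num2Aux.mul_le_UU t
    rw [← hU] at h3
    linarith
  have huk : ∀ h : ℕ, t ≤ D * h → h ≤ t → uu h ≤ D * (U / t) := by
    intro h h3 h4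
    have h5 := Num2Aux.mul_le_UU h
    have h6 : UU h ≤ U := by rw [hU]; exact Num2Aux.UU_mono h4
    have h7 : (t : ℝ) ≤ D * h := by exact_mod_cast h3
    have h8 := uu_pos h
    rw [show D * (U / t) = D * U / t by ring, le_div_iff₀ ht0]
    calc uu h * t ≤ uu h * (D * h) := mul_le_mul_of_nonneg_left h7 h8.le
      _ = D * (h * uu h) := by ring
      _ ≤ D * U := mul_le_mul_of_nonneg_left (h5.trans h6) hD0.le
  have hlow : U / t ≤ (6 + CW) * uu t := by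
    have h3 := UU_le_mul (T := t) ht
    rw [← hU] at h3
    rw [div_le_iff₀ ht0]
    linarith
  have hcard : (W.card : ℝ) ≤ 2 * t ∧ (t : ℝ) / D ≤ W.card := by
    constructor
    · have h1 : W ⊆ range (t + 1) := fun h hh => by
        rw [mem_range]
        have := (hWm h hh).1
        omega
      have h2 := card_le_card h1
      rw [card_range] at h2
      have h3 : W.card ≤ 2 * t := by omega
      exact_mod_cast h3
    · rw [div_le_iff₀ hD0, mul_comm]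
      exact_mod_cast hWc
  -- the union
  have hsub : (⋃ h ∈ W, FQ PA PB t h) ⊆ {G | G ∈ Brd t ∧ ∃ A B, A ∈ PA ∧ B ∈ PB ∧ G = A ++ B} := by
    intro G hG
    rw [Set.mem_iUnion₂] at hG
    obtain ⟨h, hh, A, B, hA', hB', rfl⟩ := hG
    have h3 := Brd_append hA'.1 hB'.1
    rw [show h + (t - h) = t by have := hWm h hh; omega] at h3
    exact ⟨h3, A, B, hA'.2, hB'.2, rfl⟩
  have hfin : gf {G | G ∈ Brd t ∧ ∃ A B, A ∈ PA ∧ B ∈ PB ∧ G = A ++ B} ≠ ⊤ := by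
    refine ne_top_of_le_ne_top ?_ (gf_mono (Q := Brd t) fun Z hZ => hZ.1)
    rw [SIM.RareA.BT_uu]
    exact ENNReal.ofReal_ne_top
  -- the first moment
  have hS : ∀ h ∈ W, ENNReal.ofReal (cA * cB * uu t ^ 2) ≤ gf (FQ PA PB t h) := by
    intro h hh
    obtain ⟨b1, b2, b3⟩ := hWm h hh
    refine le_trans ?_ (FQ_low PA PB t h)
    refine le_trans ?_ (mul_le_mul' (hA h hh) (hB h hh))
    rw [← ENNReal.ofReal_mul (mul_nonneg hcA.le (uu_pos _).le)]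
    apply ENNReal.ofReal_le_ofReal
    have h3 : uu t ≤ uu h := uu_anti b1
    have h4 : uu t ≤ uu (t - h) := uu_anti (by omega)
    have h5 := uu_pos t
    have h6 : uu t * uu t ≤ uu h * uu (t - h) := mul_le_mul h3 h4 h5.le (uu_pos _).le
    calc cA * cB * uu t ^ 2 = cA * cB * (uu t * uu t) := by ring
      _ ≤ cA * cB * (uu h * uu (t - h)) := mul_le_mul_of_nonneg_left h6 (by positivity)
      _ = _ := by ring
  -- the second moment
  have hUt : 0 < U / t := by positivity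
  have hD : ∀ h ∈ W, ∑ h' ∈ W, gf (FQ PA PB t h ∩ FQ PA PB t h') ≤
      ENNReal.ofReal (2 * D ^ 2 * (U ^ 3 / t ^ 2)) := by
    intro h hh
    have hq : ∀ v w : ℕ, v ∈ W → w ∈ W → v ≤ w → gf (FQ PA PB t v ∩ FQ PA PB t w) ≤
        ENNReal.ofReal (D ^ 2 * (U / t) ^ 2 * uu (w - v)) := by
      intro v w hv hw hvw
      obtain ⟨v1, v2, v3⟩ := hWm v hv
      obtain ⟨w1, w2, w3⟩ := hWm w hw
      refine (FQ_two PA PB hvw).trans ?_
      rw [SIM.RareA.BT_uu, SIM.RareA.BT_uu, SIM.RareA.BT_uu, ← ENNReal.ofReal_mul (uu_pos _).le,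
        ← ENNReal.ofReal_mul (uu_pos _).le]
      apply ENNReal.ofReal_le_ofReal
      have h3 := huk v v2 v1
      have h4 := huk (t - w) w3 (by omega)
      calc uu v * (uu (w - v) * uu (t - w)) ≤ D * (U / t) * (uu (w - v) * (D * (U / t))) := by
            refine mul_le_mul h3 (mul_le_mul_of_nonneg_left h4 (uu_pos _).le)
              (mul_nonneg (uu_pos _).le (uu_pos _).le) (by positivity)
        _ = _ := by ring
    have hterm : ∀ h' ∈ W, gf (FQ PA PB t h ∩ FQ PA PB t h') ≤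
        ENNReal.ofReal (D ^ 2 * (U / t) ^ 2 * uu ((h' - h) + (h - h'))) := by
      intro h' hh'
      rcases le_total h h' with h3 | h3
      · rw [Nat.sub_eq_zero_of_le h3, add_zero]
        exact hq h h' hh hh' h3
      · rw [Set.inter_comm, Nat.sub_eq_zero_of_le h3, zero_add]
        exact hq h' h hh' hh h3
    refine (sum_le_sum hterm).trans ?_
    rw [← ENNReal.ofReal_sum_of_nonneg (fun h' _ => mul_nonneg (by positivity) (uu_pos _).le), ← mul_sum]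
    apply ENNReal.ofReal_le_ofReal
    have himg : ∀ V : Finset ℕ, ∀ f : ℕ → ℕ, Set.InjOn f V → (∀ x ∈ V, f x ≤ t) → ∑ x ∈ V, uu (f x) ≤ U := by
      intro V f hinj hf
      rw [hU]
      unfold UU
      rw [← sum_image (f := uu) (s := V) (g := f) hinj]
      refine sum_le_sum_of_subset_of_nonneg ?_ fun y _ _ => (uu_pos y).le
      intro y hy
      rw [mem_image] at hy
      obtain ⟨x, hx, rfl⟩ := hy
      rw [mem_range]
      have := hf x hx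
      omega
    have hle : ∑ h' ∈ W, uu ((h' - h) + (h - h')) ≤ 2 * U := by
      rw [← sum_filter_add_sum_filter_not W (· < h)]
      have e1 := himg (W.filter (· < h)) (fun h' => (h' - h) + (h - h')) (by
        intro a ha b hb hab
        simp only [coe_filter, Set.mem_ofPred_eq] at ha hb hab
        omega) (fun x hx => by
        rw [mem_filter] at hx
        have h3 := hWm x hx.1
        have h4 := hWm h hh
        omega)
      have e2 := himg (W.filter (fun x => ¬ x < h)) (fun h' => (h' - h) + (h - h')) (by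
        intro a ha b hb hab
        simp only [coe_filter, Set.mem_ofPred_eq] at ha hb hab
        omega) (fun x hx => by
        rw [mem_filter] at hx
        have h3 := hWm x hx.1
        omega)
      linarith
    have h0 : 0 ≤ (D : ℝ) ^ 2 * (U / t) ^ 2 := by positivity
    calc (D : ℝ) ^ 2 * (U / t) ^ 2 * ∑ h' ∈ W, uu ((h' - h) + (h - h')) ≤ D ^ 2 * (U / t) ^ 2 * (2 * U) :=
          mul_le_mul_of_nonneg_left hle h0
      _ = _ := by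
          rw [div_pow]
          ring
  -- the conclusion
  obtain ⟨x, hx⟩ : ∃ x : ℝ, x = (gf {G | G ∈ Brd t ∧ ∃ A B, A ∈ PA ∧ B ∈ PB ∧ G = A ++ B}).toReal := ⟨_, rfl⟩
  have hx0 : 0 ≤ x := by rw [hx]; exact ENNReal.toReal_nonneg
  have ex : gf {G | G ∈ Brd t ∧ ∃ A B, A ∈ PA ∧ B ∈ PB ∧ G = A ++ B} = ENNReal.ofReal x := by
    rw [hx, ENNReal.ofReal_toReal hfin]
  rw [ex]
  apply ENNReal.ofReal_le_ofReal
  obtain ⟨S, hSe⟩ : ∃ S : ℝ, S = c3 * (U ^ 2 / t) := ⟨_, rfl⟩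
  have hS0 : 0 < S := by rw [hSe]; positivity
  have hS1 : ENNReal.ofReal S ≤ ∑ h ∈ W, gf (FQ PA PB t h) := by
    refine le_trans ?_ (sum_le_sum hS)
    rw [sum_const, nsmul_eq_mul, ← ENNReal.ofReal_natCast, ← ENNReal.ofReal_mul (Nat.cast_nonneg _)]
    apply ENNReal.ofReal_le_ofReal
    have h3 : (U / t) ^ 2 ≤ ((6 + CW) * uu t) ^ 2 := pow_le_pow_left₀ hUt.le hlow 2
    have h4 : c3 * (U ^ 2 / t) = cA * cB * (U / t) ^ 2 / (6 + CW) ^ 2 * (t / D) := by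
      rw [hc3]
      field_simp
    have h5 := uu_pos t
    rw [hSe, h4]
    calc cA * cB * (U / t) ^ 2 / (6 + CW) ^ 2 * (t / D) ≤
          cA * cB * ((6 + CW) * uu t) ^ 2 / (6 + CW) ^ 2 * (t / D) := by gcongr
      _ = (cA * cB * uu t ^ 2) * (t / D) := by
          field_simp
      _ ≤ (cA * cB * uu t ^ 2) * (W.card : ℝ) := mul_le_mul_of_nonneg_left hcard.2 (by positivity)
      _ = _ := by ring
  obtain ⟨D', hDe⟩ : ∃ D' : ℝ, D' = 4 * D ^ 2 * (U ^ 3 / t) := ⟨_, rfl⟩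
  have hD0' : 0 < D' := by rw [hDe]; positivity
  have hD1' : ∑ h ∈ W, ∑ h' ∈ W, gf (FQ PA PB t h ∩ FQ PA PB t h') ≤ ENNReal.ofReal D' := by
    refine (sum_le_sum hD).trans ?_
    rw [sum_const, nsmul_eq_mul, ← ENNReal.ofReal_natCast, ← ENNReal.ofReal_mul (Nat.cast_nonneg _)]
    apply ENNReal.ofReal_le_ofReal
    rw [hDe]
    calc (W.card : ℝ) * (2 * D ^ 2 * (U ^ 3 / t ^ 2)) ≤ 2 * t * (2 * D ^ 2 * (U ^ 3 / t ^ 2)) :=
          mul_le_mul_of_nonneg_right hcard.1 (by positivity)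
      _ = _ := by
          field_simp
          ring
  have hC4 : (0 : ℝ) < 4 * D ^ 2 := by positivity
  refine fin_num (S := S) (D := D') ht0 hU0 hc30 hC4 (le_of_eq hSe.symm) (le_of_eq hDe) hut ?_
  obtain ⟨l, hl⟩ : ∃ l : ℝ, l = 4 * D ^ 2 / c3 * U := ⟨_, rfl⟩
  have hl0 : 0 < l := by rw [hl]; positivity
  rw [← hl]
  have hsec := second W (FQ PA PB t) (ENNReal.ofReal l)
  have h3 : 2 * ENNReal.ofReal l * ENNReal.ofReal S ≤
      ENNReal.ofReal l ^ 2 * ENNReal.ofReal x + ENNReal.ofReal D' := by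
    refine (mul_le_mul' le_rfl hS1).trans (hsec.trans (add_le_add (mul_le_mul' le_rfl ?_) hD1'))
    rw [← ex]
    exact gf_mono hsub
  rw [show (2 : ℝ≥0∞) = ENNReal.ofReal 2 by norm_num, ← ENNReal.ofReal_mul (by norm_num),
    ← ENNReal.ofReal_mul (by positivity), ← ENNReal.ofReal_pow hl0.le, ← ENNReal.ofReal_mul (by positivity),
    ← ENNReal.ofReal_add (by positivity) hD0'.le, ENNReal.ofReal_le_ofReal_iff (by positivity)] at h3
  exact h3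

/-! ### the sweeps -/

/-- a sweep to the right -/
lemma swR_mass : ∃ (c : ℝ) (ρ0 : ℕ), 0 < c ∧ 1 ≤ ρ0 ∧ ∀ ρ t : ℕ, ρ0 ≤ ρ → t ≤ ρ → ρ ≤ 8 * t →
    ENNReal.ofReal (c * uu t) ≤ gf {B | B ∈ Brd t ∧ 10 * (ρ : ℤ) ≤ latE B} := by
  obtain ⟨c, t0, hc, ht0, h⟩ := win_mass 88 (show (0 : ℝ) < 1 by norm_num)
  refine ⟨c / 8, 8 * t0 + 100, by positivity, by omega, fun ρ t hρ h1 h2 => ?_⟩
  obtain ⟨δ, hδ0, hδ1, hδ⟩ := par (10 * ρ) t
  have hkey := h t (ρ / 4) (10 * ρ + δ) (by omega) (by omega) hδ (by push_cast; omega)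
  refine le_trans ?_ (hkey.trans (gf_mono ?_))
  · apply ENNReal.ofReal_le_ofReal
    have hu := uu_pos t
    have ht : (0 : ℝ) < t := by
      have : 0 < t := by omega
      exact_mod_cast this
    have h3 : (t : ℝ) ≤ 8 * ((ρ / 4 : ℕ) : ℝ) := by
      have : t ≤ 8 * (ρ / 4) := by omega
      exact_mod_cast this
    have e : c * (((ρ / 4 : ℕ) : ℝ) * (uu t / t)) = c / 8 * uu t * (8 * ((ρ / 4 : ℕ) : ℝ) / t) := by
      field_simp
    rw [e]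
    have h4 : 1 ≤ 8 * ((ρ / 4 : ℕ) : ℝ) / t := by rwa [le_div_iff₀ ht, one_mul]
    have h5 : 0 ≤ c / 8 * uu t := by positivity
    nlinarith
  · rintro G ⟨hB, h3, h4, h5⟩
    exact ⟨hB, by omega⟩

/-- a sweep to the left -/
lemma swL_mass : ∃ (c : ℝ) (ρ0 : ℕ), 0 < c ∧ 1 ≤ ρ0 ∧ ∀ ρ t : ℕ, ρ0 ≤ ρ → t ≤ ρ → ρ ≤ 8 * t →
    ENNReal.ofReal (c * uu t) ≤
      gf {B | B ∈ Brd t ∧ -(5 * (ρ : ℤ)) ≤ latE B ∧ latE B ≤ -(4 * (ρ : ℤ))} := by
  obtain ⟨c, t0, hc, ht0, h⟩ := win_mass 48 (show (0 : ℝ) < 1 by norm_num)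
  refine ⟨c / 8, 8 * t0 + 100, by positivity, by omega, fun ρ t hρ h1 h2 => ?_⟩
  obtain ⟨δ, hδ0, hδ1, hδ⟩ := par (4 * ρ) t
  have hkey := h t (ρ / 4) (4 * ρ + δ) (by omega) (by omega) hδ (by push_cast; omega)
  rw [← gf_not {B | B ∈ Brd t ∧ -(5 * (ρ : ℤ)) ≤ latE B ∧ latE B ≤ -(4 * (ρ : ℤ))}]
  refine le_trans ?_ (hkey.trans (gf_mono ?_))
  · apply ENNReal.ofReal_le_ofReal
    have hu := uu_pos t
    have ht : (0 : ℝ) < t := by
      have : 0 < t := by omega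
      exact_mod_cast this
    have h3 : (t : ℝ) ≤ 8 * ((ρ / 4 : ℕ) : ℝ) := by
      have : t ≤ 8 * (ρ / 4) := by omega
      exact_mod_cast this
    have e : c * (((ρ / 4 : ℕ) : ℝ) * (uu t / t)) = c / 8 * uu t * (8 * ((ρ / 4 : ℕ) : ℝ) / t) := by
      field_simp
    rw [e]
    have h4 : 1 ≤ 8 * ((ρ / 4 : ℕ) : ℝ) / t := by rwa [le_div_iff₀ ht, one_mul]
    have h5 : 0 ≤ c / 8 * uu t := by positivity
    nlinarith
  · rintro G ⟨hB, h3, h4, h5⟩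
    refine ⟨Brd_not hB, ?_, ?_⟩ <;> rw [latE_not] <;> omega

/-- the two sweeps -/
lemma pcB_mass : ∃ (c : ℝ) (ρ0 : ℕ), 0 < c ∧ 1 ≤ ρ0 ∧ ∀ ρ t : ℕ, ρ0 ≤ ρ → t + 2 ≤ ρ → ρ ≤ 2 * t →
    ENNReal.ofReal (c * uu t) ≤ gf {B | B ∈ Brd t ∧ B ∈ PcB ρ} := by
  obtain ⟨cA, ρA, hcA, hρA, hA⟩ := swL_mass
  obtain ⟨cB, ρB, hcB, hρB, hB⟩ := swR_mass
  obtain ⟨c, hc, h⟩ := cat_mass hcA hcB (D := 4) (by norm_num)
  refine ⟨c, ρA + ρB + 100, hc, by omega, fun ρ t hρ h1 h2 => ?_⟩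
  refine (h t (Icc (t / 3) (2 * t / 3))
    {B | B ∈ BU ∧ -(5 * (ρ : ℤ)) ≤ latE B ∧ latE B ≤ -(4 * (ρ : ℤ))} {B | B ∈ BU ∧ 10 * (ρ : ℤ) ≤ latE B}
    (by omega) ?_ ?_ ?_ ?_).trans (gf_mono ?_)
  · intro k hk
    rw [mem_Icc] at hk
    omega
  · rw [Nat.card_Icc]
    omega
  · intro k hk
    rw [mem_Icc] at hk
    refine (hA ρ k (by omega) (by omega) (by omega)).trans (gf_mono ?_)
    rintro B ⟨h3, h4⟩
    exact ⟨h3, ⟨k, h3⟩, h4⟩
  · intro k hk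
    rw [mem_Icc] at hk
    refine (hB ρ (t - k) (by omega) (by omega) (by omega)).trans (gf_mono ?_)
    rintro B ⟨h3, h4⟩
    exact ⟨h3, ⟨t - k, h3⟩, h4⟩
  · rintro G ⟨h3, A, B, h4, h5, h6⟩
    exact ⟨h3, t, h1, h3, A, B, h4.1, h5.1, h6, h4.2.1, h4.2.2, h5.2⟩

/-- **the mass of the pattern** -/
theorem pc_mass : ∃ (c : ℝ) (ρ0 : ℕ), 0 < c ∧ 1 ≤ ρ0 ∧ ∀ ρ t : ℕ, ρ0 ≤ ρ → 2 * ρ ≤ t → t ≤ 3 * ρ →
    ENNReal.ofReal (c * uu t) ≤ gf {G | G ∈ Brd t ∧ G ∈ Pc ρ} := by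
  obtain ⟨cA, ρA, hcA, hρA, hA⟩ := paA_mass
  obtain ⟨cB, ρB, hcB, hρB, hB⟩ := pcB_mass
  obtain ⟨c, hc, h⟩ := cat_mass hcA hcB (D := 12) (by norm_num)
  refine ⟨c, ρA + ρB + 100, hc, by omega, fun ρ t hρ h1 h2 => ?_⟩
  refine h t (Icc (t + 2 - ρ) (t - (ρ + 1) / 2)) (PaA ρ) (PcB ρ) (by omega) ?_ ?_ ?_ ?_
  · intro k hk
    rw [mem_Icc] at hk
    omega
  · rw [Nat.card_Icc]
    omega
  · intro k hk
    rw [mem_Icc] at hk
    exact hA ρ k (by omega) (by omega) (by omega)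
  · intro k hk
    rw [mem_Icc] at hk
    exact hB ρ (t - k) (by omega) (by omega) (by omega)

/-- bridges without the pattern are rare -/
theorem rare_pc {ε : ℝ} (hε : 0 < ε) : ∃ C ρ0 : ℕ, 1 ≤ C ∧ 1 ≤ ρ0 ∧ ∀ ρ h : ℕ, ρ0 ≤ ρ → C * ρ ≤ h →
    gf {Z | Z ∈ Brd h ∧ Z ∈ NoPc ρ} ≤ ENNReal.ofReal (ε * uu h) := by
  obtain ⟨c, ρ0, hc, h0, hm⟩ := pc_mass
  obtain ⟨C, hC, h⟩ := SIM.rare hc hε
  refine ⟨C, ρ0, hC, h0, fun ρ k hρ hk => le_trans (gf_mono ?_) (h ρ (Pc ρ) (by omega) (fun t => hm ρ t hρ) k hk)⟩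
  rintro Z ⟨hZ, hN⟩
  refine ⟨hZ, ?_⟩
  rintro ⟨A, G, B, hA, hG, -, he⟩
  exact hN A G B hA hG he

/-- **the norm of the leaves without the pattern** -/
theorem pc_norm (e : ℝ) (J : ℕ) (he : 0 < e) : ∃ C k0 : ℕ, ∀ kc ρ : ℕ, k0 ≤ kc → k0 ≤ ρ → C * ρ ≤ 2 ^ kc →
    SmD DmJ kc {g | g ∈ BrR (2 ^ (kc + 4)) (2 ^ (kc + J)) ∧ g ∈ NoPc ρ} e := by
  refine leaf_normU (P := NoPc) (fun r a Z b ha h => mid_NoPc ha h) (fun ε hε => ?_) e J he
  obtain ⟨C, ρ0, -, -, h⟩ := rare_pc hε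
  exact ⟨C, ρ0, h⟩

end DirT

end HexObs
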