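import Pool.Agent.TPC.PatX
import Pool.Agent.PLN.DirP

/-!
# PLN, every direction: a word with the pattern of the size ρ meets its translate by T (helper62)

T is a translation with lv T = 3 ρ (the height of T is ρ) and |T.1| ≤ 3 ρ.
-/

set_option autoImplicit false

namespace HexObs

namespace DirT

open Finset TS SDN NTW NTA SIM TPC

open scoped ENNReal

/-- the words which do not meet their translate by T -/
def DG (T : Pt) : Set (List Bool) := {g | ∀ i j, i ≤ g.length → j ≤ g.length →
  vx oo up g j ≠ vx oo up g i + T}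

/-- words which do not meet their translate: infixes behind a bridge -/
theorem mid_DG {T : Pt} {a Z b : List Bool} (ha : a ∈ BU) (h : a ++ (Z ++ b) ∈ DG T) : Z ∈ DG T := by
  obtain ⟨n, hn⟩ := ha
  have hd := (mem_Brd.1 hn).2.2.1
  intro i j hi hj he
  refine h (a.length + i) (a.length + j) (by simp only [List.length_append]; omega)
    (by simp only [List.length_append]; omega) ?_
  rw [vx_cat hd, vx_cat hd, vx_append (by omega), vx_append (by omega), he, add_assoc]

/-- **a word with the pattern meets its translate** -/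
theorem pc_meet {T : Pt} {ρ : ℕ} (hρ : 1 ≤ ρ) (hT : lv T = 3 * ρ) (hT1 : |T.1| ≤ 3 * (ρ : ℤ)) {X G Y : List Bool}
    (hX : X ∈ BU) (hG : G ∈ Pc ρ) : X ++ (G ++ Y) ∉ DG T := by
  intro hD
  have hGD := mid_DG hX hD
  obtain ⟨A, G', ⟨t1, ht1, hA, hAl⟩, ⟨t, ht, hBd, B, C, ⟨tB, hB⟩, ⟨tC, hC⟩, rfl, hB1, hB2, hC1⟩, rfl⟩ := hG
  rw [abs_le] at hT1
  have hdA := (mem_Brd.1 hA).2.2.1
  have hdB := (mem_Brd.1 hB).2.2.1
  have hAe := (mem_Brd.1 hA).2.2.2
  have hBe := (mem_Brd.1 hB).2.2.2
  have hCe := (mem_Brd.1 hC).2.2.2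
  have hAB := Brd_append hA hB
  have hdAB := (mem_Brd.1 hAB).2.2.1
  have hABe := (mem_Brd.1 hAB).2.2.2
  -- the heights
  have htt : tB + tC = t := by
    have h1 := (mem_Brd.1 hBd).2.2.2
    rw [List.length_append, lev_cat hdB, hBe, hCe] at h1
    omega
  have hup : up ∈ dirs := by decide
  have hcl : (cl oo = 0 ∧ cl up = -1) ∨ (cl oo = -1 ∧ cl up = 1) := by decide
  obtain ⟨W, hW⟩ : ∃ W, W = A ++ (B ++ C) := ⟨_, rfl⟩
  have hW' : W = (A ++ B) ++ C := by rw [hW, List.append_assoc]
  have hHN : ∀ i, HN (vx oo up W i) (vx oo up W (i + 1)) := fun i => HN_vx hup hcl _ i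
  have h3 : (3 : ℤ) ∣ lv T := by
    rw [hT]
    exact dvd_mul_right _ _
  have hA1 : 1 ≤ A.length := by
    by_contra hcon
    have h0 : A.length = 0 := by omega
    rw [h0] at hAe
    have : lev A 0 = 0 := lev_zero A
    omega
  have hC1' : 1 ≤ C.length := by
    by_contra hcon
    have h0 : C.length = 0 := by omega
    have h1 : latE C = 0 := by
      unfold latE
      rw [h0]
      exact lat0 C
    rw [h1] at hC1
    omega
  -- coordinates
  have cA : ∀ i, i ≤ A.length → lv (vx oo up W i) = lev A i ∧ (vx oo up W i).1 = lat A i := by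
    intro i hi
    rw [hW, vx_append (by omega), lv_vx, fst_vx]
    exact ⟨rfl, rfl⟩
  have eAB : latE (A ++ B) = latE A + latE B := by
    have h1 : latE (A ++ B) = lat (A ++ B) (A ++ B).length := rfl
    have h2 : latE B = lat B B.length := rfl
    rw [h1, h2, List.length_append, lat_cat hdA]
  have cC : ∀ j, lv (vx oo up W (A.length + B.length + j)) = 3 * (t1 + tB) + lev C j ∧
      (vx oo up W (A.length + B.length + j)).1 = latE A + latE B + lat C j := by
    intro j
    have e : A.length + B.length + j = (A ++ B).length + j := by rw [List.length_append]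
    rw [lv_vx, fst_vx, hW', e, lev_cat hdAB, lat_cat hdAB, hABe]
    refine ⟨by push_cast; ring, ?_⟩
    rw [eAB]
  obtain ⟨P, hP⟩ : ∃ P : ℕ → Pt, P = fun i => vx oo up W i + T := ⟨_, rfl⟩
  have hPn : ∀ i < A.length, HN (P i) (P (i + 1)) := by
    intro i _
    rw [hP]
    exact HN_add h3 (hHN i)
  have cP : ∀ i, i ≤ A.length → lv (P i) = lev A i + 3 * ρ ∧ (P i).1 = lat A i + T.1 := by
    intro i hi
    obtain ⟨c1, c2⟩ := cA i hi
    rw [hP]
    refine ⟨?_, ?_⟩
    · show lv (vx oo up W i + T) = _
      rw [lv_add, c1, hT]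
    · show (vx oo up W i).1 + T.1 = _
      rw [c2]
  have hP0 : lv (P 0) = 3 * ρ := by
    rw [(cP 0 (by omega)).1, lev_zero, zero_add]
  have hPl : lv (P A.length) = 3 * t1 + 3 * ρ := by
    rw [(cP _ le_rfl).1, hAe]
  have hCb : ∀ j, j ≤ C.length → 0 ≤ lev C j ∧ lev C j ≤ 3 * tC := by
    intro j hj
    rcases Nat.eq_zero_or_pos j with h0 | h0
    · rw [h0, lev_zero]
      exact ⟨le_rfl, by positivity⟩
    · have := (mem_Brd.1 hC).1 j h0 hj
      exact ⟨this.1.le, this.2⟩
  have hA0 := hAl A.length le_rfl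
  have eL : lat A A.length = latE A := rfl
  have eC : lat C C.length = latE C := rfl
  rw [abs_le] at hA0
  obtain ⟨i, hi, j, hj, he⟩ := hex_cross (P := P) (Q := fun j => vx oo up W (A.length + B.length + j)) (n := A.length)
    (m := C.length) hPn (fun j _ => hHN (A.length + B.length + j)) hA1 hC1'
    (fun j hj => by
      obtain ⟨c1, -⟩ := cC j
      have := (hCb j hj).1
      rw [hP0]
      show _ ≤ lv (vx oo up W (A.length + B.length + j))
      rw [c1]
      omega)
    (fun j hj => by
      obtain ⟨c1, -⟩ := cC j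
      have := (hCb j hj).2
      rw [hPl]
      show lv (vx oo up W (A.length + B.length + j)) + 3 ≤ _
      rw [c1]
      omega)
    (fun i hi => by
      have h5 := hAl i hi
      rw [abs_le] at h5
      show (vx oo up W (A.length + B.length + 0)).1 ≤ _
      rw [(cC 0).2, lat0, (cP i hi).2]
      omega)
    (fun i hi => by
      have h5 := hAl i hi
      rw [abs_le] at h5
      show _ < (vx oo up W (A.length + B.length + C.length)).1
      rw [(cC C.length).2, (cP i hi).2]
      omega)
  refine hGD i (A.length + B.length + j) (by simp only [List.length_append]; omega)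
    (by simp only [List.length_append]; omega) ?_
  rw [hP] at he
  rw [← hW]
  exact he.symm

/-- **words which do not meet their translate have no pattern** -/
theorem DG_sub {T : Pt} {ρ : ℕ} (hρ : 1 ≤ ρ) (hT : lv T = 3 * ρ) (hT1 : |T.1| ≤ 3 * (ρ : ℤ)) : DG T ⊆ NoPc ρ := by
  intro g hg X G Y hX hG he
  rw [he] at hg
  exact pc_meet hρ hT hT1 hX hG hg

end DirT

end HexObs
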