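import Pool.Agent.TPC.SDGeo
import Pool.Agent.TPF.URZ
import Pool.Agent.PLN.DirX

/-!
# PLN, every direction: the geometry of the walks which do not meet their translates by the multiples of T (helper62)

* `DsT T t`: the word t does not meet its translates by the multiples of T;
* `leaf_DG`: the leaves of the direction dir do not meet their translate by `TD dir T`;
* `leaf_NoPc`: for T with nonnegative coordinates the leaves have no pattern, in both directions;
* `geo_gen`: a run of leaves of the class, or a tall leaf.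
-/

set_option autoImplicit false

namespace HexObs

namespace DirT

open Finset TS SDN NTW NTA SIM SIM.GI TPC

open scoped ENNReal

/-- t does not meet its translates by the multiples of T -/
def DsT (T : Pt) (t : List Bool) : Prop := ∀ i j : ℕ, i ≤ t.length → j ≤ t.length → ∀ m : ℤ, m ≠ 0 →
  vx oo up t i ≠ vx oo up t j + (m * T.1, m * T.2)

/-- the translation in the frame of the leaves -/
def TD (dir : Bool) (T : Pt) : Pt := if dir then (-T.2, T.1 + T.2) else T

/-- the leaves of a walk which does not meet its translates do not meet their translate -/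
lemma leaf_DG {dir : Bool} {b m u : ℕ} {T : Pt} {t : List Bool} {e : ℕ → ℕ} (ht : t ∈ SA) (hb : 1 ≤ b)
    (h : Lf dir b t m u e) {j : ℕ} (h1 : 1 ≤ j) (h2 : j + 2 ≤ m) (hD : DsT T t) :
    lw t (e j) (e (j + 1)) ∈ DG (TD dir T) := by
  obtain ⟨σ, hσ, hl, hlt, hc⟩ := leaf_coord ht hb h h1 h2
  have hle : e (j + 1) ≤ t.length := (lf_mono h (by omega) le_rfl).trans h.le
  intro i i' hi hi' he
  obtain ⟨c1, c2⟩ := hc i hi
  obtain ⟨c3, c4⟩ := hc i' hi'
  have d1 : lev (lw t (e j) (e (j + 1))) i' = lev (lw t (e j) (e (j + 1))) i + lv (TD dir T) := by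
    rw [← lv_vx, ← lv_vx, he, lv_add]
  have d2 : lat (lw t (e j) (e (j + 1))) i' = lat (lw t (e j) (e (j + 1))) i + (TD dir T).1 := by
    rw [← fst_vx, ← fst_vx, he]
    rfl
  rw [d1] at c3
  rw [d2] at c4
  refine hD (e j + 1 + i') (e j + 1 + i) (by omega) (by omega) (if dir = true then -σ else σ)
    (by rcases hσ with rfl | rfl <;> cases dir <;> norm_num) ?_
  obtain ⟨v, hv⟩ : ∃ v, v = vx oo up t (e j + 1 + i) := ⟨_, rfl⟩
  obtain ⟨v', hv'⟩ : ∃ v', v' = vx oo up t (e j + 1 + i') := ⟨_, rfl⟩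
  obtain ⟨P, hP⟩ : ∃ P, P = lp dir t (e j + 1) := ⟨_, rfl⟩
  obtain ⟨Q, hQ⟩ : ∃ Q, Q = lq dir t (e j + 1) := ⟨_, rfl⟩
  rw [← hP] at c1 c3
  rw [← hQ] at c2 c4
  have e1 : lp dir t (e j + 1 + i) = ip v (hd dir) := by rw [hv]; rfl
  have e2 : lq dir t (e j + 1 + i) = cross (hd dir) v := by rw [hv]; rfl
  have e3 : lp dir t (e j + 1 + i') = ip v' (hd dir) := by rw [hv']; rfl
  have e4 : lq dir t (e j + 1 + i') = cross (hd dir) v' := by rw [hv']; rfl
  rw [e1] at c1
  rw [e2] at c2
  rw [e3] at c3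
  rw [e4] at c4
  rw [← hv, ← hv']
  have f1 : ip v' (hd dir) = ip v (hd dir) + σ * lv (TD dir T) := by
    rw [c1, c3]
    ring
  have f2 : cross (hd dir) v' = cross (hd dir) v - σ * (TD dir T).1 := by
    rw [c2, c4]
    ring
  have g1 : v'.1 = v.1 + (if dir = true then -σ else σ) * T.1 ∧
      v'.2 = v.2 + (if dir = true then -σ else σ) * T.2 := by
    cases dir with
    | false =>
      simp only [hd, TD, lv, Bool.false_eq_true, if_false] at f1 f2
      unfold cross at f2
      unfold ip at f1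
      simp only [up] at f1 f2
      rw [if_neg (by decide)]
      constructor <;> rcases hσ with rfl | rfl <;> omega
    | true =>
      simp only [hd, TD, lv, if_true] at f1 f2
      unfold cross at f2
      unfold ip at f1
      dsimp only at f1 f2
      rw [if_pos rfl]
      constructor <;> rcases hσ with rfl | rfl <;> omega
  exact Prod.ext g1.1 g1.2

/-- the height of the translation in the frame of the leaves -/
def rh (a b : ℕ) (dir : Bool) : ℕ := if dir then (2 * a + b) / 3 else (a + 2 * b) / 3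

lemma rh_bd {a b : ℕ} (h3 : 3 ∣ a + 2 * b) (dir : Bool) : a + b ≤ 3 * rh a b dir ∧ rh a b dir ≤ a + b := by
  unfold rh
  cases dir
  · simp only [Bool.false_eq_true, if_false]
    omega
  · simp only [if_true]
    omega

/-- **the leaves have no pattern** -/
lemma leaf_NoPc {dir : Bool} {c m u a b : ℕ} {t : List Bool} {e : ℕ → ℕ} (ht : t ∈ SA) (hc : 1 ≤ c)
    (h : Lf dir c t m u e) {j : ℕ} (h1 : 1 ≤ j) (h2 : j + 2 ≤ m) (h3 : 3 ∣ a + 2 * b) (hab : 3 ≤ a + b)
    (hD : DsT ((a : ℤ), (b : ℤ)) t) : lw t (e j) (e (j + 1)) ∈ NoPc (rh a b dir) := by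
  have h4 := leaf_DG ht hc h h1 h2 hD
  have h5 := rh_bd h3 dir
  refine DG_sub (by omega) ?_ ?_ h4
  · cases dir
    · simp only [TD, rh, lv, Bool.false_eq_true, if_false]
      push_cast
      omega
    · simp only [TD, rh, lv, if_true]
      push_cast
      omega
  · cases dir
    · simp only [TD, rh, Bool.false_eq_true, if_false]
      rw [abs_of_nonneg (by positivity)]
      omega
    · simp only [TD, rh, if_true]
      rw [abs_neg, abs_of_nonneg (by positivity)]
      omega

/-- **the geometry**: a run of leaves of the class, or a tall leaf -/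
theorem geo_gen {s kc K V : ℕ} {t : List Bool} {S : Bool → Set (List Bool)} (hK : kc + 6 ≤ K)
    (hM : 2 ^ (s + 11) * (V + 1) ≤ 2 ^ (K - kc)) (htW : t ∈ WL K) (hnW : t ∉ WL (K - 1))
    (hS : ∀ (dir : Bool) (m u : ℕ) (e : ℕ → ℕ), Lf dir (kc + 5) t m u e → ∀ j, 1 ≤ j → j + 2 ≤ m →
      lw t (e j) (e (j + 1)) ∈ S dir) :
    (∃ dir : Bool, t ∈ ERL dir kc K (RunB kc s (S dir) V)) ∨
    ∃ (dir : Bool) (m u : ℕ) (e : ℕ → ℕ), Lf dir (kc + 5) t m u e ∧ ∃ j, j < m ∧
      3 * ((V : ℤ) * 2 ^ (kc + s)) ≤ |lp dir t (e (j + 1)) - lp dir t (e j)| := by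
  have hex : ∃ i, i ≤ t.length ∧ ∃ dir, ¬ |row dir (vx oo up t i)| ≤ 2 ^ (K - 1) := by
    by_contra hcon
    push Not at hcon
    exact hnW ⟨htW.1, fun i hi dir => hcon i hi dir⟩
  obtain ⟨y, hy, dir, hr⟩ := hex
  have hdis : 3 * (2 : ℤ) ^ (K - 1) ≤ |lp dir t y - lp dir t 0| := by
    have h0 : lp dir t 0 = 0 := by
      show ip oo (hd dir) = 0
      cases dir <;> decide
    rw [h0, sub_zero]
    have h1 : row dir (vx oo up t y) = lp dir t y / 3 := rfl
    rw [h1, not_le, lt_abs] at hr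
    obtain ⟨p, hp⟩ : ∃ p : ℤ, p = 2 ^ (K - 1) := ⟨_, rfl⟩
    rw [← hp] at hr ⊢
    rw [le_abs]
    rcases hr with hr | hr
    · left; omega
    · right; omega
  have hbig : 96 * ((V + 1 : ℤ) * 2 ^ (kc + s + 5)) ≤ |lp dir t y - lp dir t 0| := by
    refine le_trans ?_ hdis
    have h1 : (2 : ℤ) ^ (s + 11) * (V + 1) ≤ 2 ^ (K - kc) := by exact_mod_cast hM
    have h2 : (2 : ℤ) * 2 ^ (K - 1) = 2 ^ (K - kc) * 2 ^ kc := by
      rw [← pow_succ', ← pow_add, show K - 1 + 1 = K - kc + kc by omega]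
    have h3 : (0 : ℤ) ≤ 2 ^ kc := by positivity
    have h4 := mul_le_mul_of_nonneg_right h1 h3
    have h5 : (2 : ℤ) ^ (s + 11) * (V + 1) * 2 ^ kc = 64 * ((V + 1) * 2 ^ (kc + s + 5)) := by
      rw [show s + 11 = s + 5 + 6 by omega, pow_add _ (s + 5), show kc + s + 5 = kc + (s + 5) by omega, pow_add _ kc]
      ring
    rw [h5, ← h2] at h4
    linarith
  rcases geo_run (S := S dir) htW (Nat.zero_le y) hy hbig
    (fun m u e hF j h1 h2 _ _ => hS dir m u e hF j h1 h2) with h | ⟨m, u, e, hF, h⟩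
  · exact Or.inl ⟨dir, h⟩
  · exact Or.inr ⟨dir, m, u, e, hF, h⟩

end DirT

end HexObs
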