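import Pool.Agent.PLN.Rst

/-!
# PLAX: the masses of the long words (helper62)

* `tail_mass`: self-avoiding words of the plane with a given end that reach the scale L;
* `wrap_mass`: words disjoint from their translates with a far end.
-/

set_option autoImplicit false

namespace HexObs

namespace PLN

open Finset TS SDN NTW NTA TPC

open scoped ENNReal

lemma row_add (v : Pt) (n : ℤ) : row false (v + (n, n)) = row false v + n := by
  unfold row lvl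
  have e : ip (v + (n, n)) (hd false) = ip v (hd false) + n * 3 := by
    simp only [ip, hd, up, Bool.false_eq_true, if_false, Prod.fst_add, Prod.snd_add]
    ring
  rw [e]
  exact Int.add_mul_ediv_right _ _ (by norm_num)

lemma row_diag (n : ℤ) : row false ((n, n) : Pt) = n := by
  have h := row_add oo n
  have e : (oo : Pt) + (n, n) = (n, n) := by
    have e0 : (oo : Pt) = (0, 0) := rfl
    rw [e0]
    simp
  rw [e] at h
  rw [h]
  have : row false (oo : Pt) = 0 := by decide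
  rw [this, zero_add]

/-- a word that reaches the scale L is of a scale at least L -/
lemma far_scale {s : List Bool} (hs : s ∈ SA) {L : ℕ} (hL : 1 ≤ L) {i : ℕ} (hi : i ≤ s.length) {dir : Bool}
    (h : (2 : ℤ) ^ L ≤ |row dir (vx oo up s i)|) :
    ∃ j : ℕ, s ∈ EndK (L + j) (vx oo up s s.length) ∧ |row false (vx oo up s s.length)| ≤ 2 ^ (L + j) := by
  classical
  have hex := BAR.WL_ex hs
  obtain ⟨K, hK⟩ : ∃ K, K = Nat.find hex := ⟨_, rfl⟩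
  have hK1 : s ∈ WL K := by
    rw [hK]
    exact Nat.find_spec hex
  have hK2 : ∀ j, j < K → s ∉ WL j := by
    intro j hj
    rw [hK] at hj
    exact Nat.find_min hex hj
  have h1 := hK1.2 i hi dir
  have h2 : (2 : ℤ) ^ L ≤ 2 ^ K := h.trans h1
  have h3 : L ≤ K := (pow_le_pow_iff_right₀ (by norm_num : (1 : ℤ) < 2)).1 h2
  refine ⟨K - L, ⟨?_, ?_, rfl⟩, ?_⟩
  · rw [show L + (K - L) = K by omega]
    exact hK1
  · rw [show L + (K - L) - 1 = K - 1 by omega]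
    exact hK2 _ (by omega)
  · rw [show L + (K - L) = K by omega]
    exact hK1.2 _ le_rfl _

/-- **self-avoiding words with the end y that reach the scale L** -/
theorem tail_mass : ∃ (C : ℝ) (L0 : ℕ), 0 < C ∧ ∀ (L : ℕ) (y : Pt), L0 ≤ L →
    gf {s | s ∈ SA ∧ vx oo up s s.length = y ∧ ∃ i, i ≤ s.length ∧ (2 : ℤ) ^ L ≤ |row false (vx oo up s i)|} ≤
      ENNReal.ofReal (C * (2 : ℝ) ^ (-(5 / 24) * (L : ℝ))) := by
  obtain ⟨A, K1, hA, h⟩ := TPF.endK_C TPF.ur xUp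
  have hr : (2 : ℝ) ^ (-(5 / 24) : ℝ) < 1 := Real.rpow_lt_one_of_one_lt_of_neg (by norm_num) (by norm_num)
  have h9 : 0 < (1 - (2 : ℝ) ^ (-(5 / 24) : ℝ))⁻¹ := inv_pos.2 (by linarith)
  refine ⟨A * (1 - (2 : ℝ) ^ (-(5 / 24) : ℝ))⁻¹, max K1 1, by positivity, fun L y hL => ?_⟩
  have hsub : {s | s ∈ SA ∧ vx oo up s s.length = y ∧ ∃ i, i ≤ s.length ∧ (2 : ℤ) ^ L ≤ |row false (vx oo up s i)|} ⊆
      ⋃ j : ℕ, EndK (L + j) y := by
    rintro s ⟨hs, he, i, hi, hr⟩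
    obtain ⟨j, hj, -⟩ := far_scale hs (by omega) hi hr
    rw [he] at hj
    exact Set.mem_iUnion.2 ⟨j, hj⟩
  have h6 : ∀ j : ℕ, gf (EndK (L + j) y) ≤
      ENNReal.ofReal (A * (2 : ℝ) ^ (-(5 / 24) * (L : ℝ)) * ((2 : ℝ) ^ (-(5 / 24) : ℝ)) ^ j) := by
    intro j
    refine (h (L + j) y (by omega)).trans (ENNReal.ofReal_le_ofReal (le_of_eq ?_))
    rw [mul_assoc, ← Real.rpow_natCast ((2 : ℝ) ^ (-(5 / 24) : ℝ)) j, ← Real.rpow_mul (by norm_num),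
      ← Real.rpow_add (by norm_num)]
    push_cast
    congr 2
    ring
  calc gf _ ≤ gf (⋃ j : ℕ, EndK (L + j) y) := gf_mono hsub
    _ ≤ ∑' j : ℕ, gf (EndK (L + j) y) := gf_iUnion_le _
    _ ≤ ∑' j : ℕ, ENNReal.ofReal (A * (2 : ℝ) ^ (-(5 / 24) * (L : ℝ)) * ((2 : ℝ) ^ (-(5 / 24) : ℝ)) ^ j) :=
        ENNReal.tsum_le_tsum h6
    _ = ENNReal.ofReal (∑' j : ℕ, A * (2 : ℝ) ^ (-(5 / 24) * (L : ℝ)) * ((2 : ℝ) ^ (-(5 / 24) : ℝ)) ^ j) := by
        rw [ENNReal.ofReal_tsum_of_nonneg (fun j => by positivity)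
          ((summable_geometric_of_lt_one (by positivity) hr).mul_left _)]
    _ = _ := by
        rw [tsum_mul_left, tsum_geometric_of_lt_one (by positivity) hr]
        congr 1
        ring

/-- one scale, words disjoint from their translates -/
theorem sd_scale : ∃ (A C c : ℝ) (k0 : ℕ), 0 < A ∧ 1 ≤ C ∧ 0 < c ∧ ∀ (k i : ℕ) (y : Pt), k0 ≤ k →
    gf {t | t ∈ EndK (Nat.log 2 k + i) y ∧ Dsj k t} ≤
      ENNReal.ofReal (A * C ^ i * (2 : ℝ) ^ (-(c * 2 ^ i)) * (2 : ℝ) ^ (-(5 / 24) * (Nat.log 2 k : ℝ))) := by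
  obtain ⟨C, c, k0, hC, hc, h⟩ := sd_of_UR TPF.ur
  obtain ⟨C1, hC1, hX⟩ := xUp
  obtain ⟨A2, hA2, hUb⟩ := TPF.Ub_up
  refine ⟨C * A2 * C1, C, c, k0, by positivity, hC, hc, fun k i y hk => ?_⟩
  obtain ⟨L, hL⟩ : ∃ L, L = Nat.log 2 k := ⟨_, rfl⟩
  have h1 := h k i y hk
  rw [← hL] at h1 ⊢
  obtain ⟨K, hK⟩ : ∃ K, K = L + i := ⟨_, rfl⟩
  rw [← hK] at h1 ⊢
  have hUK := Ub_pos K
  have hC0 : 0 < C := by linarith
  refine h1.trans ((mul_le_mul' le_rfl (hX K)).trans ?_)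
  rw [← ENNReal.ofReal_mul (by positivity)]
  apply ENNReal.ofReal_le_ofReal
  have e4 : (4 : ℝ) ^ K = (2 : ℝ) ^ (2 * (K : ℝ)) := by
    rw [Real.rpow_mul (by norm_num), Real.rpow_natCast]
    norm_num
  have hKL : (L : ℝ) ≤ K := by
    rw [hK]
    push_cast
    have : (0 : ℝ) ≤ i := Nat.cast_nonneg i
    linarith
  calc C ^ (i + 1) * (2 : ℝ) ^ (-(c * 2 ^ i)) * (Ub K / 4 ^ K) * (C1 * (2 : ℝ) ^ (25 / 24 * (K : ℝ)))
      ≤ C ^ (i + 1) * (2 : ℝ) ^ (-(c * 2 ^ i)) * (A2 * (2 : ℝ) ^ (3 / 4 * (K : ℝ)) / 4 ^ K) *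
          (C1 * (2 : ℝ) ^ (25 / 24 * (K : ℝ))) := by
        have := hUb K
        gcongr
    _ = C * A2 * C1 * C ^ i * (2 : ℝ) ^ (-(c * 2 ^ i)) *
          ((2 : ℝ) ^ (3 / 4 * (K : ℝ)) * (2 : ℝ) ^ (25 / 24 * (K : ℝ)) * (2 : ℝ) ^ (-(2 * (K : ℝ)))) := by
        rw [e4, Real.rpow_neg (by norm_num : (0 : ℝ) ≤ 2) (2 * (K : ℝ)), pow_succ]
        field_simp
    _ = C * A2 * C1 * C ^ i * (2 : ℝ) ^ (-(c * 2 ^ i)) * (2 : ℝ) ^ (-(5 / 24) * (K : ℝ)) := by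
        rw [← Real.rpow_add (by norm_num), ← Real.rpow_add (by norm_num)]
        congr 2
        ring
    _ ≤ _ := by
        have h5 : (2 : ℝ) ^ (-(5 / 24) * (K : ℝ)) ≤ (2 : ℝ) ^ (-(5 / 24) * (L : ℝ)) :=
          Real.rpow_le_rpow_of_exponent_le (by norm_num) (by nlinarith)
        gcongr

/-- the sum over the windings at one scale -/
lemma tsum_z (i : ℕ) (f : ℤ → ℝ≥0∞) (b : ℝ≥0∞) (hf : ∀ z, f z ≤ b) (h0 : ∀ z, ¬|z| ≤ 2 ^ i → f z = 0) :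
    ∑' z : ℤ, f z ≤ 2 ^ (i + 2) * b := by
  classical
  have h1 : ∑' z : ℤ, f z = ∑ z ∈ Finset.Icc (-(2 : ℤ) ^ i) (2 ^ i), f z := by
    refine tsum_eq_sum fun z hz => h0 z fun h => hz ?_
    rw [abs_le] at h
    exact Finset.mem_Icc.2 h
  rw [h1]
  refine (Finset.sum_le_card_nsmul _ _ b fun z _ => hf z).trans ?_
  rw [nsmul_eq_mul]
  refine mul_le_mul' ?_ le_rfl
  have h2 : (Finset.Icc (-(2 : ℤ) ^ i) (2 ^ i)).card ≤ 2 ^ (i + 2) := by
    rw [Int.card_Icc]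
    have h3 : (1 : ℤ) ≤ 2 ^ i := one_le_pow₀ (by norm_num)
    have h4 : ((2 : ℤ) ^ i + 1 - -(2 : ℤ) ^ i) ≤ ((2 ^ (i + 2) : ℕ) : ℤ) := by
      push_cast
      rw [pow_add]
      linarith
    exact Int.toNat_le.2 h4
  exact_mod_cast h2

/-- **words disjoint from their translates with an end that winds around the cylinder** -/
theorem wrap_mass : ∃ (C : ℝ) (k0 : ℕ), 0 < C ∧ ∀ (k r : ℕ) (σ : ℤ), k0 ≤ k → 1 ≤ r → r ≤ k → (σ = 1 ∨ σ = -1) →
    gf (⋃ z : ℤ, {s | z ≠ 0 ∧ s ∈ SA ∧ Dsj k s ∧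
      vx oo up s s.length = (σ * (r + 2 * k * z), σ * (r + 2 * k * z))}) ≤
      ENNReal.ofReal (C * (2 : ℝ) ^ (-(5 / 24) * (Nat.log 2 k : ℝ))) := by
  obtain ⟨A, C, c, k0, hA, hC, hc, hS⟩ := sd_scale
  obtain ⟨S, hS0, hSS⟩ := ser_fin (B := 2 * C) (by positivity) hc
  refine ⟨4 * A * S, max k0 2, by positivity, fun k r σ hk hr1 hrk hσ => ?_⟩
  have hk0 : k0 ≤ k := (le_max_left _ _).trans hk
  have hk2 : 2 ≤ k := (le_max_right _ _).trans hk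
  obtain ⟨L, hL⟩ : ∃ L, L = Nat.log 2 k := ⟨_, rfl⟩
  have hL1 : 2 ^ L ≤ k := by
    rw [hL]
    exact Nat.pow_log_le_self 2 (by omega)
  have hL2 : 1 ≤ L := by
    rw [hL]
    exact (Nat.le_log_iff_pow_le (by norm_num) (by omega)).2 (by omega)
  have hL3 : k < 2 ^ (L + 1) := by
    rw [hL]
    exact Nat.lt_pow_succ_log_self (by norm_num) k
  obtain ⟨y, hy⟩ : ∃ y : ℤ → Pt, y = fun z => (σ * (r + 2 * k * z), σ * (r + 2 * k * z)) := ⟨_, rfl⟩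
  obtain ⟨F, hF⟩ : ∃ F : ℤ → ℕ → Set (List Bool), F = fun z i =>
      {t | (t ∈ EndK (L + i) (y z) ∧ Dsj k t) ∧ |z| ≤ 2 ^ i} := ⟨_, rfl⟩
  have hsub : (⋃ z : ℤ, {s | z ≠ 0 ∧ s ∈ SA ∧ Dsj k s ∧
      vx oo up s s.length = (σ * (r + 2 * k * z), σ * (r + 2 * k * z))}) ⊆ ⋃ z : ℤ, ⋃ i : ℕ, F z i := by
    intro s hs
    rw [Set.mem_iUnion] at hs
    obtain ⟨z, hz, h1, h2, h3⟩ := hs
    have hz1 : 1 ≤ |z| := Int.one_le_abs hz
    have h4 : row false (vx oo up s s.length) = σ * (r + 2 * k * z) := by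
      rw [h3]
      exact row_diag _
    have h5 : |row false (vx oo up s s.length)| = |(r : ℤ) + 2 * k * z| := by
      rw [h4, abs_mul]
      rcases hσ with rfl | rfl <;> simp
    have h6 : |2 * (k : ℤ) * z| ≤ |(r : ℤ) + 2 * k * z| + r := by
      have h7 := abs_sub ((r : ℤ) + 2 * k * z) (r : ℤ)
      rw [add_sub_cancel_left, Nat.abs_cast] at h7
      exact h7
    have h7 : |2 * (k : ℤ) * z| = 2 * k * |z| := by
      rw [abs_mul, abs_of_nonneg (by positivity : (0 : ℤ) ≤ 2 * k)]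
    have hrk' : (r : ℤ) ≤ k := by exact_mod_cast hrk
    have hL1' : ((2 : ℤ)) ^ L ≤ k := by exact_mod_cast hL1
    have hL3' : (k : ℤ) < 2 ^ (L + 1) := by exact_mod_cast hL3
    have hkp : (0 : ℤ) < k := by omega
    have h8 : (2 : ℤ) ^ L ≤ |row false (vx oo up s s.length)| := by
      rw [h5]
      nlinarith
    obtain ⟨j, hj1, hj2⟩ := far_scale h1 hL2 le_rfl h8
    refine Set.mem_iUnion.2 ⟨z, Set.mem_iUnion.2 ⟨j, ?_⟩⟩
    rw [hF]
    refine ⟨⟨?_, h2⟩, ?_⟩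
    · rw [hy]
      rw [h3] at hj1
      exact hj1
    · rw [h5] at hj2
      by_contra hcon
      push Not at hcon
      have h9 : (2 : ℤ) ^ j + 1 ≤ |z| := hcon
      have h10 : (2 : ℤ) ^ (L + j) = 2 ^ L * 2 ^ j := pow_add _ _ _
      have h11 : (0 : ℤ) < 2 ^ j := by positivity
      have h12 : (2 : ℤ) ^ L * 2 ^ j ≤ k * 2 ^ j := mul_le_mul_of_nonneg_right hL1' h11.le
      have h13 : (k : ℤ) * (2 ^ j + 1) ≤ k * |z| := mul_le_mul_of_nonneg_left h9 hkp.le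
      nlinarith
  have h1 : ∀ i : ℕ, ∑' z : ℤ, gf (F z i) ≤ ENNReal.ofReal ((2 * C) ^ i * (2 : ℝ) ^ (-(c * 2 ^ i))) *
      ENNReal.ofReal (4 * A * (2 : ℝ) ^ (-(5 / 24) * (L : ℝ))) := by
    intro i
    have h2 := tsum_z i (fun z => gf (F z i)) (ENNReal.ofReal (A * C ^ i * (2 : ℝ) ^ (-(c * 2 ^ i)) *
      (2 : ℝ) ^ (-(5 / 24) * (L : ℝ)))) (fun z => by
        refine (gf_mono fun t ht => ?_).trans (by
          have := hS k i (y z) hk0
          rw [← hL] at this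
          exact this)
        rw [hF] at ht
        exact ht.1) (fun z hz => by
        have h3 : F z i = ∅ := by
          rw [hF]
          exact Set.eq_empty_iff_forall_notMem.2 fun t ht => hz ht.2
        show gf (F z i) = 0
        rw [h3]
        unfold gf
        simp)
    refine h2.trans (le_of_eq ?_)
    have e2 : (2 : ℝ≥0∞) ^ (i + 2) = ENNReal.ofReal (2 ^ (i + 2)) := by
      rw [ENNReal.ofReal_pow (by norm_num)]
      norm_num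
    rw [e2, ← ENNReal.ofReal_mul (by positivity), ← ENNReal.ofReal_mul (by positivity)]
    congr 1
    rw [mul_pow, pow_add]
    ring
  calc gf _ ≤ gf (⋃ z : ℤ, ⋃ i : ℕ, F z i) := gf_mono hsub
    _ ≤ ∑' z : ℤ, gf (⋃ i : ℕ, F z i) := gf_iUnion_le _
    _ ≤ ∑' (z : ℤ) (i : ℕ), gf (F z i) := ENNReal.tsum_le_tsum fun z => gf_iUnion_le _
    _ = ∑' (i : ℕ) (z : ℤ), gf (F z i) := by rw [ENNReal.tsum_comm]
    _ ≤ ∑' i : ℕ, ENNReal.ofReal ((2 * C) ^ i * (2 : ℝ) ^ (-(c * 2 ^ i))) *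
        ENNReal.ofReal (4 * A * (2 : ℝ) ^ (-(5 / 24) * (L : ℝ))) := ENNReal.tsum_le_tsum h1
    _ = (∑' i : ℕ, ENNReal.ofReal ((2 * C) ^ i * (2 : ℝ) ^ (-(c * 2 ^ i)))) *
        ENNReal.ofReal (4 * A * (2 : ℝ) ^ (-(5 / 24) * (L : ℝ))) := ENNReal.tsum_mul_right
    _ ≤ ENNReal.ofReal S * ENNReal.ofReal (4 * A * (2 : ℝ) ^ (-(5 / 24) * (L : ℝ))) := mul_le_mul' hSS le_rfl
    _ = _ := by
        rw [← ENNReal.ofReal_mul hS0.le, hL]
        congr 1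
        ring

end PLN

end HexObs
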