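import Pool.Agent.PLN.DirG
import Pool.Agent.PLN.Tail
import Pool.Agent.TPC.SDZ

/-!
# PLN, every direction: words of one scale which do not meet their translates (helper62)
-/

set_option autoImplicit false

namespace HexObs

namespace DirT

open Finset TS SDN NTW NTA SIM JNT TPC

open scoped ENNReal

/-- **the words of one scale without leaves with the pattern** -/
theorem sd_gen (hU : UR) (hE : EventRL labE DmJ) (hR : RunRL) : ∃ (C c : ℝ) (k0 : ℕ), 1 ≤ C ∧ 0 < c ∧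
    ∀ (k i : ℕ) (y : Pt) (ρ : Bool → ℕ) (D : Set (List Bool)), k0 ≤ k → (∀ dir, k ≤ 3 * ρ dir ∧ ρ dir ≤ k) →
    (∀ t ∈ D, t ∈ SA → ∀ (dir : Bool) (c m u : ℕ) (e : ℕ → ℕ), 1 ≤ c → Lf dir c t m u e → ∀ j, 1 ≤ j → j + 2 ≤ m →
      lw t (e j) (e (j + 1)) ∈ NoPc (ρ dir)) →
    gf {t | t ∈ EndK (Nat.log 2 k + i) y ∧ t ∈ D} ≤
      ENNReal.ofReal (C ^ (i + 1) * (2 : ℝ) ^ (-(c * 2 ^ i)) * (Ub (Nat.log 2 k + i) / 4 ^ (Nat.log 2 k + i))) *
        Xb (Nat.log 2 k + i) ^ 2 := by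
  classical
  obtain ⟨CU, K0, hCU, hUR⟩ := hU
  obtain ⟨s1, J0, V0, k1, e0, C1, he0, hC1, hRB, hRT⟩ := hR
  obtain ⟨s2, k2, CT, hCT, htall⟩ := tall_L labR_E hE (w := fun k => 4 ^ k) (fun k => by positivity) hC1 hRT
  obtain ⟨CR, k3, hCR, hrun⟩ := runLn_of labR_E hE
  obtain ⟨M, hM0⟩ : ∃ M, M = 2 ^ (s1 + s2 + 11) := ⟨_, rfl⟩
  have hM : 1 ≤ M := by
    rw [hM0]
    exact Nat.one_le_two_pow
  obtain ⟨Cf, kf, hf⟩ := pc_norm e0 J0 he0
  obtain ⟨c0, hc0⟩ : ∃ c0 : ℕ, 4 * (Cf + 1) < 2 ^ c0 := ⟨4 * (Cf + 1), Nat.lt_two_pow_self⟩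
  obtain ⟨n0, hn0⟩ : ∃ n0 : ℕ, M * (V0 + 3) < 2 ^ n0 := ⟨M * (V0 + 3), Nat.lt_two_pow_self⟩
  obtain ⟨i0, hi0⟩ : ∃ i0, i0 = c0 + 6 + n0 := ⟨_, rfl⟩
  have hMr : (1 : ℝ) ≤ M := by exact_mod_cast hM
  obtain ⟨c, hc⟩ : ∃ c : ℝ, c = 1 / (M * 2 ^ c0) := ⟨_, rfl⟩
  have hcp : 0 < c := by
    rw [hc]
    positivity
  obtain ⟨C2, hC2⟩ : ∃ C2 : ℝ, C2 = 4 * (2 * CR * C1 + CT) := ⟨_, rfl⟩
  have hC20 : 4 ≤ C2 := by
    rw [hC2]
    nlinarith
  obtain ⟨C, hC⟩ : ∃ C : ℝ, C = C2 + CU * (2 : ℝ) ^ (c * 2 ^ i0) := ⟨_, rfl⟩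
  have hp0 : 0 < CU * (2 : ℝ) ^ (c * 2 ^ i0) := by positivity
  have hC4 : 4 ≤ C := by linarith
  refine ⟨C, c, 2 ^ (K0 + k1 + k2 + k3 + kf + 3), by linarith, hcp, fun k i y ρ D hk hρk hDl => ?_⟩
  obtain ⟨L, hL⟩ : ∃ L, L = Nat.log 2 k := ⟨_, rfl⟩
  have hk0 : k ≠ 0 := by
    have : 0 < 2 ^ (K0 + k1 + k2 + k3 + kf + 3) := by positivity
    omega
  have hLk : K0 + k1 + k2 + k3 + kf + 3 ≤ L := by
    rw [hL]
    exact (Nat.le_log_iff_pow_le (by norm_num) hk0).2 hk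
  have hkL : k < 2 ^ (L + 1) := by
    rw [hL]
    exact Nat.lt_pow_succ_log_self (by norm_num) k
  have hLk2 : 2 ^ L ≤ k := by
    rw [hL]
    exact Nat.pow_log_le_self 2 hk0
  have hLL : L < 2 ^ L := Nat.lt_two_pow_self
  rw [← hL]
  have hUK := Ub_pos (L + i)
  rcases Nat.lt_or_ge i i0 with hi | hi
  · -- small i
    refine ((gf_mono fun t ht => ht.1).trans (hUR (L + i) y (by omega))).trans ?_
    refine mul_le_mul_left (ENNReal.ofReal_le_ofReal ?_) _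
    refine mul_le_mul_of_nonneg_right ?_ (by positivity)
    have e1 : C ≤ C ^ (i + 1) := by
      calc C = C ^ 1 := (pow_one C).symm
        _ ≤ _ := pow_le_pow_right₀ (by linarith) (by omega)
    have e2 : (2 : ℝ) ^ (c * 2 ^ i) ≤ (2 : ℝ) ^ (c * 2 ^ i0) := by
      apply Real.rpow_le_rpow_of_exponent_le (by norm_num)
      exact mul_le_mul_of_nonneg_left (pow_le_pow_right₀ (by norm_num) hi.le) hcp.le
    have e3 : CU * (2 : ℝ) ^ (c * 2 ^ i) ≤ C ^ (i + 1) := by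
      calc CU * (2 : ℝ) ^ (c * 2 ^ i) ≤ CU * (2 : ℝ) ^ (c * 2 ^ i0) := mul_le_mul_of_nonneg_left e2 hCU.le
        _ ≤ C := by rw [hC]; linarith
        _ ≤ _ := e1
    rw [Real.rpow_neg (by norm_num), ← div_eq_mul_inv, le_div_iff₀ (by positivity)]
    exact e3
  · -- large i
    obtain ⟨J, hJ⟩ : ∃ J, J = i - c0 := ⟨_, rfl⟩
    obtain ⟨kc, hkc⟩ : ∃ kc, kc = L + c0 := ⟨_, rfl⟩
    have hKJ : L + i = kc + J := by omega
    obtain ⟨V, hV⟩ : ∃ V, V = 2 ^ J / M - 1 := ⟨_, rfl⟩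
    have hJ6 : 6 ≤ J := by omega
    have hJn : 2 ^ n0 ≤ 2 ^ J := Nat.pow_le_pow_right (by norm_num) (by omega)
    have hdiv : V0 + 3 ≤ 2 ^ J / M := (Nat.le_div_iff_mul_le (by omega)).2 (by
      rw [mul_comm]
      exact hn0.le.trans hJn)
    have hV1 : M * (V + 1) ≤ 2 ^ J := by
      rw [hV, show 2 ^ J / M - 1 + 1 = 2 ^ J / M by omega]
      exact Nat.mul_div_le _ M
    have hVr : (2 : ℝ) ^ J / M ≤ V + 2 := by
      have h1 : 2 ^ J < M * (2 ^ J / M + 1) := Nat.lt_mul_div_succ _ (by omega)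
      rw [show 2 ^ J / M + 1 = V + 2 by omega] at h1
      have h3 : (2 : ℝ) ^ J < M * (V + 2) := by exact_mod_cast h1
      rw [div_le_iff₀ (by linarith)]
      linarith
    have hρ : ∀ dir, Cf * ρ dir ≤ 2 ^ kc ∧ kf ≤ ρ dir := by
      intro dir
      obtain ⟨b1, b2⟩ := hρk dir
      constructor
      · have e1 : 2 ^ kc = 2 ^ L * 2 ^ c0 := by rw [hkc, pow_add]
        have e2 : 2 ^ (L + 1) = 2 * 2 ^ L := by ring
        rw [e1]
        calc Cf * ρ dir ≤ Cf * (2 * 2 ^ L) := Nat.mul_le_mul_left _ (by omega)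
          _ = 2 ^ L * (2 * Cf) := by ring
          _ ≤ 2 ^ L * 2 ^ c0 := Nat.mul_le_mul_left _ (by omega)
      · have e1 : 2 ^ L = 4 * 2 ^ (L - 2) := by
          rw [show (4 : ℕ) = 2 ^ 2 by norm_num, ← pow_add, show 2 + (L - 2) = L by omega]
        have e2 : L - 2 < 2 ^ (L - 2) := Nat.lt_two_pow_self
        omega
    have hnm : ∀ dir : Bool, SmD DmJ kc {g | g ∈ BrR (2 ^ (kc + 4)) (2 ^ (kc + J0)) ∧ g ∈ NoPc (ρ dir)} e0 := fun dir =>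
      hf kc (ρ dir) (by omega) (hρ dir).2 (hρ dir).1
    have hU := Ub_pos (kc + J)
    have hcov : {t | t ∈ EndK (L + i) y ∧ t ∈ D} ⊆
        ({t | labE t = y ∧ t ∈ ERL false kc (kc + J) (RunB kc s1 (NoPc (ρ false)) V)} ∪
        {t | labE t = y ∧ t ∈ ERL true kc (kc + J) (RunB kc s1 (NoPc (ρ true)) V)}) ∪
        {t | labE t = y ∧ t ∈ WL (kc + J) ∧ ∃ (dir : Bool) (m u : ℕ) (e : ℕ → ℕ), Lf dir (kc + 5) t m u e ∧ ∃ j, j < m ∧
          3 * ((V : ℤ) * 2 ^ (kc + s2)) ≤ |lp dir t (e (j + 1)) - lp dir t (e j)|} := by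
      rintro t ⟨⟨h1, h2, h3⟩, h4⟩
      rw [hKJ] at h1 h2
      rcases geo_gen (s := s1 + s2) (kc := kc) (K := kc + J) (V := V) (S := fun dir => NoPc (ρ dir)) (by omega) (by
        rw [Nat.add_sub_cancel_left, ← hM0]
        exact hV1) h1 h2 (fun dir m u e hF j j1 j2 => hDl t h4 h1.1 dir (kc + 5) m u e (by omega) hF j j1 j2) with
        ⟨dir, h5⟩ | h5
      · left
        cases dir
        · exact Or.inl ⟨h3, erl_mono (RunB_mono (by omega)) h5⟩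
        · exact Or.inr ⟨h3, erl_mono (RunB_mono (by omega)) h5⟩
      · right
        obtain ⟨dir, m, u, e, h5, j, h6, h7⟩ := h5
        refine ⟨h3, h1, dir, m, u, e, h5, j, h6, le_trans ?_ h7⟩
        have e1 : (2 : ℤ) ^ (kc + s2) ≤ 2 ^ (kc + (s1 + s2)) := pow_le_pow_right₀ (by norm_num) (by omega)
        have e2 : (0 : ℤ) ≤ V := by positivity
        nlinarith
    have hr : ∀ dir : Bool, gf {t | labE t = y ∧ t ∈ ERL dir kc (kc + J) (RunB kc s1 (NoPc (ρ dir)) V)} ≤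
        ENNReal.ofReal (CR ^ J * (C1 / (4 ^ kc * 2 ^ V)) * Ub (kc + J)) * Xb (kc + J) ^ 2 := fun dir =>
      hrun dir kc J y _ _ (by omega) hJ6 (by positivity) (hRB kc _ (by omega) (hnm dir) V (by omega))
    have hT := htall kc J V y (by omega) hJ6 (by omega)
    refine (gf_mono hcov).trans ((gf_union_le _ _).trans ((add_le_add ((gf_union_le _ _).trans (add_le_add (hr false)
      (hr true))) hT).trans ?_))
    rw [← add_mul, ← add_mul, ← ENNReal.ofReal_add (by positivity) (by positivity),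
      ← ENNReal.ofReal_add (by positivity) (by positivity), hKJ]
    refine mul_le_mul_left (ENNReal.ofReal_le_ofReal ?_) _
    have hX : (2 : ℝ) ^ (-(c * 2 ^ i)) = (2 : ℝ) ^ (-((2 : ℝ) ^ J / M)) := by
      congr 2
      rw [hc, show i = c0 + J by omega, pow_add]
      field_simp
    have h2V : 1 / (2 : ℝ) ^ V ≤ 4 * (2 : ℝ) ^ (-(c * 2 ^ i)) := by
      rw [hX]
      have e1 : (4 : ℝ) * (2 : ℝ) ^ (-((2 : ℝ) ^ J / M)) = (2 : ℝ) ^ (2 - (2 : ℝ) ^ J / M) := by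
        rw [sub_eq_add_neg, Real.rpow_add two_pos]
        norm_num
      rw [e1, one_div, ← Real.rpow_natCast, ← Real.rpow_neg (by norm_num)]
      exact Real.rpow_le_rpow_of_exponent_le (by norm_num) (by linarith)
    have hCR0 : 0 < CR := by linarith
    have hC10 : 0 < C1 := by linarith
    have hCT0 : 0 < CT := by linarith
    have e3 : 2 * CR ^ J * C1 + CT ^ J ≤ (2 * CR * C1 + CT) ^ J := by
      have a1 : 2 * CR ^ J * C1 ≤ (2 * CR * C1) ^ J := by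
        rw [mul_pow, mul_pow]
        have b1 : (2 : ℝ) ≤ 2 ^ J := by
          calc (2 : ℝ) = 2 ^ 1 := by norm_num
            _ ≤ _ := pow_le_pow_right₀ (by norm_num) (by omega)
        have b2 : C1 ≤ C1 ^ J := by
          calc C1 = C1 ^ 1 := (pow_one C1).symm
            _ ≤ _ := pow_le_pow_right₀ hC1 (by omega)
        gcongr
      have a2 : (2 * CR * C1) ^ J + CT ^ J ≤ (2 * CR * C1 + CT) ^ J :=
        pow_add_pow_le (by positivity) hCT0.le (by omega)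
      linarith
    have hp2 : (0 : ℝ) < (2 : ℝ) ^ (-(c * 2 ^ i)) := by positivity
    have hmain : (2 * CR ^ J * C1 + CT ^ J) * (4 ^ J * (1 / 2 ^ V)) ≤ C ^ (i + 1) * (2 : ℝ) ^ (-(c * 2 ^ i)) := by
      calc (2 * CR ^ J * C1 + CT ^ J) * (4 ^ J * (1 / 2 ^ V))
          ≤ (2 * CR * C1 + CT) ^ J * (4 ^ J * (4 * (2 : ℝ) ^ (-(c * 2 ^ i)))) := by gcongr
        _ = 4 * C2 ^ J * (2 : ℝ) ^ (-(c * 2 ^ i)) := by
            rw [hC2, mul_pow]
            ring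
        _ ≤ C * C ^ J * (2 : ℝ) ^ (-(c * 2 ^ i)) := by
            have : C2 ≤ C := by linarith
            gcongr
        _ = C ^ (J + 1) * (2 : ℝ) ^ (-(c * 2 ^ i)) := by ring
        _ ≤ C ^ (i + 1) * (2 : ℝ) ^ (-(c * 2 ^ i)) := by
            refine mul_le_mul_of_nonneg_right (pow_le_pow_right₀ (by linarith) (by omega)) hp2.le
    have e4 : (4 : ℝ) ^ (kc + J) = 4 ^ kc * 4 ^ J := pow_add 4 kc J
    calc CR ^ J * (C1 / (4 ^ kc * 2 ^ V)) * Ub (kc + J) + CR ^ J * (C1 / (4 ^ kc * 2 ^ V)) * Ub (kc + J) +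
          CT ^ J / (4 ^ kc * 2 ^ V) * Ub (kc + J)
        = (2 * CR ^ J * C1 + CT ^ J) * (4 ^ J * (1 / 2 ^ V)) * (Ub (kc + J) / 4 ^ (kc + J)) := by
          rw [e4]
          field_simp
          ring
      _ ≤ C ^ (i + 1) * (2 : ℝ) ^ (-(c * 2 ^ i)) * (Ub (kc + J) / 4 ^ (kc + J)) :=
          mul_le_mul_of_nonneg_right hmain (by positivity)

/-- **one scale** -/
theorem sd_T : ∃ (C c : ℝ) (k0 : ℕ), 1 ≤ C ∧ 0 < c ∧ ∀ (a b i : ℕ) (y : Pt), 3 ∣ a + 2 * b → k0 ≤ a + b →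
    gf {t | t ∈ EndK (Nat.log 2 (a + b) + i) y ∧ DsT ((a : ℤ), (b : ℤ)) t} ≤
      ENNReal.ofReal (C ^ (i + 1) * (2 : ℝ) ^ (-(c * 2 ^ i)) *
        (Ub (Nat.log 2 (a + b) + i) / 4 ^ (Nat.log 2 (a + b) + i))) * Xb (Nat.log 2 (a + b) + i) ^ 2 := by
  obtain ⟨C, c, k0, hC, hc, h⟩ := sd_gen TPF.ur eventRL_E runRL
  refine ⟨C, c, max k0 3, hC, hc, fun a b i y h3 hk => ?_⟩
  refine h (a + b) i y (rh a b) {t | DsT ((a : ℤ), (b : ℤ)) t} ((le_max_left _ _).trans hk) (fun dir => rh_bd h3 dir)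
    (fun t ht hSA dir c m u e hc hF j j1 j2 => ?_)
  exact leaf_NoPc hSA hc hF j1 j2 h3 ((le_max_right _ _).trans hk) ht

end DirT

end HexObs
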