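import Pool.Agent.PLN.DirS

/-!
# PLN, every direction: the masses of the long words (helper62)

* `hn`: the hexagonal norm of a translation;
* `tail_T`: self-avoiding words of the plane with a given end that reach the scale L, in any direction;
* `wrapA`: words disjoint from their translates by the multiples of T = (a, b), a, b ≥ 0, with a far end.
-/

set_option autoImplicit false

namespace HexObs

namespace DirT

open Finset TS SDN NTW NTA TPC PLN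

open scoped ENNReal

/-! ### the norm -/

/-- the hexagonal norm -/
def hn (p : Pt) : ℕ := max p.1.natAbs (max p.2.natAbs (p.1 + p.2).natAbs)

/-- the multiples of T -/
def ml (z : ℤ) (T : Pt) : Pt := (z * T.1, z * T.2)

lemma hn_le {p : Pt} {R : ℕ} : hn p ≤ R ↔ p.1.natAbs ≤ R ∧ p.2.natAbs ≤ R ∧ (p.1 + p.2).natAbs ≤ R := by
  unfold hn
  rw [max_le_iff, max_le_iff]

lemma hn_add_le (p q : Pt) : hn (p + q) ≤ hn p + hn q := by
  obtain ⟨x, hx⟩ : ∃ x, x = hn p := ⟨_, rfl⟩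
  obtain ⟨y, hy⟩ : ∃ y, y = hn q := ⟨_, rfl⟩
  obtain ⟨h1, h2, h3⟩ := hn_le.1 hx.ge
  obtain ⟨h4, h5, h6⟩ := hn_le.1 hy.ge
  rw [← hx, ← hy, hn_le]
  simp only [Prod.fst_add, Prod.snd_add]
  refine ⟨?_, ?_, ?_⟩ <;> omega

lemma hn_neg (p : Pt) : hn (-p) = hn p := by
  obtain ⟨a, b⟩ := p
  simp only [hn, Prod.neg_mk]
  omega

lemma hn_ml (z : ℤ) (T : Pt) : hn (ml z T) = z.natAbs * hn T := by
  obtain ⟨a, b⟩ := T
  simp only [hn, ml]
  rw [← mul_add, Int.natAbs_mul, Int.natAbs_mul, Int.natAbs_mul, Nat.mul_max_mul_left, Nat.mul_max_mul_left]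

lemma hn_nat (a b : ℕ) : hn ((a : ℤ), (b : ℤ)) = a + b := by
  simp only [hn]
  omega

lemma ml_sub (w : Pt) (z z' : ℤ) (T : Pt) : (w + ml z T) + -(w + ml z' T) = ml (z - z') T := by
  obtain ⟨a, b⟩ := T
  obtain ⟨c, d⟩ := w
  simp only [ml, Prod.mk_add_mk, Prod.neg_mk, Prod.mk.injEq]
  constructor <;> ring

/-- two multiples with near ends -/
lemma ml_near {w T : Pt} {z z' : ℤ} {R : ℕ} (h : hn (w + ml z T) ≤ R) (h' : hn (w + ml z' T) ≤ R) :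
    (z - z').natAbs * hn T ≤ 2 * R := by
  rw [← hn_ml, ← ml_sub w z z' T]
  refine (hn_add_le _ _).trans ?_
  rw [hn_neg]
  omega

/-- the rows bound the norm -/
lemma hn_row {v : Pt} {R : ℤ} (h : ∀ dir, |row dir v| ≤ R) : (hn v : ℤ) ≤ 3 * R + 2 := by
  have h1 := h false
  have h2 := h true
  obtain ⟨a, b⟩ := v
  rw [abs_le] at h1 h2
  simp only [row, lvl, ip, hd, up, Bool.false_eq_true, if_false, if_true] at h1 h2
  simp only [hn]
  omega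

/-! ### the scale of a word with a far vertex -/

/-- the scale of a self-avoiding word -/
lemma scale_ex {s : List Bool} (hs : s ∈ SA) {L : ℕ} (hL : 7 ≤ L) {i : ℕ} (hi : i ≤ s.length)
    (h : 2 ^ L ≤ 16 * hn (vx oo up s i)) :
    ∃ j : ℕ, s ∈ EndK (L - 7 + j) (vx oo up s s.length) ∧ hn (vx oo up s s.length) ≤ 5 * 2 ^ (L - 7 + j) := by
  classical
  have hex := BAR.WL_ex hs
  obtain ⟨K, hK⟩ : ∃ K, K = Nat.find hex := ⟨_, rfl⟩
  have hK1 : s ∈ WL K := by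
    rw [hK]
    exact Nat.find_spec hex
  have hK2 : ∀ j, j < K → s ∉ WL j := by
    intro j hj
    rw [hK] at hj
    exact Nat.find_min hex hj
  have h1 : ∀ i', i' ≤ s.length → hn (vx oo up s i') ≤ 5 * 2 ^ K := by
    intro i' hi'
    have h2 := hn_row (hK1.2 i' hi')
    have h3 : (1 : ℤ) ≤ 2 ^ K := one_le_pow₀ (by norm_num)
    zify
    linarith
  have h2 : 2 ^ L < 2 ^ (K + 7) := by
    have h3 := h1 i hi
    have h4 : 2 ^ (K + 7) = 128 * 2 ^ K := by ring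
    have h5 : 0 < 2 ^ K := by positivity
    omega
  have h3 : L < K + 7 := (Nat.pow_lt_pow_iff_right (by norm_num)).1 h2
  refine ⟨K - (L - 7), ?_, ?_⟩
  · rw [show L - 7 + (K - (L - 7)) = K by omega]
    exact ⟨hK1, hK2 _ (by omega), rfl⟩
  · rw [show L - 7 + (K - (L - 7)) = K by omega]
    exact h1 _ le_rfl

/-- the order at one scale -/
lemma endK_all : ∃ (A : ℝ) (L0 : ℕ), 0 < A ∧ 7 ≤ L0 ∧ ∀ (L j : ℕ) (y : Pt), L0 ≤ L →
    gf (EndK (L - 7 + j) y) ≤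
      ENNReal.ofReal (A * (2 : ℝ) ^ (-(5 / 24) * (L : ℝ)) * ((2 : ℝ) ^ (-(5 / 24) : ℝ)) ^ j) := by
  obtain ⟨A, K1, hA, h⟩ := TPF.endK_C TPF.ur xUp
  refine ⟨A * (2 : ℝ) ^ (5 / 24 * 7 : ℝ), K1 + 7, by positivity, by omega, fun L j y hL => ?_⟩
  refine (h (L - 7 + j) y (by omega)).trans (ENNReal.ofReal_le_ofReal (le_of_eq ?_))
  rw [mul_assoc, mul_assoc, ← Real.rpow_natCast ((2 : ℝ) ^ (-(5 / 24) : ℝ)) j, ← Real.rpow_mul (by norm_num),
    ← Real.rpow_add (by norm_num), ← Real.rpow_add (by norm_num)]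
  push_cast [Nat.cast_sub (show 7 ≤ L by omega)]
  congr 2
  ring

/-- **self-avoiding words with the end y that reach the scale L** -/
theorem tail_T : ∃ (C : ℝ) (L0 : ℕ), 0 < C ∧ ∀ (L : ℕ) (y : Pt), L0 ≤ L →
    gf {s | s ∈ SA ∧ vx oo up s s.length = y ∧ ∃ i, i ≤ s.length ∧ 2 ^ L ≤ 16 * hn (vx oo up s i)} ≤
      ENNReal.ofReal (C * (2 : ℝ) ^ (-(5 / 24) * (L : ℝ))) := by
  obtain ⟨A, L0, hA, hL0, h⟩ := endK_all
  have hr : (2 : ℝ) ^ (-(5 / 24) : ℝ) < 1 := Real.rpow_lt_one_of_one_lt_of_neg (by norm_num) (by norm_num)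
  have h9 : 0 < (1 - (2 : ℝ) ^ (-(5 / 24) : ℝ))⁻¹ := inv_pos.2 (by linarith)
  refine ⟨A * (1 - (2 : ℝ) ^ (-(5 / 24) : ℝ))⁻¹, L0, by positivity, fun L y hL => ?_⟩
  have hsub : {s | s ∈ SA ∧ vx oo up s s.length = y ∧ ∃ i, i ≤ s.length ∧ 2 ^ L ≤ 16 * hn (vx oo up s i)} ⊆
      ⋃ j : ℕ, EndK (L - 7 + j) y := by
    rintro s ⟨hs, he, i, hi, hr⟩
    obtain ⟨j, hj, -⟩ := scale_ex hs (by omega) hi hr
    rw [he] at hj
    exact Set.mem_iUnion.2 ⟨j, hj⟩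
  calc gf _ ≤ gf (⋃ j : ℕ, EndK (L - 7 + j) y) := gf_mono hsub
    _ ≤ ∑' j : ℕ, gf (EndK (L - 7 + j) y) := gf_iUnion_le _
    _ ≤ ∑' j : ℕ, ENNReal.ofReal (A * (2 : ℝ) ^ (-(5 / 24) * (L : ℝ)) * ((2 : ℝ) ^ (-(5 / 24) : ℝ)) ^ j) :=
        ENNReal.tsum_le_tsum fun j => h L j y hL
    _ = ENNReal.ofReal (∑' j : ℕ, A * (2 : ℝ) ^ (-(5 / 24) * (L : ℝ)) * ((2 : ℝ) ^ (-(5 / 24) : ℝ)) ^ j) := by
        rw [ENNReal.ofReal_tsum_of_nonneg (fun j => by positivity)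
          ((summable_geometric_of_lt_one (by positivity) hr).mul_left _)]
    _ = _ := by
        rw [tsum_mul_left, tsum_geometric_of_lt_one (by positivity) hr]
        congr 1
        ring

/-- one scale, words disjoint from their translates -/
theorem sd_scaleT : ∃ (A C c : ℝ) (k0 : ℕ), 0 < A ∧ 1 ≤ C ∧ 0 < c ∧ ∀ (a b i : ℕ) (y : Pt), 3 ∣ a + 2 * b →
    k0 ≤ a + b → gf {t | t ∈ EndK (Nat.log 2 (a + b) + i) y ∧ DsT ((a : ℤ), (b : ℤ)) t} ≤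
      ENNReal.ofReal (A * C ^ i * (2 : ℝ) ^ (-(c * 2 ^ i)) * (2 : ℝ) ^ (-(5 / 24) * (Nat.log 2 (a + b) : ℝ))) := by
  obtain ⟨C, c, k0, hC, hc, h⟩ := sd_T
  obtain ⟨C1, hC1, hX⟩ := xUp
  obtain ⟨A2, hA2, hUb⟩ := TPF.Ub_up
  refine ⟨C * A2 * C1, C, c, k0, by positivity, hC, hc, fun a b i y h3 hk => ?_⟩
  obtain ⟨L, hL⟩ : ∃ L, L = Nat.log 2 (a + b) := ⟨_, rfl⟩
  have h1 := h a b i y h3 hk
  rw [← hL] at h1 ⊢
  obtain ⟨K, hK⟩ : ∃ K, K = L + i := ⟨_, rfl⟩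
  rw [← hK] at h1 ⊢
  have hUK := Ub_pos K
  have hC0 : 0 < C := by linarith
  refine h1.trans ((mul_le_mul' le_rfl (hX K)).trans ?_)
  rw [← ENNReal.ofReal_mul (by positivity)]
  apply ENNReal.ofReal_le_ofReal
  have e4 : (4 : ℝ) ^ K = (2 : ℝ) ^ (2 * (K : ℝ)) := by
    rw [Real.rpow_mul (by norm_num), Real.rpow_natCast]
    norm_num
  have hKL : (L : ℝ) ≤ K := by
    rw [hK]
    push_cast
    have : (0 : ℝ) ≤ i := Nat.cast_nonneg i
    linarith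
  calc C ^ (i + 1) * (2 : ℝ) ^ (-(c * 2 ^ i)) * (Ub K / 4 ^ K) * (C1 * (2 : ℝ) ^ (25 / 24 * (K : ℝ)))
      ≤ C ^ (i + 1) * (2 : ℝ) ^ (-(c * 2 ^ i)) * (A2 * (2 : ℝ) ^ (3 / 4 * (K : ℝ)) / 4 ^ K) *
          (C1 * (2 : ℝ) ^ (25 / 24 * (K : ℝ))) := by
        have := hUb K
        gcongr
    _ = C * A2 * C1 * C ^ i * (2 : ℝ) ^ (-(c * 2 ^ i)) *
          ((2 : ℝ) ^ (3 / 4 * (K : ℝ)) * (2 : ℝ) ^ (25 / 24 * (K : ℝ)) * (2 : ℝ) ^ (-(2 * (K : ℝ)))) := by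
        rw [e4, Real.rpow_neg (by norm_num : (0 : ℝ) ≤ 2) (2 * (K : ℝ)), pow_succ]
        field_simp
    _ = C * A2 * C1 * C ^ i * (2 : ℝ) ^ (-(c * 2 ^ i)) * (2 : ℝ) ^ (-(5 / 24) * (K : ℝ)) := by
        rw [← Real.rpow_add (by norm_num), ← Real.rpow_add (by norm_num)]
        congr 2
        ring
    _ ≤ _ := by
        have h5 : (2 : ℝ) ^ (-(5 / 24) * (K : ℝ)) ≤ (2 : ℝ) ^ (-(5 / 24) * (L : ℝ)) :=
          Real.rpow_le_rpow_of_exponent_le (by norm_num) (by nlinarith)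
        gcongr

/-- all the scales from L - 7 on -/
theorem sd_allT : ∃ (A C c : ℝ) (k0 : ℕ), 0 < A ∧ 1 ≤ C ∧ 0 < c ∧ 128 ≤ k0 ∧ ∀ (a b j : ℕ) (y : Pt),
    3 ∣ a + 2 * b → k0 ≤ a + b → gf {t | t ∈ EndK (Nat.log 2 (a + b) - 7 + j) y ∧ DsT ((a : ℤ), (b : ℤ)) t} ≤
      ENNReal.ofReal (A * C ^ j * (2 : ℝ) ^ (-(c * 2 ^ j)) * (2 : ℝ) ^ (-(5 / 24) * (Nat.log 2 (a + b) : ℝ))) := by
  obtain ⟨A1, L0, hA1, hL0, h1⟩ := endK_all
  obtain ⟨A2, C, c, k0, hA2, hC, hc, h2⟩ := sd_scaleT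
  have hC0 : 0 < C := by linarith
  refine ⟨A1 * (2 : ℝ) ^ c + A2, C, c / 128, max k0 (2 ^ L0), by positivity, hC, by positivity, ?_,
    fun a b j y h3 hk => ?_⟩
  · refine le_trans ?_ (le_max_right _ _)
    calc 128 = 2 ^ 7 := by norm_num
      _ ≤ 2 ^ L0 := Nat.pow_le_pow_right (by norm_num) hL0
  have hk0 : k0 ≤ a + b := (le_max_left _ _).trans hk
  have hk1 : 2 ^ L0 ≤ a + b := (le_max_right _ _).trans hk
  obtain ⟨L, hL⟩ : ∃ L, L = Nat.log 2 (a + b) := ⟨_, rfl⟩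
  have hab : a + b ≠ 0 := by
    have : 0 < 2 ^ L0 := by positivity
    omega
  have hLL : L0 ≤ L := by
    rw [hL]
    exact (Nat.le_log_iff_pow_le (by norm_num) hab).2 hk1
  rw [← hL]
  have hCj : 1 ≤ C ^ j := one_le_pow₀ hC
  rcases Nat.lt_or_ge j 7 with hj | hj
  · refine ((gf_mono fun t ht => ht.1).trans (h1 L j y hLL)).trans (ENNReal.ofReal_le_ofReal ?_)
    have e1 : ((2 : ℝ) ^ (-(5 / 24) : ℝ)) ^ j ≤ 1 :=
      pow_le_one₀ (by positivity) (Real.rpow_le_one_of_one_le_of_nonpos (by norm_num) (by norm_num))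
    have e2 : (1 : ℝ) ≤ (2 : ℝ) ^ c * (2 : ℝ) ^ (-(c / 128 * 2 ^ j)) := by
      rw [← Real.rpow_add (by norm_num)]
      apply Real.one_le_rpow (by norm_num)
      have h5 : (2 : ℝ) ^ j ≤ 2 ^ 7 := pow_le_pow_right₀ (by norm_num) hj.le
      nlinarith
    have hp : (0 : ℝ) < (2 : ℝ) ^ (-(5 / 24) * (L : ℝ)) := by positivity
    have hq : (0 : ℝ) < (2 : ℝ) ^ (-(c / 128 * 2 ^ j)) := by positivity
    calc A1 * (2 : ℝ) ^ (-(5 / 24) * (L : ℝ)) * ((2 : ℝ) ^ (-(5 / 24) : ℝ)) ^ j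
        ≤ A1 * (2 : ℝ) ^ (-(5 / 24) * (L : ℝ)) * 1 := mul_le_mul_of_nonneg_left e1 (by positivity)
      _ = A1 * 1 * 1 * (2 : ℝ) ^ (-(5 / 24) * (L : ℝ)) := by ring
      _ ≤ A1 * ((2 : ℝ) ^ c * (2 : ℝ) ^ (-(c / 128 * 2 ^ j))) * C ^ j * (2 : ℝ) ^ (-(5 / 24) * (L : ℝ)) := by
          gcongr
      _ = A1 * (2 : ℝ) ^ c * C ^ j * (2 : ℝ) ^ (-(c / 128 * 2 ^ j)) * (2 : ℝ) ^ (-(5 / 24) * (L : ℝ)) := by ring
      _ ≤ (A1 * (2 : ℝ) ^ c + A2) * C ^ j * (2 : ℝ) ^ (-(c / 128 * 2 ^ j)) * (2 : ℝ) ^ (-(5 / 24) * (L : ℝ)) := by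
          gcongr
          linarith
  · obtain ⟨i, hi⟩ : ∃ i, i = j - 7 := ⟨_, rfl⟩
    have h4 := h2 a b i y h3 hk0
    rw [← hL] at h4
    rw [show L - 7 + j = L + i by omega]
    refine h4.trans (ENNReal.ofReal_le_ofReal ?_)
    have e1 : C ^ i ≤ C ^ j := pow_le_pow_right₀ hC (by omega)
    have e2 : c / 128 * 2 ^ j = c * 2 ^ i := by
      rw [show j = i + 7 by omega, pow_add]
      ring
    rw [e2]
    have h5 : 0 < A1 * (2 : ℝ) ^ c := by positivity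
    have hC0i : 0 < C ^ i := by positivity
    gcongr
    linarith

/-! ### the ends that wind around the cylinder -/

/-- the sum over the windings at one scale -/
lemma tsum_w {n : ℕ} (f : ℤ → ℝ≥0∞) (b : ℝ≥0∞) (hf : ∀ z, f z ≤ b) (P : ℤ → Prop) (h0 : ∀ z, ¬ P z → f z = 0)
    (hP : ∀ z z', P z → P z' → (z - z').natAbs ≤ n) : ∑' z : ℤ, f z ≤ (2 * n + 1 : ℕ) * b := by
  classical
  by_cases hex : ∃ z, P z
  · obtain ⟨z0, hz0⟩ := hex
    have h1 : ∑' z : ℤ, f z = ∑ z ∈ Finset.Icc (z0 - n) (z0 + n), f z := by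
      refine tsum_eq_sum fun z hz => h0 z fun h => hz ?_
      have h2 := hP z z0 h hz0
      rw [Finset.mem_Icc]
      omega
    rw [h1]
    refine (Finset.sum_le_card_nsmul _ _ b fun z _ => hf z).trans ?_
    rw [nsmul_eq_mul]
    refine mul_le_mul' ?_ le_rfl
    have h2 : (Finset.Icc (z0 - n) (z0 + n)).card ≤ 2 * n + 1 := by
      rw [Int.card_Icc]
      omega
    exact_mod_cast h2
  · push Not at hex
    have h1 : ∑' z : ℤ, f z = 0 := by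
      rw [ENNReal.tsum_eq_zero]
      exact fun z => h0 z (hex z)
    rw [h1]
    exact zero_le

/-- the words disjoint from their translates by the multiples of T, with an end at w modulo T far from the start -/
def WR (c : ℕ) (T w : Pt) : Set (List Bool) := {s | s ∈ SA ∧ DsT T s ∧ ∃ z : ℤ, vx oo up s s.length = w + ml z T ∧
  hn T ≤ c * hn (w + ml z T)}

/-- **words disjoint from their translates with a far end** -/
theorem wrapA : ∃ (C : ℝ) (k0 : ℕ), 0 < C ∧ ∀ (a b : ℕ) (w : Pt), 3 ∣ a + 2 * b → k0 ≤ a + b →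
    gf (WR 16 ((a : ℤ), (b : ℤ)) w) ≤ ENNReal.ofReal (C * (2 : ℝ) ^ (-(5 / 24) * (Nat.log 2 (a + b) : ℝ))) := by
  obtain ⟨A, C, c, k0, hA, hC, hc, hk128, hS⟩ := sd_allT
  obtain ⟨S, hS0, hSS⟩ := ser_fin (B := 2 * C) (by positivity) hc
  refine ⟨3 * A * S, k0, by positivity, fun a b w h3 hk => ?_⟩
  obtain ⟨T, hT⟩ : ∃ T : Pt, T = ((a : ℤ), (b : ℤ)) := ⟨_, rfl⟩
  have hnT : hn T = a + b := by
    rw [hT]
    exact hn_nat a b
  obtain ⟨L, hL⟩ : ∃ L, L = Nat.log 2 (a + b) := ⟨_, rfl⟩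
  have hL1 : 2 ^ L ≤ a + b := by
    rw [hL]
    exact Nat.pow_log_le_self 2 (by omega)
  have hL2 : 7 ≤ L := by
    rw [hL]
    exact (Nat.le_log_iff_pow_le (by norm_num) (by omega)).2 (by norm_num; omega)
  obtain ⟨F, hF⟩ : ∃ F : ℤ → ℕ → Set (List Bool), F = fun z i =>
      {t | (t ∈ EndK (L - 7 + i) (w + ml z T) ∧ DsT T t) ∧ hn (w + ml z T) ≤ 5 * 2 ^ (L - 7 + i)} := ⟨_, rfl⟩
  rw [← hT, ← hL]
  have hsub : WR 16 T w ⊆ ⋃ z : ℤ, ⋃ i : ℕ, F z i := by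
    rintro s ⟨h1, h2, z, h4, h5⟩
    obtain ⟨j, hj1, hj2⟩ := scale_ex h1 hL2 le_rfl (by
      rw [h4]
      omega)
    refine Set.mem_iUnion.2 ⟨z, Set.mem_iUnion.2 ⟨j, ?_⟩⟩
    rw [h4] at hj1 hj2
    rw [hF]
    exact ⟨⟨hj1, h2⟩, hj2⟩
  have h1 : ∀ i : ℕ, ∑' z : ℤ, gf (F z i) ≤ ENNReal.ofReal ((2 * C) ^ i * (2 : ℝ) ^ (-(c * 2 ^ i))) *
      ENNReal.ofReal (3 * A * (2 : ℝ) ^ (-(5 / 24) * (L : ℝ))) := by
    intro i
    have h2 := tsum_w (n := 2 ^ i) (fun z => gf (F z i)) (ENNReal.ofReal (A * C ^ i * (2 : ℝ) ^ (-(c * 2 ^ i)) *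
      (2 : ℝ) ^ (-(5 / 24) * (L : ℝ)))) (fun z => by
        refine (gf_mono fun t ht => ?_).trans (by
          have := hS a b i (w + ml z T) h3 hk
          rw [← hL, ← hT] at this
          exact this)
        rw [hF] at ht
        exact ht.1) (fun z => hn (w + ml z T) ≤ 5 * 2 ^ (L - 7 + i)) (fun z hz => by
        have h3 : F z i = ∅ := by
          rw [hF]
          exact Set.eq_empty_iff_forall_notMem.2 fun t ht => hz ht.2
        show gf (F z i) = 0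
        rw [h3]
        unfold gf
        simp) (fun z z' hz hz' => by
        have h4 := ml_near hz hz'
        rw [hnT] at h4
        have h5 : 2 * (5 * 2 ^ (L - 7 + i)) < 2 ^ L * (2 ^ i + 1) := by
          have e1 : 2 ^ L = 128 * 2 ^ (L - 7) := by
            rw [show (128 : ℕ) = 2 ^ 7 by norm_num, ← pow_add, show 7 + (L - 7) = L by omega]
          rw [e1, pow_add]
          have e2 : 0 < 2 ^ (L - 7) := by positivity
          have e3 : 0 < 2 ^ (L - 7) * 2 ^ i := by positivity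
          nlinarith
        have h6 : (z - z').natAbs * 2 ^ L ≤ (z - z').natAbs * (a + b) := Nat.mul_le_mul_left _ hL1
        have h7 : 2 ^ L * (z - z').natAbs < 2 ^ L * (2 ^ i + 1) := by
          rw [mul_comm]
          omega
        have h8 := lt_of_mul_lt_mul_left h7 (Nat.zero_le _)
        omega)
    refine h2.trans ?_
    have e2 : (((2 * 2 ^ i + 1 : ℕ) : ℝ≥0∞)) ≤ ENNReal.ofReal (3 * 2 ^ i) := by
      rw [← ENNReal.ofReal_natCast]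
      apply ENNReal.ofReal_le_ofReal
      push_cast
      have : (1 : ℝ) ≤ 2 ^ i := one_le_pow₀ (by norm_num)
      linarith
    refine (mul_le_mul' e2 le_rfl).trans (le_of_eq ?_)
    rw [← ENNReal.ofReal_mul (by positivity), ← ENNReal.ofReal_mul (by positivity)]
    congr 1
    rw [mul_pow]
    ring
  calc gf (WR 16 T w) ≤ gf (⋃ z : ℤ, ⋃ i : ℕ, F z i) := gf_mono hsub
    _ ≤ ∑' z : ℤ, gf (⋃ i : ℕ, F z i) := gf_iUnion_le _
    _ ≤ ∑' (z : ℤ) (i : ℕ), gf (F z i) := ENNReal.tsum_le_tsum fun z => gf_iUnion_le _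
    _ = ∑' (i : ℕ) (z : ℤ), gf (F z i) := by rw [ENNReal.tsum_comm]
    _ ≤ ∑' i : ℕ, ENNReal.ofReal ((2 * C) ^ i * (2 : ℝ) ^ (-(c * 2 ^ i))) *
        ENNReal.ofReal (3 * A * (2 : ℝ) ^ (-(5 / 24) * (L : ℝ))) := ENNReal.tsum_le_tsum h1
    _ = (∑' i : ℕ, ENNReal.ofReal ((2 * C) ^ i * (2 : ℝ) ^ (-(c * 2 ^ i)))) *
        ENNReal.ofReal (3 * A * (2 : ℝ) ^ (-(5 / 24) * (L : ℝ))) := ENNReal.tsum_mul_right
    _ ≤ ENNReal.ofReal S * ENNReal.ofReal (3 * A * (2 : ℝ) ^ (-(5 / 24) * (L : ℝ))) := mul_le_mul' hSS le_rfl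
    _ = _ := by
        rw [← ENNReal.ofReal_mul hS0.le]
        congr 1
        ring

end DirT

end HexObs
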