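import Pool.Agent.PLN.Defs
import Pool.Agent.PLX.End

/-!
# PLAX: the two-point function of the gas is the generating function of the words `PCr` (helper62)

`CG_eq : ENNReal.ofReal (PLX.WP h).re = CG k r` (h : r < 2 k, 1 <= r), `CG_WPr`.
-/

set_option autoImplicit false

namespace HexObs

namespace PLN

open HexObs.LP
open Pool.Agent.GLD
open Pool.Agent.NUF.Cyl (Nm Cy pL nmN tr nm_eq ri ri_A ri_B nm_B nmN_tr)
open Pool.Agent.NUN (Om mem_Om)
open Pool.Agent.PLX (WP WPm WPr one_le WP_iSup WPr_eq)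
open scoped ENNReal

variable {k r : ℕ}

/-- a word of the cylinder is a word of the plane -/
theorem lift_r (h : r < 2 * k) {M : ℕ} {t : List Bool}
    (ht : (Cy (2 * k) (one_le h)).Arr (Om (2 * k) M) (pL 0) t)
    (he : (Cy (2 * k) (one_le h)).rv ((Cy (2 * k) (one_le h)).le (pL 0) t) = pL (r : ℤ)) : t ∈ PCr k r := by
  set C := Cy (2 * k) (one_le h) with hC
  set v0 : Pt := _root_.EXL.B (-1) 0 with hv0
  have hp : (pL 0 : Pt × Pt) = (v0, (1, -1)) := rfl
  have hN : (1 : ℕ) ≤ 2 * k := one_le h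
  have rot : ∀ i, vx oo up t i = rt2 (vx v0 (1, -1) t i - v0) := fun i => by
    rw [← rt2_start]
    exact vx_rt2 v0 (1, -1) t i
  have drot : ∀ i, dx up t i = rt2 (dx (1, -1) t i) := fun i => by
    rw [← rt2_start]
    exact dx_rt2 (1, -1) t i
  -- the end
  have h1 : C.nm (C.nm (vx v0 (1, -1) t t.length) + dx (1, -1) t t.length) = _root_.EXL.B (-1) r ∧
      -dx (1, -1) t t.length = (1, -1) := Prod.ext_iff.1 he
  have hd : dx (1, -1) t t.length = (-1, 1) := by
    have := congrArg Neg.neg h1.2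
    rw [neg_neg] at this
    rw [this]
    rfl
  have hne : 1 ≤ t.length := by
    rcases t with _ | ⟨b, t⟩
    · exfalso
      have : ((1, -1) : Pt) = (-1, 1) := hd
      exact absurd this (by decide)
    · simp
  have h2 : C.nm (vx v0 (1, -1) t t.length + (-1, 1)) = _root_.EXL.B (-1) r := by
    rw [← hd, ← C.add]
    exact h1.1
  have h3 : ∃ z : ℤ, vx v0 (1, -1) t t.length + (-1, 1) = tr (2 * k * z) (_root_.EXL.B (-1) r) := by
    have h4 : nmN (2 * k) (vx v0 (1, -1) t t.length + (-1, 1)) = _root_.EXL.B (-1) r := h2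
    unfold nmN at h4
    refine ⟨Pool.Agent.NUF.Cyl.ri (vx v0 (1, -1) t t.length + (-1, 1)) / ((2 * k : ℕ) : ℤ), ?_⟩
    rw [← h4]
    refine Prod.ext ?_ ?_ <;> simp only [tr] <;> push_cast <;> ring
  obtain ⟨z, hz⟩ := h3
  refine ⟨hne, ?_, ⟨z, ?_⟩, ?_⟩
  · intro i j hi hij hj y e
    refine ht.inj i j hi hij hj ?_
    rw [hp]
    refine (nm_tr_iff hN).2 ⟨y, ?_⟩
    have e1 : vx v0 (1, -1) t i - v0 = vx v0 (1, -1) t j - v0 + (2 * k * y, 2 * k * y) := by
      apply rt2_inj
      rw [rt2_add, ← rot, ← rot, e]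
      refine Prod.ext ?_ ?_ <;> simp only [rt2, Prod.fst_add, Prod.snd_add] <;> ring
    have e2 : vx v0 (1, -1) t i = vx v0 (1, -1) t j + (2 * k * y, 2 * k * y) := by
      have := congrArg (fun p => p + v0) e1
      simp only [sub_add_cancel] at this
      rw [this]
      abel
    show vx v0 (1, -1) t i = tr (((2 * k : ℕ) : ℤ) * y) (vx v0 (1, -1) t j)
    rw [e2]
    refine Prod.ext ?_ ?_ <;> simp only [tr, Prod.fst_add, Prod.snd_add] <;> push_cast <;> ring
  · rw [rot]
    have e1 : vx v0 (1, -1) t t.length = tr (2 * k * z) (_root_.EXL.B (-1) r) - (-1, 1) := by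
      rw [← hz]
      abel
    rw [e1, hv0]
    refine Prod.ext ?_ ?_ <;> simp only [rt2, tr, _root_.EXL.B, up, Prod.fst_sub, Prod.snd_sub, Prod.fst_add,
      Prod.snd_add] <;> ring
  · rw [drot, hd]
    rfl

/-- a planar word of `PCr` is a word of the cylinder -/
theorem word_r (h : r < 2 * k) {t : List Bool} (ht : t ∈ PCr k r) : ∃ M : ℕ, ∀ m : ℕ, M ≤ m →
    (Cy (2 * k) (one_le h)).Arr (Om (2 * k) m) (pL 0) t ∧
    (Cy (2 * k) (one_le h)).rv ((Cy (2 * k) (one_le h)).le (pL 0) t) = pL (r : ℤ) := by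
  obtain ⟨h1, h2, ⟨z, h3⟩, h4⟩ := ht
  set C := Cy (2 * k) (one_le h) with hC
  set v0 : Pt := _root_.EXL.B (-1) 0 with hv0
  have hp : (pL 0 : Pt × Pt) = (v0, (1, -1)) := rfl
  have hN : (1 : ℕ) ≤ 2 * k := one_le h
  have rot : ∀ i, vx oo up t i = rt2 (vx v0 (1, -1) t i - v0) := fun i => by
    rw [← rt2_start]
    exact vx_rt2 v0 (1, -1) t i
  have drot : ∀ i, dx up t i = rt2 (dx (1, -1) t i) := fun i => by
    rw [← rt2_start]
    exact dx_rt2 (1, -1) t i
  have hvt : ∀ i, Vt (vx v0 (1, -1) t i) := fun i => Pool.Agent.MXR.Vt_vx t i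
  have h5 : ∀ i, ∃ m : ℕ, C.nm (vx v0 (1, -1) t i) ∈ Om (2 * k) m := fun i => exists_Om hN (hvt i)
  choose f hf using h5
  refine ⟨∑ i ∈ Finset.range (t.length + 1), f i, fun m hm => ⟨⟨?_, ?_⟩, ?_⟩⟩
  · intro i hi hi'
    rw [hp]
    show C.nm (vx v0 (1, -1) t i) ∈ Om (2 * k) m
    refine Om_mono (le_trans ?_ hm) (hf i)
    exact Finset.single_le_sum (f := f) (fun _ _ => Nat.zero_le _) (Finset.mem_range.2 (by omega))
  · intro i j hi hij hj
    rw [hp]
    show C.nm (vx v0 (1, -1) t i) ≠ C.nm (vx v0 (1, -1) t j)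
    intro e
    obtain ⟨y, hy⟩ := (nm_tr_iff hN).1 e
    refine h2 i j hi hij hj y ?_
    rw [rot, rot, hy]
    refine Prod.ext ?_ ?_ <;> simp only [rt2, tr, Prod.fst_sub, Prod.snd_sub, Prod.fst_add, Prod.snd_add] <;>
      push_cast <;> ring
  · have d1 : dx (1, -1) t t.length = (-1, 1) := by
      apply rt2_inj
      rw [← drot, h4]
      rfl
    have e1 : vx v0 (1, -1) t t.length + (-1, 1) = tr (2 * k * z) (_root_.EXL.B (-1) r) := by
      have e2 : vx v0 (1, -1) t t.length = v0 + (1, -1) + (r + 2 * k * z, r + 2 * k * z) := by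
        have e3 : vx v0 (1, -1) t t.length - v0 = (1, -1) + (r + 2 * k * z, r + 2 * k * z) := by
          apply rt2_inj
          rw [← rot, h3]
          refine Prod.ext ?_ ?_ <;> simp only [rt2, up, Prod.fst_add, Prod.snd_add] <;> ring
        rw [add_assoc, ← e3]
        abel
      rw [e2, hv0]
      refine Prod.ext ?_ ?_ <;> simp only [tr, _root_.EXL.B, Prod.fst_add, Prod.snd_add] <;> ring
    have e2 : C.nm (vx v0 (1, -1) t t.length + (-1, 1)) = _root_.EXL.B (-1) r := by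
      rw [e1]
      have := nmN_tr (2 * k) hN z (_root_.EXL.B (-1) r)
      have e3 : ((2 * k : ℕ) : ℤ) * z = 2 * k * z := by push_cast; ring
      rw [e3] at this
      show nmN (2 * k) (tr (2 * k * z) (_root_.EXL.B (-1) r)) = _root_.EXL.B (-1) r
      rw [this]
      exact nm_B hN (-1) (by positivity) (by exact_mod_cast h)
    show (C.nm (C.nm (vx v0 (1, -1) t t.length) + dx (1, -1) t t.length), -dx (1, -1) t t.length) =
      (_root_.EXL.B (-1) r, ((1, -1) : Pt))
    rw [C.add, d1, e2]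
    rfl

/-- **The two-point function of the gas is the generating function of the planar words modulo the period.** -/
theorem CG_eq (h1 : 1 ≤ r) (h : r < 2 * k) : ENNReal.ofReal (WP h).re = CG k r := by
  classical
  rw [WP_iSup h1 h]
  apply le_antisymm
  · refine iSup_le fun m => ?_
    unfold WPm Nm.Ws CG
    rw [← gf_finset]
    refine gf_mono fun t ht => ?_
    rw [Finset.mem_coe, Finset.mem_filter, Nm.mem_arr, Finset.mem_singleton] at ht
    exact lift_r h ht.1 ht.2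
  · refine gf_le_of_finset fun s hs => ?_
    have h1 : ∀ t : List Bool, ∃ M : ℕ, t ∈ s → ∀ m : ℕ, M ≤ m →
        (Cy (2 * k) (one_le h)).Arr (Om (2 * k) m) (pL 0) t ∧
        (Cy (2 * k) (one_le h)).rv ((Cy (2 * k) (one_le h)).le (pL 0) t) = pL (r : ℤ) := by
      intro t
      by_cases h0 : t ∈ s
      · obtain ⟨M, hM⟩ := word_r h (hs h0)
        exact ⟨M, fun _ => hM⟩
      · exact ⟨0, fun h' => absurd h' h0⟩
    choose f hf using h1
    refine le_trans ?_ (le_iSup _ (∑ t ∈ s, f t))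
    unfold WPm Nm.Ws
    rw [← gf_finset]
    refine gf_mono fun t ht => ?_
    rw [Finset.mem_coe, Finset.mem_filter, Nm.mem_arr, Finset.mem_singleton]
    exact hf t ht _ (Finset.single_le_sum (f := f) (fun _ _ => Nat.zero_le _) ht)

theorem CG_WPr (h1 : 1 ≤ r) (h : r < 2 * k) : CG k r = ENNReal.ofReal (WPr (2 * k) r) := by
  rw [WPr_eq h, CG_eq h1 h]

theorem CG_ne_top (h1 : 1 ≤ r) (h : r < 2 * k) : CG k r ≠ ⊤ := by
  rw [CG_WPr h1 h]
  exact ENNReal.ofReal_ne_top

theorem CG_toReal (h1 : 1 ≤ r) (h : r < 2 * k) : (CG k r).toReal = WPr (2 * k) r := by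
  rw [CG_WPr h1 h, ENNReal.toReal_ofReal (Pool.Agent.PLX.WPr_nonneg h1)]

end PLN

end HexObs
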