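import Pool.Agent.PLN.Defs
import Pool.Agent.TPC.XUp0
import Pool.Agent.TPC.XLow

/-!
# PLAX: the order of the two-point function of the plane from below (helper62)
-/

set_option autoImplicit false

namespace HexObs

namespace PLN

open Finset TS SDN NTW NTA TPC TPF PBA BAR

open scoped ENNReal

/-- the words of the gluing are words of the plane of the class `PP` -/
theorem DW_PP (k : ℕ) : DW k ⊆ PP k := by
  rintro t ⟨h1, h2, h3, h4, h5⟩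
  have hv : ∀ i, vx oo up t i = rt1 (vx oo (1, 0) t i) := fun i => by
    rw [← rt1_start]
    exact vx_rt1 (1, 0) t i
  have hd : ∀ i, dx up t i = rt1 (dx (1, 0) t i) := fun i => by
    rw [← rt1_start]
    exact dx_rt1 (1, 0) t i
  refine ⟨h1, ?_, ?_, ?_⟩
  · intro i j hi hij hj e
    rw [hv, hv] at e
    exact h2 i j hi hij hj (rt1_inj e)
  · rw [hv, h4]
    refine Prod.ext ?_ ?_
    · simp only [rt1, up, Prod.fst_add]
      ring
    · simp only [rt1, up, Prod.snd_add]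
      ring
  · rw [hd, h3]
    rfl

/-- **the order of the two-point function of the plane from below** -/
theorem lowP : LowP := by
  obtain ⟨c, J, k1, hc, hls⟩ := ls_mass
  obtain ⟨c', K2, hc', htb⟩ := tb_mass
  obtain ⟨cx, hcx, hxl⟩ := xLow
  obtain ⟨k0, hk0⟩ : ∃ k0 : ℕ, k0 = max k1 K2 + 6 := ⟨_, rfl⟩
  obtain ⟨B, hB⟩ : ∃ B : ℝ, B = c ^ 2 * c' * cx / 4 * (2 : ℝ) ^ (-(25 / 24 * ((J : ℝ) + 7))) := ⟨_, rfl⟩
  have hB0 : 0 < B := by rw [hB]; positivity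
  refine ⟨B, 2 ^ (k0 + J + 6), hB0, fun K hK => ?_⟩
  have hKp0 : 0 < K := lt_of_lt_of_le (by positivity) hK
  obtain ⟨M, hM⟩ : ∃ M, M = Nat.log 2 K := ⟨_, rfl⟩
  have hM1 : 2 ^ M ≤ K := by
    rw [hM]
    exact Nat.pow_log_le_self 2 (by omega)
  have hM2 : K < 2 ^ (M + 1) := by
    rw [hM]
    exact Nat.lt_pow_succ_log_self (by norm_num) K
  have hM3 : k0 + J + 6 ≤ M := by
    rw [hM]
    exact (Nat.le_log_iff_pow_le (by norm_num) (by omega)).2 hK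
  obtain ⟨k, hk⟩ : ∃ k, k = M - (J + 6) := ⟨_, rfl⟩
  have hkM : M = k + J + 6 := by omega
  obtain ⟨N, hN⟩ : ∃ N : ℕ, N = 2 ^ (k + J) := ⟨_, rfl⟩
  have hKN : 64 * N ≤ K := by
    have : 2 ^ M = 64 * N := by
      rw [hkM, hN, pow_add]
      ring
    omega
  have hN2 : 64 ≤ N := by
    rw [hN]
    calc 64 = 2 ^ 6 := by norm_num
      _ ≤ _ := Nat.pow_le_pow_right (by norm_num) (by omega)
  have hmN : 2 ^ k ≤ N := by
    rw [hN]
    exact Nat.pow_le_pow_right (by norm_num) (by omega)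
  have hkN : k < N := by
    rw [hN]
    exact lt_of_lt_of_le Nat.lt_two_pow_self (Nat.pow_le_pow_right (by norm_num) (by omega))
  have hm1 : 1 ≤ 2 ^ k := Nat.one_le_two_pow
  have hglue := glue_sumN (K := K) (m := 2 ^ k) (X := 3 * N + 2) (Y := K / 4 + 1)
    (β := ENNReal.ofReal (c' * (K : ℝ) ^ (-(5 / 4) : ℝ))) (by omega) (by omega) (fun T x h1 h2 h3 h4 => by
      refine htb K T x (by omega) (by omega) h2 (h3.trans ?_) h4
      push_cast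
      omega)
  have hl1 := hls k (2 ^ k) (-1, 1) (by omega) le_rfl (by rw [pow_succ]; omega) (by decide)
  have hl2 := hls k (2 ^ k) (-1, 0) (by omega) le_rfl (by rw [pow_succ]; omega) (by decide)
  rw [← hN] at hl1 hl2
  have hKp : (0 : ℝ) < K := by exact_mod_cast hKp0
  have h1 : (ENNReal.ofReal c * Xb k) * (ENNReal.ofReal c * Xb k) * ENNReal.ofReal (c' * (K : ℝ) ^ (-(5 / 4) : ℝ)) ≤
      4 * PG K :=
    (mul_le_mul' (mul_le_mul' hl1 hl2) le_rfl).trans (hglue.trans (mul_le_mul' le_rfl (gf_mono (DW_PP K))))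
  have e1 : (ENNReal.ofReal c * Xb k) * (ENNReal.ofReal c * Xb k) *
      ENNReal.ofReal (c' * (K : ℝ) ^ (-(5 / 4) : ℝ)) =
      ENNReal.ofReal (c ^ 2 * (c' * (K : ℝ) ^ (-(5 / 4) : ℝ))) * Xb k ^ 2 := by
    rw [ENNReal.ofReal_mul (p := c ^ 2) (by positivity), ENNReal.ofReal_pow hc.le]
    ring
  rw [e1] at h1
  have h2 := (mul_le_mul' le_rfl (hxl k)).trans h1
  rw [← ENNReal.ofReal_mul (by positivity)] at h2
  have h3 : ENNReal.ofReal (B * (K : ℝ) ^ (-(5 / 24) : ℝ)) * 4 ≤ ENNReal.ofReal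
      (c ^ 2 * (c' * (K : ℝ) ^ (-(5 / 4) : ℝ)) * (cx * (2 : ℝ) ^ (25 / 24 * (k : ℝ)))) := by
    rw [show (4 : ℝ≥0∞) = ENNReal.ofReal 4 by simp, ← ENNReal.ofReal_mul (by positivity)]
    apply ENNReal.ofReal_le_ofReal
    have h4 : (K : ℝ) ≤ (2 : ℝ) ^ ((k : ℝ) + ((J : ℝ) + 7)) := by
      have h5 : (K : ℝ) ≤ ((2 ^ (M + 1) : ℕ) : ℝ) := by exact_mod_cast hM2.le
      have h6 : ((2 ^ (M + 1) : ℕ) : ℝ) = (2 : ℝ) ^ ((k : ℝ) + ((J : ℝ) + 7)) := by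
        rw [show ((k : ℝ) + ((J : ℝ) + 7)) = ((M + 1 : ℕ) : ℝ) by rw [hkM]; push_cast; ring, Real.rpow_natCast]
        push_cast
        ring
      linarith
    have h5 : (K : ℝ) ^ (25 / 24 : ℝ) ≤ (2 : ℝ) ^ (25 / 24 * (k : ℝ)) * (2 : ℝ) ^ (25 / 24 * ((J : ℝ) + 7)) := by
      have h6 := Real.rpow_le_rpow hKp.le h4 (by norm_num : (0 : ℝ) ≤ 25 / 24)
      rw [← Real.rpow_mul (by norm_num)] at h6
      rw [← Real.rpow_add (by norm_num)]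
      refine h6.trans (le_of_eq ?_)
      congr 1
      ring
    have e3 : (K : ℝ) ^ (-(5 / 24) : ℝ) = (K : ℝ) ^ (-(5 / 4) : ℝ) * (K : ℝ) ^ (25 / 24 : ℝ) := by
      rw [← Real.rpow_add hKp]
      norm_num
    have e4 : (2 : ℝ) ^ (-(25 / 24 * ((J : ℝ) + 7))) * (2 : ℝ) ^ (25 / 24 * ((J : ℝ) + 7)) = 1 := by
      rw [← Real.rpow_add (by norm_num)]
      simp
    rw [e3, hB]
    have hp : 0 < c ^ 2 * c' * cx * (2 : ℝ) ^ (-(25 / 24 * ((J : ℝ) + 7))) * (K : ℝ) ^ (-(5 / 4) : ℝ) := by positivity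
    calc c ^ 2 * c' * cx / 4 * (2 : ℝ) ^ (-(25 / 24 * ((J : ℝ) + 7))) *
          ((K : ℝ) ^ (-(5 / 4) : ℝ) * (K : ℝ) ^ (25 / 24 : ℝ)) * 4 =
        c ^ 2 * c' * cx * (2 : ℝ) ^ (-(25 / 24 * ((J : ℝ) + 7))) * (K : ℝ) ^ (-(5 / 4) : ℝ) *
          (K : ℝ) ^ (25 / 24 : ℝ) := by ring
      _ ≤ c ^ 2 * c' * cx * (2 : ℝ) ^ (-(25 / 24 * ((J : ℝ) + 7))) * (K : ℝ) ^ (-(5 / 4) : ℝ) *
          ((2 : ℝ) ^ (25 / 24 * (k : ℝ)) * (2 : ℝ) ^ (25 / 24 * ((J : ℝ) + 7))) :=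
          mul_le_mul_of_nonneg_left h5 hp.le
      _ = c ^ 2 * (c' * (K : ℝ) ^ (-(5 / 4) : ℝ)) * (cx * (2 : ℝ) ^ (25 / 24 * (k : ℝ))) *
          ((2 : ℝ) ^ (-(25 / 24 * ((J : ℝ) + 7))) * (2 : ℝ) ^ (25 / 24 * ((J : ℝ) + 7))) := by ring
      _ = _ := by rw [e4, mul_one]
  have h4 : ENNReal.ofReal (B * (K : ℝ) ^ (-(5 / 24) : ℝ)) * 4 ≤ PG K * 4 := by
    rw [mul_comm (PG K)]
    exact h3.trans h2
  exact (ENNReal.mul_le_mul_iff_left (by norm_num) (by norm_num)).1 h4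

end PLN

end HexObs
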