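import Pool.Agent.PLN.Soft
import Pool.Agent.PLN.Pos
import Pool.Agent.PLN.Join

/-!
# PLAX: the two-point function of the plane along a lattice axis from the gas (helper62)

`plax_of_rays` : from the transfer on the rays `TRray b l` (for arbitrarily large odd b) the limit of
`PG (m + 1) (m + 1) ^ (5 / 24)` along the filter `l` of the numbers m, positive.
-/

set_option autoImplicit false

namespace HexObs

namespace PLN

open Filter Topology
open Pool.Agent.PLX (WPr Lr kr two_kr TRray hard_of WPr_nonneg)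

open scoped ENNReal

/-- cylinder against plane, real numbers -/
theorem soft_real : ∃ (C : ℝ) (k0 : ℕ), 0 < C ∧ ∀ k r : ℕ, k0 ≤ k → 1 ≤ r → r ≤ k →
    PG r ≠ ⊤ ∧ |(PG r).toReal - WPr (2 * k) r| ≤ C * (k : ℝ) ^ (-(5 / 24) : ℝ) := by
  obtain ⟨C, k0, hC, h⟩ := softC
  refine ⟨C, max k0 1, hC, fun k r hk h1 hr => ?_⟩
  have hk0 : k0 ≤ k := (le_max_left _ _).trans hk
  have hk1 : 1 ≤ k := (le_max_right _ _).trans hk
  obtain ⟨e1, e2⟩ := h k r hk0 h1 hr
  have hr2 : r < 2 * k := by omega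
  rw [CG_WPr h1 hr2] at e1 e2
  have hW : 0 ≤ WPr (2 * k) r := WPr_nonneg h1
  have hE : 0 ≤ C * (k : ℝ) ^ (-(5 / 24) : ℝ) := by positivity
  have hfin : PG r ≠ ⊤ := ne_top_of_le_ne_top (by simp) e2
  refine ⟨hfin, ?_⟩
  rw [← ENNReal.ofReal_toReal hfin] at e1 e2
  rw [← ENNReal.ofReal_add (by positivity) hE, ENNReal.ofReal_le_ofReal_iff (by positivity)] at e1
  rw [← ENNReal.ofReal_add hW hE, ENNReal.ofReal_le_ofReal_iff (by positivity)] at e2
  rw [abs_le]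
  constructor <;> linarith

/-- the two-point function of the plane is finite -/
theorem PG_ne_top {r : ℕ} (hr : 1 ≤ r) : PG r ≠ ⊤ := by
  obtain ⟨C, k0, hC, h⟩ := soft_real
  exact (h (max k0 r) r (le_max_left _ _) hr (le_max_right _ _)).1

/-- the order from below, real numbers -/
theorem low_real : ∃ (c : ℝ) (r0 : ℕ), 0 < c ∧ ∀ r : ℕ, r0 ≤ r → c * (r : ℝ) ^ (-(5 / 24) : ℝ) ≤ (PG r).toReal := by
  obtain ⟨c, r0, hc, h⟩ := lowP
  refine ⟨c, max r0 1, hc, fun r hr => ?_⟩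
  exact (ENNReal.ofReal_le_iff_le_toReal (PG_ne_top ((le_max_right _ _).trans hr))).1 (h r ((le_max_left _ _).trans hr))

/-- **a family of approximations with limits gives a limit** -/
theorem lim_of_approx {ι : Type*} {l : Filter ι} [l.NeBot] {g : ι → ℝ}
    (h : ∀ ε : ℝ, 0 < ε → ∃ (f : ι → ℝ) (a : ℝ), Tendsto f l (𝓝 a) ∧ ∀ᶠ i in l, |g i - f i| ≤ ε) :
    ∃ A : ℝ, Tendsto g l (𝓝 A) := by
  have hc : Cauchy (map g l) := by
    rw [Metric.cauchy_iff]
    refine ⟨inferInstance, fun ε hε => ?_⟩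
    obtain ⟨f, a, hf, hg⟩ := h (ε / 8) (by positivity)
    have h1 : ∀ᶠ i in l, |f i - a| < ε / 8 := by
      have := hf.eventually (Metric.ball_mem_nhds a (by positivity : (0 : ℝ) < ε / 8))
      filter_upwards [this] with i hi
      rw [← Real.dist_eq]
      exact hi
    refine ⟨Metric.ball a (ε / 2), ?_, fun x hx y hy => ?_⟩
    · rw [mem_map]
      filter_upwards [hg, h1] with i h2 h3
      show dist (g i) a < ε / 2
      rw [Real.dist_eq]
      have h4 := abs_add_le (g i - f i) (f i - a)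
      rw [sub_add_sub_cancel] at h4
      linarith
    · have hx' : dist x a < ε / 2 := hx
      have hy' : dist y a < ε / 2 := hy
      have h5 := dist_triangle_right x y a
      linarith
  exact CompleteSpace.complete hc

/-- **PLAX, one class of numbers: from the transfer on the rays to the plane** -/
theorem plax_of_rays {l : Filter ℕ} [l.NeBot] (hl : l ≤ atTop) (h : ∀ B : ℕ, ∃ b : ℕ, B ≤ b ∧ Odd b ∧ TRray b l) :
    ∃ A : ℝ, 0 < A ∧ Tendsto (fun m : ℕ => (PG (m + 1)).toReal * ((m : ℝ) + 1) ^ (5 / 24 : ℝ)) l (𝓝 A) := by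
  obtain ⟨C, k0, hC, hS⟩ := soft_real
  obtain ⟨c, r0, hc, hL⟩ := low_real
  obtain ⟨A, hA⟩ := lim_of_approx (l := l) (g := fun m : ℕ => (PG (m + 1)).toReal * ((m : ℝ) + 1) ^ (5 / 24 : ℝ)) (by
    intro ε hε
    -- the ratio
    have h1 : Tendsto (fun b : ℕ => C * (((b : ℝ) + 1) / 4) ^ (-(5 / 24) : ℝ)) atTop (𝓝 0) := by
      have h2 : Tendsto (fun b : ℕ => ((b : ℝ) + 1) / 4) atTop atTop :=
        (tendsto_atTop_add_const_right _ _ tendsto_natCast_atTop_atTop).atTop_div_const (by norm_num)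
      have h3 := (tendsto_rpow_neg_atTop (by norm_num : (0 : ℝ) < 5 / 24)).comp h2
      simpa using h3.const_mul C
    obtain ⟨B, hB⟩ := (h1.eventually (ge_mem_nhds hε)).exists_forall_of_atTop
    obtain ⟨b, hb1, hb, hT⟩ := h B
    obtain ⟨a, -, ha⟩ := hard_of hb hl hT
    refine ⟨_, a, ha, ?_⟩
    filter_upwards [hl (eventually_ge_atTop (k0 + 1))] with m hm
    have hk := two_kr hb m
    have hbp := hb.pos
    have hk1 : m + 1 ≤ kr b m := by
      unfold Lr at hk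
      nlinarith
    have hkq : ((b : ℝ) + 1) / 4 * ((m : ℝ) + 1) ≤ kr b m := by
      have h2 : (2 : ℝ) * kr b m = (b + 1) * m + 2 := by
        unfold Lr at hk
        exact_mod_cast hk
      have h3 : (1 : ℝ) ≤ m := by
        have : 1 ≤ m := by omega
        exact_mod_cast this
      have h4 : (1 : ℝ) ≤ b := by exact_mod_cast hbp
      nlinarith
    obtain ⟨-, h2⟩ := hS (kr b m) (m + 1) (by omega) (by omega) hk1
    rw [hk] at h2
    have hp : (0 : ℝ) < (m : ℝ) + 1 := by positivity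
    have hq : (0 : ℝ) < ((b : ℝ) + 1) / 4 := by positivity
    have h3 : (kr b m : ℝ) ^ (-(5 / 24) : ℝ) * ((m : ℝ) + 1) ^ (5 / 24 : ℝ) ≤ (((b : ℝ) + 1) / 4) ^ (-(5 / 24) : ℝ) := by
      have h4 := Real.rpow_le_rpow_of_nonpos (mul_pos hq hp) hkq (by norm_num : (-(5 / 24) : ℝ) ≤ 0)
      rw [Real.mul_rpow hq.le hp.le] at h4
      have h5 : ((m : ℝ) + 1) ^ (-(5 / 24) : ℝ) * ((m : ℝ) + 1) ^ (5 / 24 : ℝ) = 1 := by
        rw [← Real.rpow_add hp]
        norm_num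
      calc (kr b m : ℝ) ^ (-(5 / 24) : ℝ) * ((m : ℝ) + 1) ^ (5 / 24 : ℝ) ≤
          (((b : ℝ) + 1) / 4) ^ (-(5 / 24) : ℝ) * ((m : ℝ) + 1) ^ (-(5 / 24) : ℝ) * ((m : ℝ) + 1) ^ (5 / 24 : ℝ) :=
            mul_le_mul_of_nonneg_right h4 (by positivity)
        _ = _ := by rw [mul_assoc, h5, mul_one]
    rw [← sub_mul, abs_mul, abs_of_pos (show (0 : ℝ) < ((m : ℝ) + 1) ^ (5 / 24 : ℝ) by positivity)]
    calc |(PG (m + 1)).toReal - WPr (Lr b m) (m + 1)| * ((m : ℝ) + 1) ^ (5 / 24 : ℝ) ≤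
        C * (kr b m : ℝ) ^ (-(5 / 24) : ℝ) * ((m : ℝ) + 1) ^ (5 / 24 : ℝ) :=
          mul_le_mul_of_nonneg_right h2 (by positivity)
      _ = C * ((kr b m : ℝ) ^ (-(5 / 24) : ℝ) * ((m : ℝ) + 1) ^ (5 / 24 : ℝ)) := by ring
      _ ≤ C * (((b : ℝ) + 1) / 4) ^ (-(5 / 24) : ℝ) := mul_le_mul_of_nonneg_left h3 hC.le
      _ ≤ ε := hB b hb1)
  refine ⟨A, lt_of_lt_of_le hc (ge_of_tendsto hA ?_), hA⟩
  filter_upwards [hl (eventually_ge_atTop r0)] with m hm
  have h1 := hL (m + 1) (by omega)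
  have hp : (0 : ℝ) < (m : ℝ) + 1 := by positivity
  have h5 : ((m : ℝ) + 1) ^ (-(5 / 24) : ℝ) * ((m : ℝ) + 1) ^ (5 / 24 : ℝ) = 1 := by
    rw [← Real.rpow_add hp]
    norm_num
  push_cast at h1
  calc c = c * ((m : ℝ) + 1) ^ (-(5 / 24) : ℝ) * ((m : ℝ) + 1) ^ (5 / 24 : ℝ) := by rw [mul_assoc, h5, mul_one]
    _ ≤ _ := mul_le_mul_of_nonneg_right h1 (by positivity)

/-- **PLAX from two classes of numbers** -/
theorem plax_two (h0 : ∃ A : ℝ, 0 < A ∧ Tendsto (fun m : ℕ => (PG (m + 1)).toReal * ((m : ℝ) + 1) ^ (5 / 24 : ℝ))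
      (atTop ⊓ 𝓟 {m | Even m}) (𝓝 A))
    (h1 : ∃ A : ℝ, 0 < A ∧ Tendsto (fun m : ℕ => (PG (m + 1)).toReal * ((m : ℝ) + 1) ^ (5 / 24 : ℝ))
      (atTop ⊓ 𝓟 {m | ¬Even m}) (𝓝 A))
    (hr : Tendsto (fun r : ℕ => (PG (r + 1)).toReal / (PG r).toReal) atTop (𝓝 1)) : Plax := by
  obtain ⟨A0, hA0, h0⟩ := h0
  obtain ⟨A1, hA1, h1⟩ := h1
  obtain ⟨g, hg⟩ : ∃ g : ℕ → ℝ, g = fun r => (PG r).toReal * (r : ℝ) ^ (5 / 24 : ℝ) := ⟨_, rfl⟩
  have hgm : ∀ m : ℕ, g (m + 1) = (PG (m + 1)).toReal * ((m : ℝ) + 1) ^ (5 / 24 : ℝ) := by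
    intro m
    rw [hg]
    push_cast
    rfl
  have e0 : Tendsto (fun j : ℕ => g (2 * j + 1)) atTop (𝓝 A0) := by
    have h2 : Tendsto (fun j : ℕ => 2 * j) atTop (atTop ⊓ 𝓟 {m | Even m}) := by
      rw [tendsto_inf, tendsto_principal]
      exact ⟨tendsto_id.const_mul_atTop' (by norm_num), Eventually.of_forall fun j => even_two_mul j⟩
    refine (h0.comp h2).congr fun j => ?_
    exact (hgm (2 * j)).symm
  have e1 : Tendsto (fun j : ℕ => g (2 * j + 2)) atTop (𝓝 A1) := by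
    have h2 : Tendsto (fun j : ℕ => 2 * j + 1) atTop (atTop ⊓ 𝓟 {m | ¬Even m}) := by
      rw [tendsto_inf, tendsto_principal]
      refine ⟨tendsto_atTop_mono (fun j => ?_) tendsto_id, Eventually.of_forall fun j => ?_⟩
      · show j ≤ 2 * j + 1
        omega
      · show ¬Even (2 * j + 1)
        rw [Nat.not_even_iff_odd]
        exact odd_two_mul_add_one j
    refine (h1.comp h2).congr fun j => ?_
    exact (hgm (2 * j + 1)).symm
  have e2 : Tendsto (fun j : ℕ => g (2 * j + 2) / g (2 * j + 1)) atTop (𝓝 1) := by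
    have h2 : Tendsto (fun j : ℕ => 2 * j + 1) atTop atTop :=
      tendsto_atTop_mono (fun j => by show j ≤ 2 * j + 1; omega) tendsto_id
    have h3 := hr.comp h2
    have h4 : Tendsto (fun j : ℕ => ((((2 * j + 1 : ℕ) : ℝ) + 1) / ((2 * j + 1 : ℕ) : ℝ)) ^ (5 / 24 : ℝ)) atTop (𝓝 1) := by
      have h5 : Tendsto (fun n : ℕ => ((n : ℝ) + 1) / (n : ℝ)) atTop (𝓝 1) := by
        have h6 : Tendsto (fun n : ℕ => 1 + 1 / (n : ℝ)) atTop (𝓝 (1 + 0)) :=
          tendsto_one_div_atTop_nhds_zero_nat.const_add 1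
        rw [add_zero] at h6
        refine h6.congr' ?_
        filter_upwards [eventually_ge_atTop 1] with n hn
        have : (n : ℝ) ≠ 0 := by
          have : (0 : ℝ) < n := by exact_mod_cast hn
          exact this.ne'
        field_simp
      have h7 := (h5.comp h2).rpow_const (p := (5 / 24 : ℝ)) (Or.inl one_ne_zero)
      rw [Real.one_rpow] at h7
      exact h7
    have h5 := h3.mul h4
    rw [one_mul] at h5
    refine h5.congr fun j => ?_
    rw [hg]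
    show (PG (2 * j + 1 + 1)).toReal / (PG (2 * j + 1)).toReal *
        ((((2 * j + 1 : ℕ) : ℝ) + 1) / ((2 * j + 1 : ℕ) : ℝ)) ^ (5 / 24 : ℝ) =
      (PG (2 * j + 2)).toReal * ((2 * j + 2 : ℕ) : ℝ) ^ (5 / 24 : ℝ) /
        ((PG (2 * j + 1)).toReal * ((2 * j + 1 : ℕ) : ℝ) ^ (5 / 24 : ℝ))
    have e3 : ((2 * j + 2 : ℕ) : ℝ) = ((2 * j + 1 : ℕ) : ℝ) + 1 := by push_cast; ring
    rw [e3, Real.div_rpow (by positivity) (by positivity), mul_div_mul_comm]
  have hA : A1 = A0 := by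
    have h2 := e1.div e0 hA0.ne'
    have h3 := tendsto_nhds_unique h2 e2
    exact (div_eq_one_iff_eq hA0.ne').1 h3
  rw [hA] at h1
  refine ⟨A0, hA0, ?_⟩
  have h2 : Tendsto (fun m : ℕ => (PG (m + 1)).toReal * ((m : ℝ) + 1) ^ (5 / 24 : ℝ)) atTop (𝓝 A0) := by
    intro s hs
    have h3 := h0 hs
    have h4 := h1 hs
    rw [mem_map, mem_inf_principal] at h3 h4
    rw [mem_map]
    filter_upwards [h3, h4] with m h5 h6
    by_cases hm : Even m
    · exact h5 hm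
    · exact h6 hm
  have h3 : Tendsto (fun m : ℕ => g (m + 1)) atTop (𝓝 A0) := h2.congr fun m => (hgm m).symm
  have h4 := (tendsto_add_atTop_iff_nat 1).1 h3
  rw [hg] at h4
  exact h4

end PLN

end HexObs
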