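import Pool.Agent.PLT.ThetaAll
import Pool.Agent.PLT.S4Fin

/-!
# The critical two-point function of the self-avoiding walk in the plane (helper12)

* **`pubAll`** : `G(x) |x|^(5/24) → A > 0` as `|x| → ∞`, every direction.
-/

set_option autoImplicit false
set_option linter.unusedSectionVars false

noncomputable section

open MeasureTheory Filter Topology

namespace Pool.Agent.PLN

open Pool.Agent.PLC.Res

/-- the gas theorems of one direction -/
theorem gasI [_root_.PLX.Fil] (a0 b0 : ℕ) : PLT.TI.GasI a0 b0 := by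
  let _ := _root_.PLX.ends0
  have hl := NUMF.l_pos
  have ht : PLT.seaIB.top ≤ NUMF.l / 128 := by
    rw [PLT.seaIB_top]
    positivity
  exact ⟨PLT.s4C_th _, PLT.s4MC_th _, PLT.s4C_p6 _ ht, PLT.s4MC_p6 _ ht⟩

/-- **the critical two-point function of the plane** -/
theorem pubAll : ∃ A : ℝ, 0 < A ∧ ∀ ε : ℝ, 0 < ε → ∃ δ : ℝ, 0 < δ ∧ ∀ x ∈ vertices, 1 / δ ≤ ‖x‖ →
    |G zc x * ‖x‖ ^ (5 / 24 : ℝ) - A| ≤ ε :=
  PLT.TI.plaxTheta_of fun q hq a b _ _ => @gasI ⟨q, hq⟩ a b

end Pool.Agent.PLN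

end
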