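import Pool.Agent.PLN.PubA
import Pool.Agent.PLC.NbC
import Pool.Agent.PLC.EndF
import Pool.Agent.PLC.E1A

/-!
# PLAX, row F: the public form from Plax and the theorems (R), (E) of PLC (helper62)
-/

set_option autoImplicit false

open scoped Classical

namespace Pool.Agent.PLN

open Filter Topology MeasureTheory
open Pool.Agent.IW.Res Pool.Agent.PLC.Res Pool.Agent.PLC

/-- the vertex of `PG_ends` -/
lemma phi_yv (r : ℕ) : SawNu.phiTri (-HexMu.psi (2 * (r : ℤ), -(r : ℤ))) = yv 2 r := by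
  unfold yv
  rw [uj_val, map_neg]
  simp only [SawNu.phiTri, HexMu.psi, AddMonoidHom.coe_mk, ZeroHom.coe_mk]
  have h3 : Real.sqrt 3 ≠ 0 := by positivity
  have h4 : (Real.sqrt 3 : ℂ) ≠ 0 := by exact_mod_cast h3
  have e1 : ((Real.sqrt 3 * r : ℝ) : ℂ) * (-(3 / 2 : ℝ) / (Real.sqrt 3 : ℂ) +
      (Real.sqrt 3 / 2 : ℝ) / (Real.sqrt 3 : ℂ) * Complex.I) = ((-(3 / 2 * r) : ℝ) : ℂ) +
      ((Real.sqrt 3 / 2 * r : ℝ) : ℂ) * Complex.I := by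
    push_cast
    field_simp
  rw [e1]
  apply Complex.ext
  · simp
    ring
  · simp
    ring

/-- the share of the walks whose first and last directions are not 2 -/
lemma share_of {P : Measure (ℕ → Fin 3)} [IsProbabilityMeasure P] (hb : BP P) (hE : EP P) :
    ∀ ε : ℝ, 0 < ε → ∃ R : ℝ, ∀ x ∈ vertices, R ≤ ‖x‖ →
      |ends zc x 1 {W | W 0 ≠ 2} {W | W 0 ≠ 2} - 4 / 9 * G zc x| ≤ ε * G zc x := by
  intro ε hε
  obtain ⟨R, hR⟩ := hE.fix 1 hε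
  refine ⟨R, fun x hx hxR => ?_⟩
  have h1 := hR x hx hxR {W | W 0 ≠ 2} {W | W 0 ≠ 2}
  have h2 : P.real {w : ℕ → Fin 3 | (fun i : Fin 1 => w i) ∈ ({W | W 0 ≠ 2} : Set (Fin 1 → Fin 3))} = 2 / 3 := by
    have h3 := p_third hb 2
    have e : {w : ℕ → Fin 3 | (fun i : Fin 1 => w i) ∈ ({W | W 0 ≠ 2} : Set (Fin 1 → Fin 3))} = {w | w 0 = 2}ᶜ := by
      ext w
      rfl
    have hm : MeasurableSet {w : ℕ → Fin 3 | w 0 = 2} :=
      measurableSet_eq_fun (measurable_pi_apply 0) measurable_const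
    rw [e, probReal_compl_eq_one_sub hm, h3]
    norm_num
  rw [h2] at h1
  have e : (2 / 3 * (2 / 3) * G zc x : ℝ) = 4 / 9 * G zc x := by ring
  rw [e] at h1
  exact h1

/-- **PLAX, public form** -/
theorem pubA_fin {P : Measure (ℕ → Fin 3)} [IsProbabilityMeasure P] (hb : BP P) (hE : EP P) (hP : HexObs.PLN.Plax)
    (hR : ∀ ε : ℝ, 0 < ε → ∃ δ : ℝ, 0 < δ ∧ ∀ x ∈ vertices, ∀ y ∈ vertices, 1 / δ ≤ ‖x‖ → ‖y - x‖ ≤ δ * ‖x‖ →
      |G zc y / G zc x - 1| ≤ ε) :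
    ∃ A : ℝ, 0 < A ∧ ∀ ε : ℝ, 0 < ε → ∃ δ : ℝ, 0 < δ ∧ ∀ x ∈ vertices, 1 / δ ≤ ‖x‖ →
      (∃ j : ℤ, ‖x / ‖x‖ - Complex.exp (Complex.I * (Real.pi : ℂ) * (2 * (j : ℂ) + 1) / 6)‖ ≤ δ) →
      |G zc x * ‖x‖ ^ (5 / 24 : ℝ) - A| ≤ ε := by
  have hz : 0 ≤ zc := by
    rw [zc_eq]
    exact HexObs.xc_pos.le
  refine pubA_of hz (axis_lim hP HexObs.xc_pos hz (fun r hr => ?_) (share_of hb hE)) hR
  rw [F1.PG_ends r hr, phi_yv, zc_eq]

/-- **the ratio of the two-point function at two neighbouring vertices of the axis** -/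
theorem ratio_PG {P : Measure (ℕ → Fin 3)} [IsProbabilityMeasure P] (hT : TPb) (hb : BP P) (hE : EP P)
    (hR : ∀ ε : ℝ, 0 < ε → ∃ δ : ℝ, 0 < δ ∧ ∀ x ∈ vertices, ∀ y ∈ vertices, 1 / δ ≤ ‖x‖ → ‖y - x‖ ≤ δ * ‖x‖ →
      |G zc y / G zc x - 1| ≤ ε) :
    Tendsto (fun r : ℕ => (HexObs.PLN.PG (r + 1)).toReal / (HexObs.PLN.PG r).toReal) atTop (𝓝 1) := by
  obtain ⟨c, hc, hT⟩ := hT
  obtain ⟨E, hEd⟩ : ∃ E : ℕ → ℝ, E = fun r => ends zc (yv 2 r) 1 {W | W 0 ≠ 2} {W | W 0 ≠ 2} := ⟨_, rfl⟩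
  obtain ⟨g, hg⟩ : ∃ g : ℕ → ℝ, g = fun r => G zc (yv 2 r) := ⟨_, rfl⟩
  have hn : Tendsto (fun r : ℕ => ‖yv 2 r‖) atTop atTop := by
    simp only [yv_norm]
    exact tendsto_natCast_atTop_atTop.const_mul_atTop (by positivity)
  have hg0 : ∀ᶠ r : ℕ in atTop, 0 < g r := by
    filter_upwards [hn.eventually (eventually_gt_atTop 0)] with r hr
    have h1 := (hT (yv 2 r) (vert_yv 2 r) (norm_pos_iff.1 hr)).1
    rw [hg]
    exact lt_of_lt_of_le (by positivity) h1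
  have h1 : Tendsto (fun r => E r / g r) atTop (𝓝 (4 / 9)) := by
    rw [Metric.tendsto_atTop]
    intro ε hε
    obtain ⟨R, hR⟩ := share_of hb hE (ε / 2) (by positivity)
    obtain ⟨N, hN⟩ := (hg0.and (hn.eventually (eventually_ge_atTop R))).exists_forall_of_atTop
    refine ⟨N, fun r hr => ?_⟩
    obtain ⟨h2, h3⟩ := hN r hr
    have h4 := hR _ (vert_yv 2 r) h3
    rw [Real.dist_eq]
    have e : E r / g r - 4 / 9 = (E r - 4 / 9 * g r) / g r := by field_simp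
    rw [e, abs_div, abs_of_pos h2, div_lt_iff₀ h2]
    have h5 : |E r - 4 / 9 * g r| ≤ ε / 2 * g r := by rw [hEd, hg]; exact h4
    nlinarith
  have h2 : Tendsto (fun r => g (r + 1) / g r) atTop (𝓝 1) := by
    rw [Metric.tendsto_atTop]
    intro ε hε
    obtain ⟨d, hd, hR⟩ := hR (ε / 2) (by positivity)
    obtain ⟨N, hN⟩ := (hn.eventually (eventually_ge_atTop (max (1 / d) (2 / d)))).exists_forall_of_atTop
    refine ⟨N, fun r hr => ?_⟩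
    have h3 := hN r hr
    have h4 := hR (yv 2 r) (vert_yv 2 r) (yv 2 (r + 1)) (vert_yv 2 (r + 1)) ((le_max_left _ _).trans h3) (by
      have e : yv 2 (r + 1) - yv 2 r = yv 2 1 := by
        unfold yv
        push_cast
        ring
      rw [e, yv_norm]
      have h5 : 2 / d ≤ ‖yv 2 r‖ := (le_max_right _ _).trans h3
      rw [div_le_iff₀ hd] at h5
      have h6 : Real.sqrt 3 ≤ 2 := by
        rw [show (2 : ℝ) = Real.sqrt 4 by
          rw [show (4 : ℝ) = 2 ^ 2 by norm_num, Real.sqrt_sq (by norm_num)]]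
        exact Real.sqrt_le_sqrt (by norm_num)
      push_cast
      linarith)
    rw [Real.dist_eq, hg]
    linarith
  have h3 := ((h1.comp (tendsto_add_atTop_nat 1)).mul h2).div h1 (by norm_num)
  have e : (4 / 9 * 1 / (4 / 9) : ℝ) = 1 := by norm_num
  rw [e] at h3
  refine h3.congr' ?_
  filter_upwards [hg0, (tendsto_add_atTop_nat 1).eventually hg0, eventually_ge_atTop 1] with r h4 h5 h6
  show E (r + 1) / g (r + 1) * (g (r + 1) / g r) / (E r / g r) = _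
  have hx : (0 : ℝ) < HexObs.xc := HexObs.xc_pos
  have h5' : g (r + 1) ≠ 0 := (show 0 < g (r + 1) from h5).ne'
  have e1 : (HexObs.PLN.PG r).toReal = HexObs.xc * E r := by
    rw [F1.PG_ends r h6, phi_yv, hEd, zc_eq]
  have e2 : (HexObs.PLN.PG (r + 1)).toReal = HexObs.xc * E (r + 1) := by
    rw [F1.PG_ends (r + 1) (by omega), phi_yv, hEd, zc_eq]
  rw [e1, e2, mul_div_mul_left _ _ hx.ne']
  by_cases hE0 : E r = 0
  · rw [hE0]
    simp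
  · field_simp

/-- **PLAX, public form, from the transfer on the rays** -/
theorem pubA_rays {P : Measure (ℕ → Fin 3)} [IsProbabilityMeasure P] (hT : TPb) (hb : BP P) (hE : EP P)
    (hR : ∀ ε : ℝ, 0 < ε → ∃ δ : ℝ, 0 < δ ∧ ∀ x ∈ vertices, ∀ y ∈ vertices, 1 / δ ≤ ‖x‖ → ‖y - x‖ ≤ δ * ‖x‖ →
      |G zc y / G zc x - 1| ≤ ε)
    (h0 : ∀ B : ℕ, ∃ b : ℕ, B ≤ b ∧ Odd b ∧ Pool.Agent.PLX.TRray b (atTop ⊓ 𝓟 {m | Even m}))
    (h1 : ∀ B : ℕ, ∃ b : ℕ, B ≤ b ∧ Odd b ∧ Pool.Agent.PLX.TRray b (atTop ⊓ 𝓟 {m | ¬Even m})) :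
    ∃ A : ℝ, 0 < A ∧ ∀ ε : ℝ, 0 < ε → ∃ δ : ℝ, 0 < δ ∧ ∀ x ∈ vertices, 1 / δ ≤ ‖x‖ →
      (∃ j : ℤ, ‖x / ‖x‖ - Complex.exp (Complex.I * (Real.pi : ℂ) * (2 * (j : ℂ) + 1) / 6)‖ ≤ δ) →
      |G zc x * ‖x‖ ^ (5 / 24 : ℝ) - A| ≤ ε := by
  have hn0 : (atTop ⊓ 𝓟 {m : ℕ | Even m}).NeBot := by
    rw [Filter.inf_principal_neBot_iff]
    intro s hs
    obtain ⟨n, hn⟩ := mem_atTop_sets.1 hs
    exact ⟨2 * n, hn _ (by omega), even_two_mul n⟩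
  have hn1 : (atTop ⊓ 𝓟 {m : ℕ | ¬Even m}).NeBot := by
    rw [Filter.inf_principal_neBot_iff]
    intro s hs
    obtain ⟨n, hn⟩ := mem_atTop_sets.1 hs
    refine ⟨2 * n + 1, hn _ (by omega), ?_⟩
    show ¬Even (2 * n + 1)
    rw [Nat.not_even_iff_odd]
    exact odd_two_mul_add_one n
  refine pubA_fin hb hE (HexObs.PLN.plax_two ?_ ?_ (ratio_PG hT hb hE hR)) hR
  · exact HexObs.PLN.plax_of_rays inf_le_left h0
  · exact HexObs.PLN.plax_of_rays inf_le_left h1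

end Pool.Agent.PLN
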