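import Pool.Agent.PHK.RaysFin
import Pool.Agent.PLN.PubZ
import Pool.Agent.PLC.Fin

/-!
# PLAX, public form: the critical two-point function near the six directions of the rows (helper12)
-/

set_option autoImplicit false
set_option linter.unusedSectionVars false

open MeasureTheory Filter Topology

namespace Pool.Agent.PLN

open Pool.Agent.IW.Res Pool.Agent.PLC.Res Pool.Agent.PLC

/-- **the critical two-point function near the six directions of the rows** -/
theorem pubA :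
    ∃ A : ℝ, 0 < A ∧ ∀ ε : ℝ, 0 < ε → ∃ δ : ℝ, 0 < δ ∧ ∀ x ∈ vertices, 1 / δ ≤ ‖x‖ →
      (∃ j : ℤ, ‖x / ‖x‖ - Complex.exp (Complex.I * (Real.pi : ℂ) * (2 * (j : ℂ) + 1) / 6)‖ ≤ δ) →
      |G zc x * ‖x‖ ^ (5 / 24 : ℝ) - A| ≤ ε := by
  obtain ⟨⟨P, hP, -, hb⟩, -⟩ := HexObs.TIW.iw
  have hb' : BP P := hb
  obtain ⟨h0, h1⟩ := Pool.Agent.PLX.rays_fin
  exact pubA_rays tpb hb' (eP hb') (rP hb') h0 h1

end Pool.Agent.PLN
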