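import Pool.Agent.PLT.EndT
import Pool.Agent.PHK.RaysX
import Pool.Agent.PLC.Fin

/-!
# The critical two-point function in every direction, from the blocks (helper12)

* **`pubAll_of`** : `G(x) |x|^(5/24) → A > 0` as `|x| → ∞`, from `PLT.FS.ThH` in every direction.
-/

set_option autoImplicit false
set_option linter.unusedSectionVars false

open MeasureTheory Filter Topology

namespace Pool.Agent.PLN

open Pool.Agent.IW.Res Pool.Agent.PLC.Res Pool.Agent.PLC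

/-- **the critical two-point function of the plane** -/
theorem pubAll_of (h : ∀ a b q : ℕ, 1 ≤ a → a < b → 1 ≤ q → ∃ J I Y u, PLT.FS.ThH q a b J I Y u) :
    ∃ A : ℝ, 0 < A ∧ ∀ ε : ℝ, 0 < ε → ∃ δ : ℝ, 0 < δ ∧ ∀ x ∈ vertices, 1 / δ ≤ ‖x‖ →
      |G zc x * ‖x‖ ^ (5 / 24 : ℝ) - A| ≤ ε := by
  obtain ⟨⟨P, hP, -, hb⟩, -⟩ := HexObs.TIW.iw
  have hb' : BP P := hb
  obtain ⟨A, hA⟩ := PLT.FS.endT (Q := {q | 1 ≤ q}) (c0 := 1 / 2) (by norm_num)
    (g := fun q j => Pool.Agent.PLX.bP (Pool.Agent.PLX.f0Q q) j 0)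
    (fun q hq => Pool.Agent.PLX.funO2_P hq) (fun a b ha hab q hq => h a b q ha hab hq)
  exact Pool.Agent.THJ.plane_all tpb hb' (eP hb') (rP hb') (fun B => ⟨B + 1, by simp, by omega⟩) hA

end Pool.Agent.PLN
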