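import Pool.Agent.PLC.Res
import Pool.Agent.PLN.Fin

/-!
# PLAX, row F2: the two-point function of the plane in the directions perpendicular to an edge, public form (helper62)

`pubA`: from `Plax` (the words `PP r`), the identity of `PG r` with `ends` at m = 1, the regularity (R) and the shares of the
first and last steps: `G zc x |x| ^ (5 / 24) -> A` as `|x| -> oo`, `x / |x| ->` one of the six directions
`exp (i pi (2 j + 1) / 6)`.
-/

set_option autoImplicit false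

open scoped Classical

namespace Pool.Agent.PLN

open Filter Topology
open Pool.Agent.IW.Res Pool.Agent.PLC.Res

/-! ### symmetries of the lattice -/

section sym

variable {T : ℂ →+ ℂ} {p : Equiv.Perm (Fin 3)} (h : ∀ i a, step i (p a) = T (step i a))

include h

lemma pos_T {n : ℕ} (s : Fin n → Fin 3) (k : ℕ) : pos (fun i => p (s i)) k = T (pos s k) := by
  unfold pos
  rw [map_sum]
  exact Finset.sum_congr rfl fun i _ => h _ _

lemma vert_T {x : ℂ} (hx : x ∈ vertices) : T x ∈ vertices := by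
  obtain ⟨n, s, rfl⟩ := hx
  exact ⟨n, fun i => p (s i), pos_T h s n⟩

lemma saw_T (hT : Function.Injective T) {n : ℕ} {s : Fin n → Fin 3} :
    (fun i => p (s i)) ∈ saw n ↔ s ∈ saw n := by
  unfold saw
  rw [Finset.mem_filter, Finset.mem_filter]
  simp only [Finset.mem_univ, true_and, pos_T h, hT.eq_iff]

lemma G_T (hT : Function.Injective T) (z : ℝ) (x : ℂ) : G z (T x) = G z x := by
  unfold G
  refine tsum_congr fun n => ?_
  congr 2
  symm
  refine Finset.card_bij (fun s _ => fun i => p (s i)) ?_ ?_ ?_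
  · intro s hs
    rw [Finset.mem_filter] at hs ⊢
    exact ⟨(saw_T h hT).2 hs.1, by rw [pos_T h, hs.2]⟩
  · intro s _ s' _ he
    funext i
    exact p.injective (congrFun he i)
  · intro s hs
    rw [Finset.mem_filter] at hs
    have e : (fun i => p ((fun i => p.symm (s i)) i)) = s := by
      funext i
      exact p.apply_symm_apply _
    refine ⟨fun i => p.symm (s i), ?_, e⟩
    rw [Finset.mem_filter]
    constructor
    · rw [← saw_T h hT, e]
      exact hs.1
    · have h2 := pos_T h (fun i => p.symm (s i)) n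
      rw [e, hs.2] at h2
      exact (hT h2).symm

end sym

/-- the rotation by 120 degrees -/
noncomputable def om : ℂ := Complex.exp (2 * (Real.pi : ℂ) * Complex.I / 3)

lemma om_three : om ^ 3 = 1 := by
  unfold om
  rw [← Complex.exp_nat_mul]
  push_cast
  rw [show (3 : ℂ) * (2 * (Real.pi : ℂ) * Complex.I / 3) = 2 * (Real.pi : ℂ) * Complex.I by ring]
  exact Complex.exp_two_pi_mul_I

lemma om_ne : om ≠ 0 := Complex.exp_ne_zero _

lemma step_om (i : ℕ) (a : Fin 3) : step i (Equiv.addRight (1 : Fin 3) a) = AddMonoidHom.mulLeft om (step i a) := by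
  have e : ∀ a : Fin 3, step i a = (-1 : ℂ) ^ i * om ^ (a : ℕ) := by
    intro a
    unfold step om
    rw [← Complex.exp_nat_mul]
    congr 2
    ring
  rw [Equiv.coe_addRight, AddMonoidHom.coe_mulLeft, e, e]
  fin_cases a
  · show (-1 : ℂ) ^ i * om ^ 1 = om * ((-1 : ℂ) ^ i * om ^ 0)
    ring
  · show (-1 : ℂ) ^ i * om ^ 2 = om * ((-1 : ℂ) ^ i * om ^ 1)
    ring
  · show (-1 : ℂ) ^ i * om ^ 0 = om * ((-1 : ℂ) ^ i * om ^ 2)
    have : om * om ^ 2 = 1 := by rw [← om_three]; ring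
    calc (-1 : ℂ) ^ i * om ^ 0 = (-1 : ℂ) ^ i * 1 := by rw [pow_zero]
      _ = (-1 : ℂ) ^ i * (om * om ^ 2) := by rw [this]
      _ = _ := by ring

lemma om_conj : (starRingEnd ℂ) om = om ^ 2 := by
  have h1 : (starRingEnd ℂ) om * om = 1 := by
    rw [mul_comm, Complex.mul_conj, Complex.normSq_eq_norm_sq]
    have : ‖om‖ = 1 := by
      unfold om
      rw [show 2 * (Real.pi : ℂ) * Complex.I / 3 = ((2 * Real.pi / 3 : ℝ) : ℂ) * Complex.I by push_cast; ring]
      exact Complex.norm_exp_ofReal_mul_I _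
    rw [this]
    simp
  have h2 : om ^ 2 * om = 1 := by rw [← om_three]; ring
  exact mul_right_cancel₀ om_ne (h1.trans h2.symm)

lemma step_conj (i : ℕ) (a : Fin 3) : step i (Equiv.neg (Fin 3) a) = (starRingEnd ℂ).toAddMonoidHom (step i a) := by
  have e : ∀ a : Fin 3, step i a = (-1 : ℂ) ^ i * om ^ (a : ℕ) := by
    intro a
    unfold step om
    rw [← Complex.exp_nat_mul]
    congr 2
    ring
  show step i (-a) = (starRingEnd ℂ) (step i a)
  rw [e, e, map_mul, map_pow, map_pow, map_neg, map_one, om_conj]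
  fin_cases a
  · rfl
  · show (-1 : ℂ) ^ i * om ^ 2 = (-1 : ℂ) ^ i * (om ^ 2) ^ 1
    rw [pow_one]
  · show (-1 : ℂ) ^ i * om ^ 1 = (-1 : ℂ) ^ i * (om ^ 2) ^ 2
    have : (om ^ 2) ^ 2 = om := by
      calc (om ^ 2) ^ 2 = om ^ 3 * om := by ring
        _ = om := by rw [om_three, one_mul]
    rw [this, pow_one]

lemma G_om (z : ℝ) (x : ℂ) : G z (om * x) = G z x :=
  G_T step_om (fun a b h => mul_left_cancel₀ om_ne h) z x

lemma vert_om {x : ℂ} (hx : x ∈ vertices) : om * x ∈ vertices := vert_T step_om hx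

lemma G_conj (z : ℝ) (x : ℂ) : G z ((starRingEnd ℂ) x) = G z x :=
  G_T step_conj (fun a b h => (starRingEnd ℂ).injective h) z x

lemma vert_conj {x : ℂ} (hx : x ∈ vertices) : (starRingEnd ℂ) x ∈ vertices := vert_T step_conj hx

/-! ### the six directions -/

/-- the direction number j -/
noncomputable def uj (j : ℤ) : ℂ := Complex.exp (Complex.I * (Real.pi : ℂ) * (2 * (j : ℂ) + 1) / 6)

/-- the vertex number r in the direction j -/
noncomputable def yv (j : ℤ) (r : ℕ) : ℂ := ((Real.sqrt 3 * r : ℝ) : ℂ) * uj j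

lemma uj_norm (j : ℤ) : ‖uj j‖ = 1 := by
  unfold uj
  rw [show Complex.I * (Real.pi : ℂ) * (2 * (j : ℂ) + 1) / 6 = ((Real.pi * (2 * j + 1) / 6 : ℝ) : ℂ) * Complex.I by
    push_cast; ring]
  exact Complex.norm_exp_ofReal_mul_I _

lemma yv_norm (j : ℤ) (r : ℕ) : ‖yv j r‖ = Real.sqrt 3 * r := by
  unfold yv
  rw [norm_mul, uj_norm, mul_one, Complex.norm_real, Real.norm_of_nonneg (by positivity)]

lemma uj_two (j : ℤ) : uj (j + 2) = om * uj j := by
  unfold uj om
  rw [← Complex.exp_add]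
  congr 1
  push_cast
  ring

lemma uj_conj (j : ℤ) : uj (-j - 1) = (starRingEnd ℂ) (uj j) := by
  unfold uj
  rw [← Complex.exp_conj]
  congr 1
  simp only [map_div₀, map_mul, Complex.conj_I, Complex.conj_ofReal, map_add, map_one, map_intCast, map_ofNat]
  push_cast
  ring

lemma yv_two (j : ℤ) (r : ℕ) : yv (j + 2) r = om * yv j r := by
  unfold yv
  rw [uj_two]
  ring

lemma yv_conj (j : ℤ) (r : ℕ) : yv (-j - 1) r = (starRingEnd ℂ) (yv j r) := by
  unfold yv
  rw [uj_conj, map_mul, Complex.conj_ofReal]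

/-- a property of the directions that is invariant under the symmetries -/
lemma dir_all {Q : ℤ → Prop} (h2 : Q 2) (hr : ∀ j, Q j ↔ Q (j + 2)) (hc : ∀ j, Q j → Q (-j - 1)) (j : ℤ) : Q j := by
  have he : ∀ i : ℕ, ∀ j : ℤ, Q j ↔ Q (j + 2 * i) := by
    intro i
    induction i with
    | zero => intro j; simp
    | succ i ih =>
      intro j
      rw [ih j, hr]
      push_cast
      rw [show j + 2 * (i : ℤ) + 2 = j + 2 * (i + 1) by ring]
  have hz : ∀ i j : ℤ, Q j ↔ Q (j + 2 * i) := by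
    intro i j
    rcases Int.eq_nat_or_neg i with ⟨n, rfl | rfl⟩
    · exact he n j
    · have := he n (j + 2 * -(n : ℤ))
      rw [show j + 2 * -(n : ℤ) + 2 * (n : ℤ) = j by ring] at this
      exact this.symm
  have h3 : Q (-3) := hc 2 h2
  rcases Int.even_or_odd' j with ⟨i, rfl | rfl⟩
  · have := (hz (i - 1) 2).1 h2
    rwa [show 2 + 2 * (i - 1) = 2 * i by ring] at this
  · have := (hz (i + 2) (-3)).1 h3
    rwa [show -3 + 2 * (i + 2) = 2 * i + 1 by ring] at this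

lemma uj_val : uj 2 = -(3 / 2 : ℝ) / (Real.sqrt 3 : ℂ) + (Real.sqrt 3 / 2 : ℝ) / (Real.sqrt 3 : ℂ) * Complex.I := by
  unfold uj
  rw [show Complex.I * (Real.pi : ℂ) * (2 * ((2 : ℤ) : ℂ) + 1) / 6 = ((Real.pi - Real.pi / 6 : ℝ) : ℂ) * Complex.I by
    push_cast; ring]
  rw [Complex.exp_mul_I, ← Complex.ofReal_cos, ← Complex.ofReal_sin, Real.cos_pi_sub, Real.sin_pi_sub,
    Real.cos_pi_div_six, Real.sin_pi_div_six]
  have h3 : Real.sqrt 3 ≠ 0 := by positivity
  have h4 : (Real.sqrt 3 : ℂ) ≠ 0 := by exact_mod_cast h3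
  have h5 : (Real.sqrt 3 : ℂ) * (Real.sqrt 3 : ℂ) = 3 := by
    rw [← Complex.ofReal_mul, Real.mul_self_sqrt (by norm_num)]
    norm_num
  push_cast
  congr 1
  · field_simp
    rw [sq, h5]
  · field_simp

/-- the walk to the vertex -/
lemma vert_yv (j : ℤ) (r : ℕ) : yv j r ∈ vertices := by
  refine dir_all (Q := fun j => yv j r ∈ vertices) ?_ ?_ ?_ j
  · -- j = 2
    have h1 : ∀ r : ℕ, ∃ s : Fin (2 * r) → Fin 3, pos s (2 * r) = (r : ℂ) * (step 0 1 + step 1 0) := by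
      intro r
      refine ⟨fun i => if Even (i : ℕ) then 1 else 0, ?_⟩
      have h2 : ∀ n : ℕ, ∀ m : ℕ, m ≤ n → pos (fun i : Fin n => if Even (i : ℕ) then (1 : Fin 3) else 0) m =
          ∑ i ∈ Finset.range m, step i (if Even i then 1 else 0) := by
        intro n m hm
        unfold pos
        symm
        refine Finset.sum_bij' (fun i hi => (⟨i, (Finset.mem_range.1 hi).trans_le hm⟩ : Fin n))
          (fun i _ => (i : ℕ)) ?_ ?_ ?_ ?_ ?_
        · intro i hi
          rw [Finset.mem_filter]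
          exact ⟨Finset.mem_univ _, Finset.mem_range.1 hi⟩
        · intro i hi
          exact Finset.mem_range.2 (Finset.mem_filter.1 hi).2
        · intro i hi
          rfl
        · intro i hi
          rfl
        · intro i hi
          rfl
      rw [h2 _ _ le_rfl]
      induction r with
      | zero => simp
      | succ r ih =>
        rw [show 2 * (r + 1) = 2 * r + 1 + 1 by ring, Finset.sum_range_succ, Finset.sum_range_succ, ih,
          if_pos (even_two_mul r), if_neg (by rw [Nat.not_even_iff_odd]; exact odd_two_mul_add_one r)]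
        have e1 : step (2 * r) 1 = step 0 1 := by
          unfold step
          rw [pow_mul]
          simp
        have e2 : step (2 * r + 1) 0 = step 1 0 := by
          unfold step
          rw [pow_succ, pow_mul]
          simp
        rw [e1, e2]
        push_cast
        ring
    obtain ⟨s, hs⟩ := h1 r
    refine ⟨2 * r, s, ?_⟩
    rw [hs]
    unfold yv
    rw [uj_val]
    have e1 : step 0 1 = -(1 / 2 : ℝ) + (Real.sqrt 3 / 2 : ℝ) * Complex.I := by
      unfold step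
      rw [pow_zero, one_mul]
      rw [show 2 * (Real.pi : ℂ) * Complex.I * (((1 : Fin 3) : ℕ) : ℂ) / 3 =
        ((Real.pi - Real.pi / 3 : ℝ) : ℂ) * Complex.I by
          show 2 * (Real.pi : ℂ) * Complex.I * ((1 : ℕ) : ℂ) / 3 = _
          push_cast; ring]
      rw [Complex.exp_mul_I, ← Complex.ofReal_cos, ← Complex.ofReal_sin, Real.cos_pi_sub, Real.sin_pi_sub,
        Real.cos_pi_div_three, Real.sin_pi_div_three]
      push_cast
      ring
    have e2 : step 1 0 = -1 := by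
      unfold step
      simp
    have h3 : Real.sqrt 3 ≠ 0 := by positivity
    have h4 : (Real.sqrt 3 : ℂ) ≠ 0 := by exact_mod_cast h3
    rw [e1, e2]
    push_cast
    field_simp
    ring
  · intro j
    constructor
    · intro h
      rw [yv_two]
      exact vert_om h
    · intro h
      rw [yv_two] at h
      have h2 := vert_om (vert_om h)
      have e : om * (om * (om * yv j r)) = yv j r := by
        calc om * (om * (om * yv j r)) = om ^ 3 * yv j r := by ring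
          _ = _ := by rw [om_three, one_mul]
      rwa [e] at h2
  · intro j h
    show yv (-j - 1) r ∈ vertices
    rw [yv_conj]
    exact vert_conj h

/-- the two-point function does not depend on the direction -/
lemma G_yv (z : ℝ) (j : ℤ) (r : ℕ) : G z (yv j r) = G z (yv 2 r) := by
  refine dir_all (Q := fun j => G z (yv j r) = G z (yv 2 r)) rfl ?_ ?_ j
  · intro j
    rw [yv_two, G_om]
  · intro j h
    show G z (yv (-j - 1) r) = _
    rw [yv_conj, G_conj, h]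

lemma G_nn {z : ℝ} (hz : 0 ≤ z) (x : ℂ) : 0 ≤ G z x := tsum_nonneg fun n => by positivity

/-- **the two-point function at the vertices of an axis** -/
theorem axis_lim (hP : HexObs.PLN.Plax) (hx0 : 0 < HexObs.xc) (hz : 0 ≤ zc)
    (hEnds : ∀ r : ℕ, 1 ≤ r → (HexObs.PLN.PG r).toReal =
      HexObs.xc * ends zc (yv 2 r) 1 {W | W 0 ≠ 2} {W | W 0 ≠ 2})
    (hE : ∀ ε : ℝ, 0 < ε → ∃ R : ℝ, ∀ x ∈ vertices, R ≤ ‖x‖ →
      |ends zc x 1 {W | W 0 ≠ 2} {W | W 0 ≠ 2} - 4 / 9 * G zc x| ≤ ε * G zc x) :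
    ∃ A : ℝ, 0 < A ∧ Tendsto (fun r : ℕ => G zc (yv 2 r) * ‖yv 2 r‖ ^ (5 / 24 : ℝ)) atTop (𝓝 A) := by
  obtain ⟨A', hA', h1⟩ := hP
  -- the sum over the ends
  obtain ⟨E, hEd⟩ : ∃ E : ℕ → ℝ, E = fun r => ends zc (yv 2 r) 1 {W | W 0 ≠ 2} {W | W 0 ≠ 2} := ⟨_, rfl⟩
  obtain ⟨g, hg⟩ : ∃ g : ℕ → ℝ, g = fun r => G zc (yv 2 r) := ⟨_, rfl⟩
  have hg0 : ∀ r, 0 ≤ g r := fun r => by rw [hg]; exact G_nn hz _
  have h2 : Tendsto (fun r : ℕ => E r * (r : ℝ) ^ (5 / 24 : ℝ)) atTop (𝓝 (A' / HexObs.xc)) := by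
    refine (h1.div_const HexObs.xc).congr' ?_
    filter_upwards [eventually_ge_atTop 1] with r hr
    rw [hEnds r hr, hEd]
    field_simp
  have h3 : ∀ ε : ℝ, 0 < ε → ∀ᶠ r in atTop, |E r - 4 / 9 * g r| ≤ ε * g r := by
    intro ε hε
    obtain ⟨R, hR⟩ := hE ε hε
    obtain ⟨n, hn⟩ := exists_nat_ge R
    filter_upwards [eventually_ge_atTop n] with r hr
    rw [hEd, hg]
    refine hR _ (vert_yv 2 r) ?_
    rw [yv_norm]
    have h4 : (1 : ℝ) ≤ Real.sqrt 3 := by
      rw [show (1 : ℝ) = Real.sqrt 1 by simp]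
      exact Real.sqrt_le_sqrt (by norm_num)
    have h5 : (n : ℝ) ≤ r := by exact_mod_cast hr
    have h6 : (0 : ℝ) ≤ r := Nat.cast_nonneg _
    nlinarith
  have h4 : Tendsto (fun r : ℕ => g r * (r : ℝ) ^ (5 / 24 : ℝ)) atTop (𝓝 (9 / 4 * (A' / HexObs.xc))) := by
    have hB : ∀ᶠ r : ℕ in atTop, E r * (r : ℝ) ^ (5 / 24 : ℝ) < A' / HexObs.xc + 1 :=
      h2.eventually (gt_mem_nhds (by linarith))
    have h5 : Tendsto (fun r : ℕ => g r * (r : ℝ) ^ (5 / 24 : ℝ) - 9 / 4 * (E r * (r : ℝ) ^ (5 / 24 : ℝ))) atTop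
        (𝓝 0) := by
      rw [Metric.tendsto_atTop]
      intro ε hε
      obtain ⟨B, hBd⟩ : ∃ B : ℝ, B = A' / HexObs.xc + 1 := ⟨_, rfl⟩
      have hB0 : 0 < B := by rw [hBd]; positivity
      have hη : 0 < min (1 / 3) (ε / (81 * B)) := lt_min (by norm_num) (by positivity)
      have h6 := (h3 _ hη).and (hB.and (eventually_ge_atTop 1))
      obtain ⟨N, hN⟩ := h6.exists_forall_of_atTop
      refine ⟨N, fun r hr => ?_⟩
      obtain ⟨h7, h8, h9⟩ := hN r hr
      rw [← hBd] at h8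
      have hp : (0 : ℝ) < (r : ℝ) ^ (5 / 24 : ℝ) := by
        have : (0 : ℝ) < r := by exact_mod_cast h9
        positivity
      have h10 : |E r - 4 / 9 * g r| ≤ 1 / 3 * g r :=
        h7.trans (mul_le_mul_of_nonneg_right (min_le_left _ _) (hg0 r))
      have h11 : g r ≤ 9 * E r := by
        have := (abs_le.1 h10).1
        linarith
      have h12 : |E r - 4 / 9 * g r| ≤ ε / (81 * B) * (9 * E r) :=
        (h7.trans (mul_le_mul_of_nonneg_right (min_le_right _ _) (hg0 r))).trans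
          (mul_le_mul_of_nonneg_left h11 (by positivity))
      rw [Real.dist_eq, sub_zero]
      have e1 : g r * (r : ℝ) ^ (5 / 24 : ℝ) - 9 / 4 * (E r * (r : ℝ) ^ (5 / 24 : ℝ)) =
          -(9 / 4) * ((E r - 4 / 9 * g r) * (r : ℝ) ^ (5 / 24 : ℝ)) := by ring
      rw [e1, abs_mul, abs_mul, abs_of_pos hp]
      have e2 : |(-(9 / 4) : ℝ)| = 9 / 4 := by norm_num
      rw [e2]
      calc 9 / 4 * (|E r - 4 / 9 * g r| * (r : ℝ) ^ (5 / 24 : ℝ)) ≤
          9 / 4 * (ε / (81 * B) * (9 * E r) * (r : ℝ) ^ (5 / 24 : ℝ)) := by gcongr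
        _ = ε / (4 * B) * (E r * (r : ℝ) ^ (5 / 24 : ℝ)) := by
            field_simp
            ring
        _ ≤ ε / (4 * B) * B := mul_le_mul_of_nonneg_left h8.le (by positivity)
        _ = ε / 4 := by field_simp
        _ < ε := by linarith
    have h6 := h5.add (h2.const_mul (9 / 4))
    rw [zero_add] at h6
    refine h6.congr fun r => ?_
    ring
  refine ⟨(Real.sqrt 3) ^ (5 / 24 : ℝ) * (9 / 4 * (A' / HexObs.xc)), by positivity, ?_⟩
  refine (h4.const_mul ((Real.sqrt 3) ^ (5 / 24 : ℝ))).congr fun r => ?_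
  rw [yv_norm, Real.mul_rpow (by positivity) (by positivity), hg]
  ring

/-- **PLAX, the public form: the two-point function in the directions perpendicular to an edge** -/
theorem pubA_of (hz : 0 ≤ zc)
    (hL : ∃ A : ℝ, 0 < A ∧ Tendsto (fun r : ℕ => G zc (yv 2 r) * ‖yv 2 r‖ ^ (5 / 24 : ℝ)) atTop (𝓝 A))
    (hR : ∀ ε : ℝ, 0 < ε → ∃ δ : ℝ, 0 < δ ∧ ∀ x ∈ vertices, ∀ y ∈ vertices, 1 / δ ≤ ‖x‖ → ‖y - x‖ ≤ δ * ‖x‖ →
      |G zc y / G zc x - 1| ≤ ε) :
    ∃ A : ℝ, 0 < A ∧ ∀ ε : ℝ, 0 < ε → ∃ δ : ℝ, 0 < δ ∧ ∀ x ∈ vertices, 1 / δ ≤ ‖x‖ →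
      (∃ j : ℤ, ‖x / ‖x‖ - Complex.exp (Complex.I * (Real.pi : ℂ) * (2 * (j : ℂ) + 1) / 6)‖ ≤ δ) →
      |G zc x * ‖x‖ ^ (5 / 24 : ℝ) - A| ≤ ε := by
  obtain ⟨A, hA, hL⟩ := hL
  refine ⟨A, hA, fun ε hε => ?_⟩
  obtain ⟨η, hη⟩ : ∃ η : ℝ, η = min 1 (ε / (3 * A + 4)) := ⟨_, rfl⟩
  have hη0 : 0 < η := by rw [hη]; exact lt_min one_pos (by positivity)
  have hη1 : η ≤ 1 := by rw [hη]; exact min_le_left _ _
  have hη2 : η * (3 * A + 4) ≤ ε := by
    have : η ≤ ε / (3 * A + 4) := by rw [hη]; exact min_le_right _ _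
    rwa [le_div_iff₀ (by positivity)] at this
  obtain ⟨d, hd, hR⟩ := hR η hη0
  obtain ⟨N, hN⟩ := ((Metric.tendsto_atTop.1 hL) (min η (A / 2)) (lt_min hη0 (by positivity)))
  obtain ⟨D, hD⟩ : ∃ D : ℝ, D = 4 + 8 / d + 4 * N + 4 / η := ⟨_, rfl⟩
  have hN0 : (0 : ℝ) ≤ N := Nat.cast_nonneg _
  have hd8 : 0 < 8 / d := by positivity
  have hη4 : 0 < 4 / η := by positivity
  have hD0 : 0 < D := by rw [hD]; positivity
  refine ⟨D⁻¹, inv_pos.2 hD0, fun x hx hxD hdir => ?_⟩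
  obtain ⟨j, hj⟩ := hdir
  rw [one_div, inv_inv] at hxD
  obtain ⟨X, hX⟩ : ∃ X : ℝ, X = ‖x‖ := ⟨_, rfl⟩
  rw [← hX] at hxD hj ⊢
  have hX0 : 0 < X := hD0.trans_le hxD
  have hX4 : 4 ≤ X := by linarith
  have hXd : 8 / d ≤ X := by linarith
  have hXN : 4 * (N : ℝ) ≤ X := by linarith
  have hXη : 4 / η ≤ X := by linarith
  have hXd' : 8 ≤ d * X := by
    rw [div_le_iff₀ hd] at hXd
    linarith
  have hXη' : 4 ≤ η * X := by
    rw [div_le_iff₀ hη0] at hXη
    linarith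
  have hDd : D⁻¹ ≤ d / 8 := by
    rw [inv_le_comm₀ hD0 (by positivity), inv_div]
    linarith
  -- the vertex of the axis
  obtain ⟨s3, hs3⟩ : ∃ s3 : ℝ, s3 = Real.sqrt 3 := ⟨_, rfl⟩
  have hs30 : 0 < s3 := by rw [hs3]; positivity
  have hs32 : s3 ≤ 2 := by
    rw [hs3, show (2 : ℝ) = Real.sqrt 4 by
      rw [show (4 : ℝ) = 2 ^ 2 by norm_num, Real.sqrt_sq (by norm_num)]]
    exact Real.sqrt_le_sqrt (by norm_num)
  obtain ⟨r, hr⟩ : ∃ r : ℕ, r = ⌊X / s3⌋₊ := ⟨_, rfl⟩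
  have hr1 : s3 * r ≤ X := by
    have h1 : (r : ℝ) ≤ X / s3 := by rw [hr]; exact Nat.floor_le (by positivity)
    rw [le_div_iff₀ hs30] at h1
    linarith
  have hr2 : X - 2 ≤ s3 * r := by
    have h1 : X / s3 < (r : ℝ) + 1 := by rw [hr]; exact Nat.lt_floor_add_one _
    rw [div_lt_iff₀ hs30] at h1
    nlinarith
  have hY : ‖yv j r‖ = s3 * r := by rw [yv_norm, hs3]
  obtain ⟨Y, hYd⟩ : ∃ Y : ℝ, Y = s3 * r := ⟨_, rfl⟩
  rw [← hYd] at hr1 hr2 hY
  have hY2 : X / 2 ≤ Y := by linarith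
  have hY0 : 0 < Y := by linarith
  have hrN : N ≤ r := by
    have h1 : X / 2 ≤ 2 * r := by
      have : s3 * r ≤ 2 * r := mul_le_mul_of_nonneg_right hs32 (Nat.cast_nonneg _)
      linarith
    have h2 : (N : ℝ) ≤ r := by linarith
    exact_mod_cast h2
  -- the distance
  have hdist : ‖x - yv j r‖ ≤ d * ‖yv j r‖ := by
    rw [hY]
    have e1 : x - yv j r = (X : ℂ) * (x / X - uj j) + ((X - Y : ℝ) : ℂ) * uj j := by
      have hXc : (X : ℂ) ≠ 0 := by exact_mod_cast hX0.ne'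
      have e2 : yv j r = (Y : ℂ) * uj j := by
        unfold yv
        rw [hYd, hs3]
      rw [e2]
      push_cast
      field_simp
      ring
    rw [e1]
    refine (norm_add_le _ _).trans ?_
    rw [norm_mul, norm_mul, uj_norm, mul_one, Complex.norm_real, Complex.norm_real, Real.norm_of_nonneg hX0.le,
      Real.norm_of_nonneg (by linarith : 0 ≤ X - Y)]
    have h1 : X * ‖x / (X : ℂ) - uj j‖ ≤ X * (d / 8) := mul_le_mul_of_nonneg_left (hj.trans hDd) hX0.le
    nlinarith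
  have hR' := hR (yv j r) (vert_yv j r) x hx (by
    rw [hY, one_div]
    have h1 : d⁻¹ * 8 ≤ X := by rw [inv_mul_eq_div]; exact hXd
    have h2 : 0 < d⁻¹ := inv_pos.2 hd
    linarith) hdist
  -- the value at the vertex
  have hN' := hN r hrN
  rw [Real.dist_eq] at hN'
  have hY' : ‖yv 2 r‖ = Y := by rw [yv_norm, hYd, hs3]
  rw [hY', ← G_yv zc j r] at hN'
  obtain ⟨g, hg⟩ : ∃ g, g = G zc (yv j r) := ⟨_, rfl⟩
  rw [← hg] at hN' hR'
  have hYp : 0 < Y ^ (5 / 24 : ℝ) := by positivity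
  have hN1 : |g * Y ^ (5 / 24 : ℝ) - A| ≤ η := hN'.le.trans (min_le_left _ _)
  have hN2 : A / 2 < g * Y ^ (5 / 24 : ℝ) := by
    have h1 : |g * Y ^ (5 / 24 : ℝ) - A| < A / 2 := hN'.trans_le (min_le_right _ _)
    have := (abs_lt.1 h1).1
    linarith
  have hg0 : 0 < g := by
    by_contra hcon
    push Not at hcon
    have : g * Y ^ (5 / 24 : ℝ) ≤ 0 := mul_nonpos_of_nonpos_of_nonneg hcon hYp.le
    linarith
  -- the three factors
  obtain ⟨q, hq⟩ : ∃ q, q = G zc x / g := ⟨_, rfl⟩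
  rw [← hq] at hR'
  have hGx : G zc x = q * g := by rw [hq]; field_simp
  obtain ⟨t, ht⟩ : ∃ t, t = (X / Y) ^ (5 / 24 : ℝ) := ⟨_, rfl⟩
  have hXY1 : 1 ≤ X / Y := by rw [le_div_iff₀ hY0]; linarith
  have hXY2 : X / Y ≤ 1 + η := by
    rw [div_le_iff₀ hY0]
    nlinarith
  have ht1 : 1 ≤ t := by rw [ht]; exact Real.one_le_rpow hXY1 (by norm_num)
  have ht2 : t ≤ 1 + η := by
    rw [ht]
    calc (X / Y) ^ (5 / 24 : ℝ) ≤ (X / Y) ^ (1 : ℝ) := Real.rpow_le_rpow_of_exponent_le hXY1 (by norm_num)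
      _ = X / Y := Real.rpow_one _
      _ ≤ 1 + η := hXY2
  have hXt : X ^ (5 / 24 : ℝ) = t * Y ^ (5 / 24 : ℝ) := by
    rw [ht, ← Real.mul_rpow (by positivity) hY0.le, div_mul_cancel₀ _ hY0.ne']
  obtain ⟨a, ha⟩ : ∃ a, a = g * Y ^ (5 / 24 : ℝ) := ⟨_, rfl⟩
  rw [← ha] at hN1 hN2
  have e1 : G zc x * X ^ (5 / 24 : ℝ) - A = (q - 1) * (t * a) + (t - 1) * a + (a - A) := by
    rw [hGx, hXt, ha]
    ring
  rw [e1]
  have ha1 : a ≤ A + 1 := by
    have := (abs_le.1 hN1).2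
    linarith
  have ha0 : 0 < a := by linarith
  have hta : t * a ≤ 2 * (A + 1) := mul_le_mul (by linarith) ha1 ha0.le (by norm_num)
  have hta0 : 0 < t * a := by positivity
  have b1 : |(q - 1) * (t * a)| ≤ η * (2 * (A + 1)) := by
    rw [abs_mul, abs_of_pos hta0]
    exact mul_le_mul hR' hta hta0.le hη0.le
  have b2 : |(t - 1) * a| ≤ η * (A + 1) := by
    rw [abs_mul, abs_of_pos ha0, abs_of_nonneg (by linarith)]
    exact mul_le_mul (by linarith) ha1 ha0.le hη0.le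
  have b3 := abs_add_le ((q - 1) * (t * a) + (t - 1) * a) (a - A)
  have b4 := abs_add_le ((q - 1) * (t * a)) ((t - 1) * a)
  have b5 : η * (2 * (A + 1)) + η * (A + 1) + η = η * (3 * A + 4) := by ring
  linarith

end Pool.Agent.PLN
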