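import Pool.Agent.PLN.Defs

/-!
# PLAX: the rest of a word (the first letter dropped, reflected after a left turn) is a self-avoiding word (helper62)
-/

set_option autoImplicit false

namespace HexObs

namespace PLN

open Finset TS SDN NTW NTA TPC

open scoped ENNReal

/-- the vertices of the word and of its rest -/
theorem rst_spec {t : List Bool} (ht : 1 ≤ t.length) : ∃ (φ : Pt → Pt) (σ : ℤ), (σ = 1 ∨ σ = -1) ∧
    t.length = (rst t).length + 1 ∧ (∀ i, i ≤ (rst t).length → vx oo up t (i + 1) = up + φ (vx oo up (rst t) i)) ∧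
    (∀ p q n, φ p = φ q + (-2 * (σ * n), σ * n) ↔ p = q + (n, n)) ∧ (∀ p q, φ p = φ q ↔ p = q) ∧
    (∀ p n, φ p = (-2 * n, n) ↔ p = (σ * n, σ * n)) := by
  obtain ⟨b, s, rfl⟩ : ∃ b s, t = b :: s := by
    rcases t with _ | ⟨b, s⟩
    · simp at ht
    · exact ⟨b, s, rfl⟩
  cases b
  · have e0 : rst (false :: s) = s := by simp [rst]
    refine ⟨fun p => (p.1 + p.2, -p.1), -1, Or.inr rfl, ?_, ?_, ?_, ?_, ?_⟩
    · rw [e0, List.length_cons]
    · intro i _
      rw [e0]
      exact vx_fr s i
    · rintro ⟨p1, p2⟩ ⟨q1, q2⟩ n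
      simp only [Prod.mk_add_mk, Prod.mk.injEq]
      constructor
      · rintro ⟨h1, h2⟩
        constructor <;> linarith
      · rintro ⟨rfl, rfl⟩
        constructor <;> ring
    · rintro ⟨p1, p2⟩ ⟨q1, q2⟩
      simp only [Prod.mk.injEq]
      constructor
      · rintro ⟨h1, h2⟩
        constructor <;> linarith
      · rintro ⟨rfl, rfl⟩
        exact ⟨rfl, rfl⟩
    · rintro ⟨p1, p2⟩ n
      simp only [Prod.mk.injEq]
      constructor
      · rintro ⟨h1, h2⟩
        constructor <;> linarith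
      · rintro ⟨rfl, rfl⟩
        constructor <;> ring
  · have e0 : rst (true :: s) = s.map not := by simp [rst]
    refine ⟨fun p => (-(p.1 + p.2), p.2), 1, Or.inl rfl, ?_, ?_, ?_, ?_, ?_⟩
    · rw [e0, List.length_map, List.length_cons]
    · intro i hi
      rw [e0] at hi ⊢
      rw [List.length_map] at hi
      exact vx_fl s (by omega)
    · rintro ⟨p1, p2⟩ ⟨q1, q2⟩ n
      simp only [Prod.mk_add_mk, Prod.mk.injEq]
      constructor
      · rintro ⟨h1, h2⟩
        constructor <;> linarith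
      · rintro ⟨rfl, rfl⟩
        constructor <;> ring
    · rintro ⟨p1, p2⟩ ⟨q1, q2⟩
      simp only [Prod.mk.injEq]
      constructor
      · rintro ⟨h1, h2⟩
        constructor <;> linarith
      · rintro ⟨rfl, rfl⟩
        exact ⟨rfl, rfl⟩
    · rintro ⟨p1, p2⟩ n
      simp only [Prod.mk.injEq]
      constructor
      · rintro ⟨h1, h2⟩
        constructor <;> linarith
      · rintro ⟨rfl, rfl⟩
        constructor <;> ring

/-- the rest is self-avoiding -/
theorem rst_SA {t : List Bool} (ht : 1 ≤ t.length)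
    (h2 : ∀ i j, 1 ≤ i → i < j → j ≤ t.length → vx oo up t i ≠ vx oo up t j) : rst t ∈ SA := by
  obtain ⟨φ, σ, hσ, e1, e2, -, e4, -⟩ := rst_spec ht
  refine ⟨fun i _ _ => Set.mem_univ _, fun i j hij hj he => ?_⟩
  refine h2 (i + 1) (j + 1) (by omega) (by omega) (by omega) ?_
  rw [e2 i (by omega), e2 j hj, he]

/-- the end of the rest -/
theorem rst_end {t : List Bool} (ht : 1 ≤ t.length) {K : ℤ} (h3 : vx oo up t t.length = up + (-2 * K, K)) :
    ∃ σ : ℤ, (σ = 1 ∨ σ = -1) ∧ vx oo up (rst t) (rst t).length = (σ * K, σ * K) := by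
  obtain ⟨φ, σ, hσ, e1, e2, -, -, e5⟩ := rst_spec ht
  refine ⟨σ, hσ, (e5 _ _).1 ?_⟩
  have h4 := e2 (rst t).length le_rfl
  rw [← e1, h3] at h4
  exact (add_left_cancel h4).symm

/-- translates of the word and of its rest -/
theorem rst_tr {t : List Bool} (ht : 1 ≤ t.length) : ∃ σ : ℤ, (σ = 1 ∨ σ = -1) ∧ ∀ i j, i ≤ (rst t).length →
    j ≤ (rst t).length → ∀ n : ℤ, vx oo up t (i + 1) = vx oo up t (j + 1) + (-2 * (σ * n), σ * n) ↔
      vx oo up (rst t) i = vx oo up (rst t) j + (n, n) := by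
  obtain ⟨φ, σ, hσ, e1, e2, e3, -, -⟩ := rst_spec ht
  refine ⟨σ, hσ, fun i j hi hj n => ?_⟩
  rw [e2 i hi, e2 j hj, add_assoc, add_right_inj]
  exact e3 _ _ _

theorem rst_len {t : List Bool} (ht : 1 ≤ t.length) : t.length = (rst t).length + 1 := by
  obtain ⟨φ, σ, hσ, e1, -⟩ := rst_spec ht
  exact e1

/-- the weight: a class of words against the class of the rests -/
theorem gf_rst {P Q : Set (List Bool)} (h1 : ∀ t ∈ P, 1 ≤ t.length) (hQ : ∀ t ∈ P, rst t ∈ Q) :
    gf P ≤ 2 * gf Q := by
  have key : ∀ b : Bool, gf {t | t ∈ P ∧ t.head? = some b} ≤ ENNReal.ofReal xc * gf Q := by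
    intro b
    refine gf_le_of_inj rst ?_ ?_ _ ?_
    · rintro t ⟨ht, -⟩
      exact hQ t ht
    · rintro t ⟨ht, hb⟩ t' ⟨ht', hb'⟩ e
      obtain ⟨c, s, rfl⟩ : ∃ c s, t = c :: s := by
        rcases t with _ | ⟨c, s⟩
        · have := h1 _ ht
          simp at this
        · exact ⟨c, s, rfl⟩
      obtain ⟨c', s', rfl⟩ : ∃ c s, t' = c :: s := by
        rcases t' with _ | ⟨c, s⟩
        · have := h1 _ ht'
          simp at this
        · exact ⟨c, s, rfl⟩
      simp only [List.head?_cons, Option.some.injEq] at hb hb'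
      subst hb
      subst hb'
      cases c'
      · simp only [rst, List.head?_cons, Option.some.injEq, Bool.false_eq_true, if_false, List.tail_cons] at e
        rw [e]
      · simp only [rst, List.head?_cons, if_true, List.tail_cons] at e
        have e' := congrArg (List.map not) e
        rw [map_not_not, map_not_not] at e'
        rw [e']
    · rintro t ⟨ht, -⟩
      obtain ⟨c, s, rfl⟩ : ∃ c s, t = c :: s := by
        rcases t with _ | ⟨c, s⟩
        · have := h1 _ ht
          simp at this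
        · exact ⟨c, s, rfl⟩
      have h1 : wE (rst (c :: s)) = wE s := by
        cases c
        · simp [rst]
        · simp only [rst, List.head?_cons, if_true, List.tail_cons]
          exact wE_map_not s
      rw [h1]
      apply le_of_eq
      unfold wE
      rw [← ENNReal.ofReal_mul xc_pos.le, List.length_cons, pow_succ, mul_comm]
  have hx : ENNReal.ofReal xc ≤ 1 := by
    rw [ENNReal.ofReal_le_one]
    exact Pool.Agent.GLD.xc_lt_one.le
  have hsub : P ⊆ {t | t ∈ P ∧ t.head? = some false} ∪ {t | t ∈ P ∧ t.head? = some true} := by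
    intro t ht
    rcases t with _ | ⟨b, s⟩
    · have := h1 _ ht
      simp at this
    · cases b
      · exact Or.inl ⟨ht, rfl⟩
      · exact Or.inr ⟨ht, rfl⟩
  calc gf P ≤ gf ({t | t ∈ P ∧ t.head? = some false} ∪ {t | t ∈ P ∧ t.head? = some true}) := gf_mono hsub
    _ ≤ _ := gf_union_le _ _
    _ ≤ ENNReal.ofReal xc * gf Q + ENNReal.ofReal xc * gf Q := add_le_add (key false) (key true)
    _ ≤ 1 * gf Q + 1 * gf Q := add_le_add (mul_le_mul' hx le_rfl) (mul_le_mul' hx le_rfl)
    _ = 2 * gf Q := by ring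

end PLN

end HexObs
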